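import Pool.Agent.Work.MP_a2bf38_gt.H.Defs
import Pool.Agent.Work.MP_a2bf38_gt.Fu.G.LogDet
import Pool.Agent.Work.MP_a2bf38_gt.H.Setup
import Pool.Agent.Work.MP_a2bf38_gt.Fu.MaxP

section

/-!
# Determinants of complex Hessians: change of coordinates, comparison
-/

open scoped ContDiff ENNReal ComplexOrder
open Set Filter Topology Pool.Agent.ToricKRF Pool.Agent.ToricKRF.G

namespace Pool.Agent.KRFS.Bd

section transform

variable {n : ℕ} {f f' : ℝ × Cn n → ℝ} {U U' : Set (ℝ × Cn n)}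

theorem sf_add_left (f : ℝ × Cn n → ℝ) (u u' w : Cn n) (p : ℝ × Cn n) :
    sf f (u + u') w p = sf f u w p + sf f u' w p := by
  unfold sf
  rw [J_add]
  have h1 : ((0 : ℝ), u + u') = ((0 : ℝ), u) + ((0 : ℝ), u') := by simp
  have h2 : ((0 : ℝ), J u + J u') = ((0 : ℝ), J u) + ((0 : ℝ), J u') := by simp
  rw [h1, h2, D_dir_add, D_dir_add]
  ring

theorem sf_symm (hU : IsOpen U) (hf : ContDiffOn ℝ ∞ f U) {p : ℝ × Cn n} (hp : p ∈ U)
    (u w : Cn n) : sf f u w p = sf f w u p := by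
  have := congrArg Complex.re (hf_conj hU hf hp u w)
  rw [Complex.conj_re] at this
  exact this

theorem lev_add_dir (hU : IsOpen U) (hf : ContDiffOn ℝ ∞ f U) {p : ℝ × Cn n} (hp : p ∈ U)
    (u w : Cn n) : lev f (u + w) p = lev f u p + lev f w p + 2 * sf f u w p := by
  rw [lev_eq_sf, lev_eq_sf, lev_eq_sf, sf_add_left, sf_symm hU hf hp u (u + w),
    sf_symm hU hf hp w (u + w), sf_add_left, sf_add_left, sf_symm hU hf hp w u]
  ring

theorem cHess_eq_hf (hU : IsOpen U) (hf : ContDiffOn ℝ ∞ f U) {p : ℝ × Cn n} (hp : p ∈ U)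
    (k l : Fin n) : cHess f p k l =
      Pool.Agent.ToricKRF.G.hf f (Pi.single k 1, 0) (Pi.single l 1, 0) p := by
  rw [hf_eq hU hf hp]
  have h : ∀ (k k' : Fin n), cc ((Pi.single k 1, 0) : Cn n) k' = if k' = k then 1 else 0 := by
    intro k k'
    apply Complex.ext
    · simp only [cc, Pi.single_apply]
      split_ifs <;> simp
    · simp only [cc, Pi.zero_apply]
      split_ifs <;> simp
  simp [h]

/-- the determinants of the complex Hessians under a complex linear map which preserves the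
Levi forms -/
theorem det_transform (hU : IsOpen U) (hf : ContDiffOn ℝ ∞ f U) (hU' : IsOpen U')
    (hf' : ContDiffOn ℝ ∞ f' U') {p p' : ℝ × Cn n} (hp : p ∈ U) (hp' : p' ∈ U')
    (L : Cn n →L[ℝ] Cn n) (hL : ∀ u, L (J u) = J (L u)) (h : ∀ u, lev f u p = lev f' (L u) p') :
    (cHess f p).det.re = Complex.normSq
      (Matrix.of fun k a => cc (L ((Pi.single k 1, 0) : Cn n)) a).det * (cHess f' p').det.re := by
  have h1 : ∀ u w, sf f u w p = sf f' (L u) (L w) p' := by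
    intro u w
    have e1 := lev_add_dir hU hf hp u w
    have e2 := lev_add_dir hU' hf' hp' (L u) (L w)
    rw [← map_add, ← h, ← h, ← h] at e2
    linarith
  have h2 : ∀ u w, Pool.Agent.ToricKRF.G.hf f u w p =
      Pool.Agent.ToricKRF.G.hf f' (L u) (L w) p' := by
    intro u w
    unfold Pool.Agent.ToricKRF.G.hf
    rw [h1, h1, hL]
  set B : Matrix (Fin n) (Fin n) ℂ :=
    Matrix.of fun k a => cc (L ((Pi.single k 1, 0) : Cn n)) a with hB
  have h3 : cHess f p = B * cHess f' p' * B.conjTranspose := by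
    ext k l
    rw [cHess_eq_hf hU hf hp, h2, hf_eq hU' hf' hp', Matrix.mul_apply, Finset.sum_comm]
    refine Finset.sum_congr rfl fun b _ => ?_
    rw [Matrix.mul_apply, Finset.sum_mul]
    refine Finset.sum_congr rfl fun a _ => ?_
    rw [Matrix.conjTranspose_apply, RCLike.star_def, hB]
    simp only [Matrix.of_apply]
    ring
  rw [h3, Matrix.det_mul, Matrix.det_mul, Matrix.det_conjTranspose, RCLike.star_def]
  have : B.det * (cHess f' p').det * (starRingEnd ℂ) B.det =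
      (Complex.normSq B.det : ℂ) * (cHess f' p').det := by
    rw [← Complex.mul_conj]
    ring
  rw [this, Complex.re_ofReal_mul]

end transform

section compare

variable {n : ℕ}

/-- comparison of determinants of positive definite matrices -/
theorem det_re_le {A B : Matrix (Fin n) (Fin n) ℂ} (hA : A.PosDef) (hB : B.PosDef) {C : ℝ}
    (h : ∀ x : Fin n → ℂ, (star x ⬝ᵥ A.mulVec x).re ≤ C * (star x ⬝ᵥ B.mulVec x).re) :
    A.det.re ≤ C ^ n * B.det.re := by
  open scoped MatrixOrder in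
  obtain ⟨y, hy⟩ := CStarAlgebra.nonneg_iff_eq_star_mul_self.mp hB.posSemidef.nonneg
  have hy' : B = y.conjTranspose * y := by
    rw [hy, Matrix.star_eq_conjTranspose]
  have hdet : IsUnit y.conjTranspose.det := by
    have h1 : IsUnit B.det := (Matrix.isUnit_iff_isUnit_det _).mp hB.isUnit
    rw [hy', Matrix.det_mul] at h1
    exact isUnit_of_mul_isUnit_left h1
  set N : Matrix (Fin n) (Fin n) ℂ := (y.conjTranspose)⁻¹ with hN
  have hN1 : N * y.conjTranspose = 1 := Matrix.nonsing_inv_mul _ hdet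
  have hN2 : y * N.conjTranspose = 1 := by
    rw [← Matrix.conjTranspose_conjTranspose y, ← Matrix.conjTranspose_mul, hN1,
      Matrix.conjTranspose_one]
  have hN3 : N * B * N.conjTranspose = 1 := by
    rw [hy', ← Matrix.mul_assoc, hN1, Matrix.one_mul, hN2]
  set A' : Matrix (Fin n) (Fin n) ℂ := N * A * N.conjTranspose with hA'
  have hAh : A'.IsHermitian := by
    rw [hA', Matrix.IsHermitian, Matrix.conjTranspose_mul, Matrix.conjTranspose_mul,
      Matrix.conjTranspose_conjTranspose, hA.isHermitian.eq, Matrix.mul_assoc]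
  have hform : ∀ (X : Matrix (Fin n) (Fin n) ℂ) (v : Fin n → ℂ),
      star v ⬝ᵥ (N * X * N.conjTranspose).mulVec v =
        star (N.conjTranspose.mulVec v) ⬝ᵥ X.mulVec (N.conjTranspose.mulVec v) := by
    intro X v
    rw [Matrix.star_mulVec, Matrix.conjTranspose_conjTranspose, ← Matrix.mulVec_mulVec,
      ← Matrix.mulVec_mulVec, Matrix.dotProduct_mulVec]
  have hle : ∀ i, hAh.eigenvalues i ≤ C := by
    intro i
    set v : Fin n → ℂ := ⇑(hAh.eigenvectorBasis i) with hv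
    have h1 : hAh.eigenvalues i = (star v ⬝ᵥ A'.mulVec v).re := hAh.eigenvalues_eq i
    have h2 : (star v ⬝ᵥ v).re = 1 := by
      have e1 : inner ℂ (hAh.eigenvectorBasis i) (hAh.eigenvectorBasis i) = (1 : ℂ) := by
        rw [inner_self_eq_norm_sq_to_K, hAh.eigenvectorBasis.orthonormal.1 i]
        simp
      rw [EuclideanSpace.inner_eq_star_dotProduct, dotProduct_comm] at e1
      rw [e1]
      rfl
    have h3 := h (N.conjTranspose.mulVec v)
    rw [← hform A v, ← hform B v, hN3, Matrix.one_mulVec, h2, mul_one, ← h1] at h3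
    exact h3
  have hApos : A'.PosSemidef := by
    rw [hA']
    exact hA.posSemidef.mul_mul_conjTranspose_same N
  have h0 : ∀ i, 0 ≤ hAh.eigenvalues i := fun i => hApos.eigenvalues_nonneg i
  have hd : A'.det.re ≤ C ^ n := by
    rw [hAh.det_eq_prod_eigenvalues]
    have e1 : (∏ i, (hAh.eigenvalues i : ℂ)) = ((∏ i, hAh.eigenvalues i : ℝ) : ℂ) := by
      push_cast
      rfl
    have e2 : (∏ i, hAh.eigenvalues i) ≤ C ^ n := by
      calc (∏ i, hAh.eigenvalues i) ≤ ∏ _i : Fin n, C :=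
            Finset.prod_le_prod (fun i _ => h0 i) fun i _ => hle i
        _ = C ^ n := by simp
    calc (∏ i, ((hAh.eigenvalues i : ℝ) : ℂ)).re = ∏ i, hAh.eigenvalues i := by
          rw [e1, Complex.ofReal_re]
      _ ≤ C ^ n := e2
  have hmulre : ∀ X : Matrix (Fin n) (Fin n) ℂ, (N * X * N.conjTranspose).det.re =
      Complex.normSq N.det * X.det.re := by
    intro X
    rw [Matrix.det_mul, Matrix.det_mul, Matrix.det_conjTranspose, RCLike.star_def]
    have : N.det * X.det * (starRingEnd ℂ) N.det = (Complex.normSq N.det : ℂ) * X.det := by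
      rw [← Complex.mul_conj]
      ring
    rw [this, Complex.re_ofReal_mul]
  have hB1 : Complex.normSq N.det * B.det.re = 1 := by
    rw [← hmulre, hN3, Matrix.det_one, Complex.one_re]
  have hBpos : 0 < B.det.re := (Complex.pos_iff.1 hB.det_pos).1
  have hA1 : A'.det.re = Complex.normSq N.det * A.det.re := hmulre A
  rw [hA1] at hd
  calc A.det.re = (Complex.normSq N.det * A.det.re) * B.det.re := by
        rw [mul_right_comm, hB1, one_mul]
    _ ≤ C ^ n * B.det.re := mul_le_mul_of_nonneg_right hd hBpos.le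

theorem lev_eq_form {f : ℝ × Cn n → ℝ} {U : Set (ℝ × Cn n)} (hU : IsOpen U)
    (hf : ContDiffOn ℝ ∞ f U) {p : ℝ × Cn n} (hp : p ∈ U) (x : Fin n → ℂ) :
    lev f ((fun k => (x k).re, fun k => -(x k).im) : Cn n) p =
      (star x ⬝ᵥ (cHess f p).mulVec x).re := by
  rw [lev_eq_sf, sf_eq_re hU hf hp]
  congr 1
  have hc : ∀ k, cc ((fun k => (x k).re, fun k => -(x k).im) : Cn n) k = star (x k) := by
    intro k
    rfl
  simp only [dotProduct, Matrix.mulVec, Pi.star_apply]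
  refine Finset.sum_congr rfl fun k _ => ?_
  rw [Finset.mul_sum]
  refine Finset.sum_congr rfl fun l _ => ?_
  rw [hc, hc, ← RCLike.star_def, star_star]
  ring

/-- comparison of determinants from the comparison of the Levi forms -/
theorem det_le_of_lev_le {f g : ℝ × Cn n → ℝ} {U V : Set (ℝ × Cn n)} (hU : IsOpen U)
    (hf : ContDiffOn ℝ ∞ f U) (hV : IsOpen V) (hg : ContDiffOn ℝ ∞ g V) {p p' : ℝ × Cn n}
    (hp : p ∈ U) (hp' : p' ∈ V) (hfp : (cHess f p).PosDef) (hgp : (cHess g p').PosDef) {C : ℝ}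
    (h : ∀ u, lev f u p ≤ C * lev g u p') :
    (cHess f p).det.re ≤ C ^ n * (cHess g p').det.re := by
  refine det_re_le hfp hgp fun x => ?_
  rw [← lev_eq_form hU hf hp, ← lev_eq_form hV hg hp']
  exact h _

end compare

end Pool.Agent.KRFS.Bd

end

section

/-!
# Calculus for the functions `(a0 + a1 t) (log det g - log Ω) + b φ + d t`
-/

open scoped ContDiff ENNReal ComplexOrder
open Set Filter Topology Pool.Agent.ToricKRF Pool.Agent.ToricKRF.G

namespace Pool.Agent.KRFS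

namespace Bd

section levz

variable {n : ℕ} {f g : Cn n → ℝ} {z : Cn n}

theorem levz_congr (h : f =ᶠ[𝓝 z] g) (u : Cn n) : levz f u z = levz g u z := by
  unfold levz
  rw [LC.D_D_congr _ _ h, LC.D_D_congr _ _ h]

theorem levz_add (hf : ContDiffAt ℝ 2 f z) (hg : ContDiffAt ℝ 2 g z) (u : Cn n) :
    levz (fun x => f x + g x) u z = levz f u z + levz g u z := by
  unfold levz
  rw [LC.D_D_add _ _ hf hg, LC.D_D_add _ _ hf hg]
  ring

theorem levz_sub (hf : ContDiffAt ℝ 2 f z) (hg : ContDiffAt ℝ 2 g z) (u : Cn n) :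
    levz (fun x => f x - g x) u z = levz f u z - levz g u z := by
  unfold levz
  rw [LC.D_D_sub _ _ hf hg, LC.D_D_sub _ _ hf hg]
  ring

theorem levz_const_mul (c : ℝ) (hf : ContDiffAt ℝ 2 f z) (u : Cn n) :
    levz (fun x => c * f x) u z = c * levz f u z := by
  unfold levz
  rw [LC.D_D_const_mul _ _ _ hf, LC.D_D_const_mul _ _ _ hf]
  ring

theorem levz_const (c : ℝ) (u : Cn n) : levz (fun _ => c) u z = 0 := by
  have h : ∀ w : Cn n, D w (fun _ : Cn n => c) = fun _ => 0 := by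
    intro w
    funext x
    exact D_const c w x
  unfold levz
  rw [h, h, D_const, D_const]
  norm_num

/-- The Levi form by the second derivative -/
theorem levz_eq_hess {S : Set (Cn n)} (hS : IsOpen S) (hf : ContDiffOn ℝ ∞ f S) (hz : z ∈ S)
    (u : Cn n) : levz f u z = (fderiv ℝ (fderiv ℝ f) z u u +
      fderiv ℝ (fderiv ℝ f) z (J u) (J u)) / 4 := by
  have h1 : ContDiffOn ℝ ∞ (fderiv ℝ f) S :=
    ((contDiffOn_infty_iff_fderiv_of_isOpen hS).1 hf).2
  have h2 : DifferentiableAt ℝ (fderiv ℝ f) z :=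
    (h1.differentiableOn (by simp)).differentiableAt (hS.mem_nhds hz)
  have key : ∀ a b : Cn n, D a (D b f) z = fderiv ℝ (fderiv ℝ f) z a b := by
    intro a b
    change fderiv ℝ (fun y => (fderiv ℝ f y) b) z a = _
    rw [fderiv_clm_apply h2 (differentiableAt_const b)]
    simp
  unfold levz
  rw [key, key]

theorem levz_smul {S : Set (Cn n)} (hS : IsOpen S) (hf : ContDiffOn ℝ ∞ f S) (hz : z ∈ S)
    (r : ℝ) (u : Cn n) : levz f (r • u) z = r ^ 2 * levz f u z := by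
  rw [levz_eq_hess hS hf hz, levz_eq_hess hS hf hz, J_smul]
  simp only [map_smul, smul_apply, smul_eq_mul]
  ring

theorem levz_continuousAt {S : Set (Cn n)} (hS : IsOpen S) (hf : ContDiffOn ℝ ∞ f S) (hz : z ∈ S)
    (u : Cn n) : ContinuousAt (fun q : Cn n × Cn n => levz f q.2 q.1) (z, u) := by
  have h1 : ContDiffOn ℝ ∞ (fderiv ℝ f) S :=
    ((contDiffOn_infty_iff_fderiv_of_isOpen hS).1 hf).2
  have h2 : ContDiffOn ℝ ∞ (fderiv ℝ (fderiv ℝ f)) S :=
    ((contDiffOn_infty_iff_fderiv_of_isOpen hS).1 h1).2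
  have h3 : ContinuousAt (fderiv ℝ (fderiv ℝ f)) z := h2.continuousOn.continuousAt (hS.mem_nhds hz)
  have h4 : ContinuousAt (fun q : Cn n × Cn n => fderiv ℝ (fderiv ℝ f) q.1) (z, u) :=
    ContinuousAt.comp (f := fun q : Cn n × Cn n => q.1) (x := (z, u)) h3 continuousAt_fst
  have h5 : ContinuousAt (fun q : Cn n × Cn n => J q.2) (z, u) := by
    unfold J
    fun_prop
  have h6 : ContinuousAt (fun q : Cn n × Cn n => (fderiv ℝ (fderiv ℝ f) q.1 q.2 q.2 +
      fderiv ℝ (fderiv ℝ f) q.1 (J q.2) (J q.2)) / 4) (z, u) :=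
    (((h4.clm_apply continuousAt_snd).clm_apply continuousAt_snd).add
      ((h4.clm_apply h5).clm_apply h5)).div_const 4
  refine h6.congr ?_
  have h7 : ∀ᶠ q : Cn n × Cn n in 𝓝 (z, u), q.1 ∈ S :=
    continuousAt_fst.eventually_mem (hS.mem_nhds hz)
  filter_upwards [h7] with q hq
  exact (levz_eq_hess hS hf hq q.2).symm

/-- local comparison of two Levi forms -/
theorem levz_le_local {S : Set (Cn n)} (hS : IsOpen S) (hf : ContDiffOn ℝ ∞ f S)
    (hg : ContDiffOn ℝ ∞ g S) (hz : z ∈ S) (hpos : ∀ x ∈ S, ∀ u : Cn n, u ≠ 0 → 0 < levz g u x) :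
    ∃ C : ℝ, 0 ≤ C ∧ ∀ᶠ x in 𝓝 z, ∀ u, levz f u x ≤ C * levz g u x := by
  have hK : IsCompact (Metric.sphere (0 : Cn n) 1) := isCompact_sphere _ _
  have hne : ∀ u ∈ Metric.sphere (0 : Cn n) 1, u ≠ 0 := by
    intro u hu h
    rw [h] at hu
    simp at hu
  have hcf : ∀ u, ContinuousAt (fun q : Cn n × Cn n => levz f q.2 q.1) (z, u) :=
    levz_continuousAt hS hf hz
  have hcg : ∀ u, ContinuousAt (fun q : Cn n × Cn n => levz g q.2 q.1) (z, u) :=
    levz_continuousAt hS hg hz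
  have hsl : ∀ (F : Cn n → ℝ), (∀ u, ContinuousAt (fun q : Cn n × Cn n => levz F q.2 q.1) (z, u)) →
      Continuous fun u => levz F u z := by
    intro F hF
    rw [continuous_iff_continuousAt]
    intro u
    exact ContinuousAt.comp (f := fun u : Cn n => ((z, u) : Cn n × Cn n)) (x := u) (hF u)
      (continuousAt_const.prodMk continuousAt_id)
  obtain ⟨C, hC⟩ : ∃ C : ℝ, ∀ u ∈ Metric.sphere (0 : Cn n) 1, levz f u z / levz g u z ≤ C := by
    have h1 : ContinuousOn (fun u => levz f u z / levz g u z) (Metric.sphere (0 : Cn n) 1) :=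
      (hsl f hcf).continuousOn.div (hsl g hcg).continuousOn fun u hu => (hpos z hz u (hne u hu)).ne'
    obtain ⟨C, hC⟩ := (hK.image_of_continuousOn h1).bddAbove
    exact ⟨C, fun u hu => hC ⟨u, hu, rfl⟩⟩
  set C' : ℝ := max C 0 + 1 with hC'
  have hC0 : 0 ≤ C' := by
    have := le_max_right C 0
    linarith
  refine ⟨C', hC0, ?_⟩
  have hev : ∀ᶠ x in 𝓝 z, ∀ u ∈ Metric.sphere (0 : Cn n) 1, levz f u x < C' * levz g u x := by
    apply hK.eventually_forall_of_forall_eventually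
    intro u hu
    have h1 : levz f u z < C' * levz g u z := by
      have h2 := hC u hu
      have h3 := hpos z hz u (hne u hu)
      rw [div_le_iff₀ h3] at h2
      have h4 : C < C' := by
        have := le_max_left C 0
        linarith
      have h5 := mul_lt_mul_of_pos_right h4 h3
      linarith
    exact (hcf u).eventually_lt ((hcg u).const_mul C') h1
  filter_upwards [hev, hS.mem_nhds hz] with x hx hxS u
  by_cases hu : u = 0
  · rw [hu]
    have e0 : ∀ F : Cn n → ℝ, ContDiffOn ℝ ∞ F S → levz F 0 x = 0 := by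
      intro F hF
      have := levz_smul hS hF hxS 0 0
      simpa using this
    rw [e0 f hf, e0 g hg, mul_zero]
  · have hr : 0 < ‖u‖ := norm_pos_iff.2 hu
    have h1 : u = ‖u‖ • (‖u‖⁻¹ • u) := by
      rw [smul_smul, mul_inv_cancel₀ hr.ne', one_smul]
    have h2 : ‖u‖⁻¹ • u ∈ Metric.sphere (0 : Cn n) 1 := by
      rw [mem_sphere_zero_iff_norm, norm_smul, norm_inv, norm_norm, inv_mul_cancel₀ hr.ne']
    have h3 := (hx _ h2).le
    rw [h1, levz_smul hS hf hxS, levz_smul hS hg hxS]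
    calc ‖u‖ ^ 2 * levz f (‖u‖⁻¹ • u) x ≤ ‖u‖ ^ 2 * (C' * levz g (‖u‖⁻¹ • u) x) :=
          mul_le_mul_of_nonneg_left h3 (by positivity)
      _ = C' * (‖u‖ ^ 2 * levz g (‖u‖⁻¹ • u) x) := by ring

end levz

theorem hasDerivAt_time {n : ℕ} {f : ℝ × Cn n → ℝ} {r : ℝ} {z : Cn n}
    (hf : DifferentiableAt ℝ f (r, z)) : HasDerivAt (fun r => f (r, z)) (G.dt f (r, z)) r :=
  HasFDerivAt.comp_hasDerivAt (f := fun r : ℝ => ((r, z) : ℝ × Cn n)) r hf.hasFDerivAt
    ((hasDerivAt_id r).prodMk (hasDerivAt_const r z))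

end Bd

variable {n N : ℕ} {M : Type} [TopologicalSpace M] {κ P F : Type} [Fintype F] {T : ℝ}
  (s : Setup n N M κ P F T)

/-- `(a0 + a1 t) (log det g - log Ω) + b φ + d t`, `φ = ψ(t) - ψ(0) - t log Ω` -/
noncomputable def Setup.Gc (a0 a1 b d : ℝ) (c : κ) : ℝ × Cn n → ℝ := fun q =>
  (a0 + a1 * q.1) * (Real.log (cHess (s.ψ c) q).det.re - Real.log (s.Ω c q.2)) +
    b * (s.ψ c q - s.ψ c (0, q.2) - q.1 * Real.log (s.Ω c q.2)) + d * q.1

namespace Bd

/-- a good domain of the chart `c` -/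
theorem exists_good (c : κ) : ∃ U : Set (ℝ × Cn n), IsOpen U ∧ Ico 0 T ×ˢ (s.e c).target ⊆ U ∧
    ContDiffOn ℝ ∞ (s.ψ c) U ∧ (∀ q ∈ U, 0 < (cHess (s.ψ c) q).det.re) ∧
    (∀ q ∈ U, ((0 : ℝ), q.2) ∈ U) ∧ ∀ q ∈ U, q.2 ∈ (s.e c).target := by
  obtain ⟨U, hU, hsub, hψ⟩ := s.krf.smooth c
  have hcd : ContDiffOn ℝ ∞ (fun q => (cHess (s.ψ c) q).det.re) U :=
    Complex.reCLM.contDiff.comp_contDiffOn (contDiffOn_det (contDiffOn_cHess hU hψ))
  set U' : Set (ℝ × Cn n) := (U ∩ (fun q => (cHess (s.ψ c) q).det.re) ⁻¹' Ioi 0) ∩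
    (Prod.snd ⁻¹' (s.e c).target) with hU'
  have hU'o : IsOpen U' := (hcd.continuousOn.isOpen_inter_preimage hU isOpen_Ioi).inter
    ((s.e c).open_target.preimage continuous_snd)
  have hsub' : Ico 0 T ×ˢ (s.e c).target ⊆ U' := by
    rintro ⟨t, z⟩ ⟨ht, hz⟩
    exact ⟨⟨hsub ⟨ht, hz⟩, det_re_pos (s.krf.pos c t ht z hz)⟩, hz⟩
  refine ⟨U' ∩ (fun q : ℝ × Cn n => ((0 : ℝ), q.2)) ⁻¹' U', hU'o.inter (hU'o.preimage (by fun_prop)),
    ?_, hψ.mono fun q hq => hq.1.1.1, fun q hq => hq.1.1.2, fun q hq => ⟨hq.2, hq.2⟩,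
    fun q hq => hq.1.2⟩
  rintro ⟨t, z⟩ ⟨ht, hz⟩
  exact ⟨hsub' ⟨ht, hz⟩, hsub' ⟨⟨le_rfl, lt_of_le_of_lt ht.1 ht.2⟩, hz⟩⟩

theorem smooth_logdet {c : κ} {U : Set (ℝ × Cn n)} (hU : IsOpen U) (hψ : ContDiffOn ℝ ∞ (s.ψ c) U)
    (hp : ∀ q ∈ U, 0 < (cHess (s.ψ c) q).det.re) :
    ContDiffOn ℝ ∞ (fun q => Real.log (cHess (s.ψ c) q).det.re) U := by
  have hcd : ContDiffOn ℝ ∞ (fun q => (cHess (s.ψ c) q).det.re) U :=
    Complex.reCLM.contDiff.comp_contDiffOn (contDiffOn_det (contDiffOn_cHess hU hψ))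
  exact hcd.log fun q hq => (hp q hq).ne'

theorem smooth_logOmega (c : κ) :
    ContDiffOn ℝ ∞ (fun z => Real.log (s.Ω c z)) (s.e c).target :=
  (s.vol.smooth c).log fun z hz => (s.vol.pos c z hz).ne'

theorem smooth_Gc (a0 a1 b d : ℝ) {c : κ} {U : Set (ℝ × Cn n)} (hU : IsOpen U)
    (hψ : ContDiffOn ℝ ∞ (s.ψ c) U) (hp : ∀ q ∈ U, 0 < (cHess (s.ψ c) q).det.re)
    (h0 : ∀ q ∈ U, ((0 : ℝ), q.2) ∈ U) (ht : ∀ q ∈ U, q.2 ∈ (s.e c).target) :
    ContDiffOn ℝ ∞ (s.Gc a0 a1 b d c) U := by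
  have hL := smooth_logdet s hU hψ hp
  have hl : ContDiffOn ℝ ∞ (fun q : ℝ × Cn n => Real.log (s.Ω c q.2)) U :=
    (smooth_logOmega s c).comp contDiff_snd.contDiffOn ht
  have hψ0 : ContDiffOn ℝ ∞ (fun q : ℝ × Cn n => s.ψ c (0, q.2)) U :=
    hψ.comp (contDiff_const.prodMk contDiff_snd).contDiffOn h0
  have hfst : ContDiffOn ℝ ∞ (fun q : ℝ × Cn n => q.1) U := contDiff_fst.contDiffOn
  unfold Setup.Gc
  exact (((contDiffOn_const.add (contDiffOn_const.mul hfst)).mul (hL.sub hl)).add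
    (contDiffOn_const.mul ((hψ.sub hψ0).sub (hfst.mul hl)))).add (contDiffOn_const.mul hfst)

/-- the transformation rule of `log det g` -/
theorem logdet_transform {c c' : κ} {z : Cn n} (hz : z ∈ dom s.e c c') : ∃ k : ℝ,
    ∀ t ∈ Ico 0 T, Real.log (cHess (s.ψ c) (t, z)).det.re =
      k + Real.log (cHess (s.ψ c') (t, tr s.e c c' z)).det.re := by
  obtain ⟨U, hU, hsub, hψ, hp, -, -⟩ := exists_good s c
  obtain ⟨U', hU', hsub', hψ', hp', -, -⟩ := exists_good s c'
  have hz' : tr s.e c c' z ∈ (s.e c').target := (s.e c').map_source hz.2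
  refine ⟨Real.log (Complex.normSq (Matrix.of fun k a =>
    cc (fderiv ℝ (tr s.e c c') z ((Pi.single k 1, 0) : Cn n)) a).det), fun t ht => ?_⟩
  have h1 : (t, z) ∈ U := hsub ⟨ht, hz.1⟩
  have h2 : (t, tr s.e c c' z) ∈ U' := hsub' ⟨ht, hz'⟩
  have h3 := det_transform hU hψ hU' hψ' h1 h2 (fderiv ℝ (tr s.e c c') z)
    (fun u => (s.atlas.holo c c').2 z hz u) (s.krf.compat c c' t ht z hz)
  have h4 := hp _ h1
  have h5 := hp' _ h2
  rw [h3] at h4 ⊢
  refine Real.log_mul ?_ h5.ne'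
  intro h6
  rw [h6, zero_mul] at h4
  exact lt_irrefl _ h4

theorem logOmega_transform {c c' : κ} {z : Cn n} (hz : z ∈ dom s.e c c') (hT : 0 < T) :
    Real.log (s.Ω c z) - Real.log (s.Ω c' (tr s.e c c' z)) =
      Real.log (cHess (s.ψ c) (0, z)).det.re -
        Real.log (cHess (s.ψ c') (0, tr s.e c c' z)).det.re := by
  have hz' : tr s.e c c' z ∈ (s.e c').target := (s.e c').map_source hz.2
  have h1 := congrArg Real.log (s.vol.compat c c' z hz)
  have h0 : (0 : ℝ) ∈ Ico 0 T := ⟨le_rfl, hT⟩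
  rw [Real.log_mul (s.vol.pos c z hz.1).ne' (det_re_pos (s.krf.pos c' 0 h0 _ hz')).ne',
    Real.log_mul (s.vol.pos c' _ hz').ne' (det_re_pos (s.krf.pos c 0 h0 _ hz.1)).ne'] at h1
  linarith

theorem phi_transform {c c' : κ} {z : Cn n} (hz : z ∈ dom s.e c c') {t : ℝ} (ht : t ∈ Ico 0 T) :
    s.ψ c (t, z) - s.ψ c (0, z) - t * Real.log (s.Ω c z) =
      s.ψ c' (t, tr s.e c c' z) - s.ψ c' (0, tr s.e c c' z) -
        t * Real.log (s.Ω c' (tr s.e c c' z)) := by
  obtain ⟨U, hU, hsub, hψ, hp, -, -⟩ := exists_good s c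
  obtain ⟨U', hU', hsub', hψ', hp', -, -⟩ := exists_good s c'
  have hz' : tr s.e c c' z ∈ (s.e c').target := (s.e c').map_source hz.2
  obtain ⟨k, hk⟩ := logdet_transform s hz
  have hT : 0 < T := lt_of_le_of_lt ht.1 ht.2
  have h0 : (0 : ℝ) ∈ Ico 0 T := ⟨le_rfl, hT⟩
  have hkk : Real.log (s.Ω c z) - Real.log (s.Ω c' (tr s.e c c' z)) = k := by
    rw [logOmega_transform s hz hT, hk 0 h0]
    ring
  set z' := tr s.e c c' z with hzz
  have hd : ∀ r ∈ Ico 0 T, HasDerivAt (fun r => s.ψ c (r, z) - s.ψ c' (r, z') - r * k)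
      (G.dt (s.ψ c) (r, z) - G.dt (s.ψ c') (r, z') - k) r := by
    intro r hr
    have e1 := hasDerivAt_time (diffAt_of_contDiffOn hU hψ (hsub ⟨hr, hz.1⟩))
    have e2 := hasDerivAt_time (diffAt_of_contDiffOn hU' hψ' (hsub' ⟨hr, hz'⟩))
    have e3 : HasDerivAt (fun r : ℝ => r * k) k r := by
      simpa using (hasDerivAt_id r).mul_const k
    exact (e1.sub e2).sub e3
  have hzero : ∀ r ∈ Ioo 0 T, G.dt (s.ψ c) (r, z) - G.dt (s.ψ c') (r, z') - k = 0 := by
    intro r hr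
    rw [s.krf.flow c r hr z hz.1, s.krf.flow c' r hr z' hz', hk r ⟨hr.1.le, hr.2⟩]
    ring
  rcases ht.1.eq_or_lt with h | h
  · rw [← h]
    ring
  · obtain ⟨r, hr, hr'⟩ := exists_hasDerivAt_eq_slope
      (fun r => s.ψ c (r, z) - s.ψ c' (r, z') - r * k)
      (fun r => G.dt (s.ψ c) (r, z) - G.dt (s.ψ c') (r, z') - k) h
      (fun r hr => (hd r ⟨hr.1, lt_of_le_of_lt hr.2 ht.2⟩).continuousAt.continuousWithinAt)
      (fun r hr => hd r ⟨hr.1.le, hr.2.trans ht.2⟩)
    rw [hzero r ⟨hr.1, hr.2.trans ht.2⟩] at hr'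
    have h2 := hr'.symm
    rw [div_eq_zero_iff] at h2
    rcases h2 with h2 | h2
    · have h3 : Real.log (s.Ω c z) = k + Real.log (s.Ω c' z') := by linarith
      rw [h3]
      linarith
    · exfalso
      linarith

theorem Gc_isFun (a0 a1 b d : ℝ) : IsFun s.e T (s.Gc a0 a1 b d) where
  smooth c := by
    obtain ⟨U, hU, hsub, hψ, hp, h0, ht⟩ := exists_good s c
    exact ⟨U, hU, hsub, smooth_Gc s a0 a1 b d hU hψ hp h0 ht⟩
  compat c c' t ht z hz := by
    have hT : 0 < T := lt_of_le_of_lt ht.1 ht.2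
    obtain ⟨k, hk⟩ := logdet_transform s hz
    have h1 := phi_transform s hz ht
    have h2 := logOmega_transform s hz hT
    have h3 := hk t ht
    have h4 := hk 0 ⟨le_rfl, hT⟩
    have h5 : Real.log (cHess (s.ψ c) (t, z)).det.re - Real.log (s.Ω c z) =
        Real.log (cHess (s.ψ c') (t, tr s.e c c' z)).det.re -
          Real.log (s.Ω c' (tr s.e c c' z)) := by linarith
    simp only [Setup.Gc]
    rw [h1, h5]

/-- the time derivative of `Gc` -/
theorem dt_Gc (a0 a1 b d : ℝ) {c : κ} {t : ℝ} (ht : t ∈ Ioo 0 T) {z : Cn n}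
    (hz : z ∈ (s.e c).target) :
    G.dt (s.Gc a0 a1 b d c) (t, z) = (a1 + b) *
      (Real.log (cHess (s.ψ c) (t, z)).det.re - Real.log (s.Ω c z)) +
      (a0 + a1 * t) * G.dt (fun q => Real.log (cHess (s.ψ c) q).det.re) (t, z) + d := by
  obtain ⟨U, hU, hsub, hψ, hp, h0, htg⟩ := exists_good s c
  have hm : (t, z) ∈ U := hsub ⟨⟨ht.1.le, ht.2⟩, hz⟩
  have e1 := hasDerivAt_time (diffAt_of_contDiffOn hU (smooth_Gc s a0 a1 b d hU hψ hp h0 htg) hm)
  have e2 := hasDerivAt_time (diffAt_of_contDiffOn hU (smooth_logdet s hU hψ hp) hm)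
  have e3 := hasDerivAt_time (diffAt_of_contDiffOn hU hψ hm)
  rw [s.krf.flow c t ht z hz] at e3
  have e4 : HasDerivAt (fun r : ℝ => a0 + a1 * r) a1 t := by
    simpa using ((hasDerivAt_id t).const_mul a1).const_add a0
  have e5 : HasDerivAt (fun r : ℝ => r * Real.log (s.Ω c z)) (Real.log (s.Ω c z)) t := by
    simpa using (hasDerivAt_id t).mul_const (Real.log (s.Ω c z))
  have e6 : HasDerivAt (fun r : ℝ => d * r) d t := by
    simpa using (hasDerivAt_id t).const_mul d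
  have e7 := ((e4.mul (e2.sub_const (Real.log (s.Ω c z)))).add
    (((e3.sub_const (s.ψ c (0, z))).sub e5).const_mul b)).add e6
  have e8 := e1.unique e7
  rw [e8]
  ring

/-- the Levi form of `Gc` -/
theorem lev_Gc (a0 a1 b d : ℝ) {c : κ} {t : ℝ} (ht : t ∈ Ico 0 T) {z : Cn n}
    (hz : z ∈ (s.e c).target) (u : Cn n) :
    lev (s.Gc a0 a1 b d c) u (t, z) = (a0 + a1 * t) *
      (lev (fun q => Real.log (cHess (s.ψ c) q).det.re) u (t, z) -
        levz (fun z => Real.log (s.Ω c z)) u z) +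
      b * (lev (s.ψ c) u (t, z) - lev (s.ψ c) u (0, z) -
        t * levz (fun z => Real.log (s.Ω c z)) u z) := by
  obtain ⟨U, hU, hsub, hψ, hp, h0, htg⟩ := exists_good s c
  have hm : (t, z) ∈ U := hsub ⟨ht, hz⟩
  have hm0 : (0, z) ∈ U := h0 _ hm
  have hG := smooth_Gc s a0 a1 b d hU hψ hp h0 htg
  have hL := smooth_logdet s hU hψ hp
  rw [← levz_slice hU hG hm, ← levz_slice hU hL hm, ← levz_slice hU hψ hm,
    ← levz_slice hU hψ hm0]
  have hslice : ∀ (f : ℝ × Cn n → ℝ) (r : ℝ), ContDiffOn ℝ ∞ f U → (r, z) ∈ U →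
      ContDiffAt ℝ 2 (fun x => f (r, x)) z := by
    intro f r hf hr
    have h1 : ContDiffAt ℝ ∞ f (r, z) := hf.contDiffAt (hU.mem_nhds hr)
    have h2 : ContDiffAt ℝ ∞ (fun x => f (r, x)) z :=
      ContDiffAt.comp (f := fun x : Cn n => ((r, x) : ℝ × Cn n)) z h1
        (contDiffAt_const.prodMk contDiffAt_id)
    exact h2.of_le (WithTop.coe_le_coe.2 le_top)
  have d1 := hslice _ t hL hm
  have d2 := hslice _ t hψ hm
  have d3 := hslice _ 0 hψ hm0
  have d4 : ContDiffAt ℝ 2 (fun z => Real.log (s.Ω c z)) z :=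
    ((smooth_logOmega s c).contDiffAt ((s.e c).open_target.mem_nhds hz)).of_le
      (WithTop.coe_le_coe.2 le_top)
  have e1 : (fun x => s.Gc a0 a1 b d c (t, x)) = fun x =>
      ((a0 + a1 * t) * (Real.log (cHess (s.ψ c) (t, x)).det.re - Real.log (s.Ω c x)) +
        b * (s.ψ c (t, x) - s.ψ c (0, x) - t * Real.log (s.Ω c x))) + d * t := rfl
  have f1 : ContDiffAt ℝ 2 (fun x => (a0 + a1 * t) *
      (Real.log (cHess (s.ψ c) (t, x)).det.re - Real.log (s.Ω c x))) z :=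
    contDiffAt_const.mul (d1.sub d4)
  have f2 : ContDiffAt ℝ 2 (fun x => t * Real.log (s.Ω c x)) z := contDiffAt_const.mul d4
  have f3 : ContDiffAt ℝ 2 (fun x => b * (s.ψ c (t, x) - s.ψ c (0, x) -
      t * Real.log (s.Ω c x))) z := contDiffAt_const.mul ((d2.sub d3).sub f2)
  rw [e1, levz_add (f1.add f3) contDiffAt_const, levz_add f1 f3,
    levz_const_mul _ (d1.sub d4), levz_sub d1 d4, levz_const_mul _ ((d2.sub d3).sub f2),
    levz_sub (d2.sub d3) f2, levz_sub d2 d3, levz_const_mul _ d4, levz_const, add_zero]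

end Bd

end Pool.Agent.KRFS

end
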