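import Pool.Agent.Work.MP_a2bf38_gt.H.Setup
import Mathlib.Analysis.SpecialFunctions.PolarCoord
import Pool.Agent.Work.MP_a2bf38_gt.Fu.MaxP

section

/-!
# The Riemannian distance of a Kähler-Ricci flow

The distance `rdist` is symmetric, satisfies the triangle inequality and is locally bounded by the
norm in a chart.
-/

open scoped ContDiff ENNReal ComplexOrder
open Set Filter Topology Pool.Agent.ToricKRF Pool.Agent.ToricKRF.G

namespace Pool.Agent.KRFS

section

variable {M : Type} [TopologicalSpace M] {n : ℕ} {κ : Type}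
  {e : κ → OpenPartialHomeomorph M (Cn n)} {ψ : κ → ℝ × Cn n → ℝ} {t : ℝ}

theorem rdist_le_chain {p q : M} (m : ℕ) (x : ℕ → M) (c : ℕ → κ) (γ : ℕ → ℝ → Cn n)
    (h : x 0 = p ∧ x m = q ∧ ∀ i < m, ChartCurve e (c i) (γ i) (x i) (x (i + 1))) :
    rdist e ψ t p q ≤ ∑ i ∈ Finset.range m, ENNReal.ofReal (clen ψ t (c i) (γ i)) :=
  iInf_le_of_le m (iInf_le_of_le x (iInf_le_of_le c (iInf_le_of_le γ (iInf_le_of_le h le_rfl))))

theorem exists_chain {p q : M} {a : ℝ≥0∞} (h : rdist e ψ t p q < a) :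
    ∃ (m : ℕ) (x : ℕ → M) (c : ℕ → κ) (γ : ℕ → ℝ → Cn n)
      (_ : x 0 = p ∧ x m = q ∧ ∀ i < m, ChartCurve e (c i) (γ i) (x i) (x (i + 1))),
      ∑ i ∈ Finset.range m, ENNReal.ofReal (clen ψ t (c i) (γ i)) < a := by
  simpa only [rdist, iInf_lt_iff] using h

theorem rdist_self_of_cover (hc : ∀ p : M, ∃ c, p ∈ (e c).source) (p : M) :
    rdist e ψ t p p = 0 := by
  obtain ⟨c, -⟩ := hc p
  have := rdist_le_chain (e := e) (ψ := ψ) (t := t) (p := p) (q := p) 0 (fun _ => p) (fun _ => c)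
    (fun _ _ => 0) ⟨rfl, rfl, fun i hi => absurd hi (Nat.not_lt_zero i)⟩
  simpa using this

theorem lev_neg (f : ℝ × Cn n → ℝ) (u : Cn n) (p : ℝ × Cn n) : lev f (-u) p = lev f u p := by
  have hD : ∀ (v : ℝ × Cn n) (g : ℝ × Cn n → ℝ), D (-v) g = fun q => - D v g q := by
    intro v g
    ext q
    simp only [D, map_neg]
  have hDD : ∀ v : ℝ × Cn n, D (-v) (D (-v) f) p = D v (D v f) p := by
    intro v
    rw [hD v f, hD v]
    have : D v (fun q => - D v f q) p = - D v (D v f) p := by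
      simp only [D]
      rw [show (fun q => - (fderiv ℝ f q) v) = - (fun q => (fderiv ℝ f q) v) from rfl, fderiv_neg]
      rfl
    change - D v (fun q => - D v f q) p = _
    rw [this, neg_neg]
  have h1 : ((0 : ℝ), -u) = -((0 : ℝ), u) := by simp
  have h2 : ((0 : ℝ), J (-u)) = -((0 : ℝ), J u) := by simp [J]
  simp only [lev]
  rw [h1, h2, hDD, hDD]

theorem ChartCurve.reverse {c : κ} {γ : ℝ → Cn n} {p q : M} (h : ChartCurve e c γ p q) :
    ChartCurve e c (fun s => γ (1 - s)) q p where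
  smooth := by
    refine h.smooth.comp (by fun_prop) ?_
    intro s hs
    exact ⟨by linarith [hs.2], by linarith [hs.1]⟩
  mem := fun s hs => h.mem (1 - s) ⟨by linarith [hs.2], by linarith [hs.1]⟩
  left := ⟨h.right.1, by simpa using h.right.2⟩
  right := ⟨h.left.1, by simpa using h.left.2⟩

theorem clen_reverse (c : κ) (γ : ℝ → Cn n) :
    clen ψ t c (fun s => γ (1 - s)) = clen ψ t c γ := by
  unfold clen
  have h := intervalIntegral.integral_comp_sub_left (a := 0) (b := 1)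
    (fun s => √(2 * lev (ψ c) (deriv γ s) (t, γ s))) 1
  simp only [sub_self, sub_zero] at h
  rw [← h]
  refine intervalIntegral.integral_congr fun s _ => ?_
  simp only
  rw [deriv_comp_const_sub, lev_neg]

theorem rdist_comm_le (p q : M) : rdist e ψ t p q ≤ rdist e ψ t q p := by
  refine le_of_forall_gt fun a ha => ?_
  obtain ⟨m, x, c, γ, ⟨h0, hm, hγ⟩, hlt⟩ := exists_chain ha
  refine lt_of_le_of_lt (rdist_le_chain m (fun i => x (m - i)) (fun i => c (m - 1 - i))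
    (fun i s => γ (m - 1 - i) (1 - s)) ⟨?_, ?_, ?_⟩) ?_
  · simpa using hm
  · simpa using h0
  · intro i hi
    have h1 := (hγ (m - 1 - i) (by omega)).reverse
    have e1 : m - 1 - i + 1 = m - i := by omega
    have e2 : m - 1 - i = m - (i + 1) := by omega
    rw [e1] at h1
    rw [← e2]
    exact h1
  · simp only [clen_reverse]
    rw [Finset.sum_range_reflect (fun i => ENNReal.ofReal (clen ψ t (c i) (γ i))) m]
    exact hlt

theorem rdist_comm' (p q : M) : rdist e ψ t p q = rdist e ψ t q p :=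
  le_antisymm (rdist_comm_le p q) (rdist_comm_le q p)

theorem rdist_triangle' (p q r : M) :
    rdist e ψ t p r ≤ rdist e ψ t p q + rdist e ψ t q r := by
  by_cases h1 : rdist e ψ t p q = ⊤
  · simp [h1]
  by_cases h2 : rdist e ψ t q r = ⊤
  · simp [h2]
  refine ENNReal.le_of_forall_pos_le_add fun ε hε _ => ?_
  have hε2 : (0 : ℝ≥0∞) < (ε : ℝ≥0∞) / 2 := ENNReal.half_pos (by exact_mod_cast hε.ne')
  obtain ⟨m, x, c, γ, ⟨h0, hm, hγ⟩, hlt⟩ := exists_chain (ENNReal.lt_add_right h1 hε2.ne')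
  obtain ⟨m', x', c', γ', ⟨h0', hm', hγ'⟩, hlt'⟩ := exists_chain (ENNReal.lt_add_right h2 hε2.ne')
  refine (rdist_le_chain (m + m') (fun i => if i ≤ m then x i else x' (i - m))
    (fun i => if i < m then c i else c' (i - m)) (fun i => if i < m then γ i else γ' (i - m))
    ⟨?_, ?_, ?_⟩).trans ?_
  · simpa using h0
  · rcases Nat.eq_zero_or_pos m' with hm0 | hm0
    · subst hm0
      simp only [add_zero, le_refl, if_true]
      rw [hm, ← h0', hm']
    · rw [if_neg (by omega), Nat.add_sub_cancel_left]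
      exact hm'
  · intro i hi
    by_cases hi1 : i < m
    · rw [if_pos hi1, if_pos hi1, if_pos hi1.le, if_pos (by omega)]
      exact hγ i hi1
    · have h3 := hγ' (i - m) (by omega)
      rw [if_neg hi1, if_neg hi1, if_neg (by omega : ¬ i + 1 ≤ m)]
      have e1 : i + 1 - m = i - m + 1 := by omega
      rw [e1]
      by_cases hi2 : i ≤ m
      · have : i = m := by omega
        subst this
        rw [if_pos le_rfl, hm]
        rw [Nat.sub_self] at h3 ⊢
        rwa [h0'] at h3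
      · rw [if_neg hi2]
        exact h3
  · rw [Finset.sum_range_add]
    have s1 : ∑ i ∈ Finset.range m, ENNReal.ofReal (clen ψ t (if i < m then c i else c' (i - m))
        (if i < m then γ i else γ' (i - m))) =
        ∑ i ∈ Finset.range m, ENNReal.ofReal (clen ψ t (c i) (γ i)) := by
      refine Finset.sum_congr rfl fun i hi => ?_
      rw [if_pos (Finset.mem_range.mp hi), if_pos (Finset.mem_range.mp hi)]
    have s2 : ∑ i ∈ Finset.range m', ENNReal.ofReal (clen ψ t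
        (if m + i < m then c (m + i) else c' (m + i - m))
        (if m + i < m then γ (m + i) else γ' (m + i - m))) =
        ∑ i ∈ Finset.range m', ENNReal.ofReal (clen ψ t (c' i) (γ' i)) := by
      refine Finset.sum_congr rfl fun i hi => ?_
      rw [if_neg (by omega), if_neg (by omega), Nat.add_sub_cancel_left]
    rw [s1, s2]
    calc _ ≤ (rdist e ψ t p q + (ε : ℝ≥0∞) / 2) + (rdist e ψ t q r + (ε : ℝ≥0∞) / 2) :=
          add_le_add hlt.le hlt'.le
      _ = rdist e ψ t p q + rdist e ψ t q r + ((ε : ℝ≥0∞) / 2 + (ε : ℝ≥0∞) / 2) := by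
          ring
      _ = _ := by rw [ENNReal.add_halves]

theorem rdist_le' {c : κ} {γ : ℝ → Cn n} {p q : M} (h : ChartCurve e c γ p q) :
    rdist e ψ t p q ≤ ENNReal.ofReal (clen ψ t c γ) := by
  have := rdist_le_chain (e := e) (ψ := ψ) (t := t) (p := p) (q := q) 1
    (fun i => if i = 0 then p else q) (fun _ => c) (fun _ => γ) ⟨by simp, by simp, ?_⟩
  · simpa using this
  · intro i hi
    have : i = 0 := by omega
    subst this
    simpa using h

/-- segments -/
theorem rdist_ball' {c : κ} {p : M} (hp : p ∈ (e c).source) {r C : ℝ}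
    (hC : 0 ≤ C) (hball : Metric.closedBall (e c p) r ⊆ (e c).target)
    (hb : ∀ z ∈ Metric.closedBall (e c p) r, ∀ u, lev (ψ c) u (t, z) ≤ C * ‖u‖ ^ 2) {q : M}
    (hq : q ∈ (e c).source) (hqr : e c q ∈ Metric.closedBall (e c p) r) :
    rdist e ψ t p q ≤ ENNReal.ofReal (√(2 * C) * ‖e c q - e c p‖) := by
  set v := e c q - e c p with hv
  set γ : ℝ → Cn n := fun s => e c p + s • v with hγ
  have hr : ‖v‖ ≤ r := by
    rw [hv, ← dist_eq_norm]
    exact hqr
  have hmem : ∀ s ∈ Icc (0 : ℝ) 1, γ s ∈ Metric.closedBall (e c p) r := by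
    intro s hs
    rw [Metric.mem_closedBall, dist_eq_norm, hγ]
    simp only [add_sub_cancel_left]
    rw [norm_smul, Real.norm_of_nonneg hs.1]
    calc s * ‖v‖ ≤ 1 * ‖v‖ := mul_le_mul_of_nonneg_right hs.2 (norm_nonneg _)
      _ ≤ r := by rwa [one_mul]
  have hder : ∀ s, deriv γ s = v := by
    intro s
    have : HasDerivAt γ v s := by
      have h1 := ((hasDerivAt_id s).smul_const v).const_add (e c p)
      rw [hγ]
      simpa using h1
    exact this.deriv
  have hcc : ChartCurve e c γ p q := by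
    refine ⟨?_, fun s hs => hball (hmem s hs), ⟨hp, ?_⟩, ⟨hq, ?_⟩⟩
    · apply ContDiff.contDiffOn
      rw [hγ]
      fun_prop
    · simp [hγ]
    · simp [hγ, hv]
  refine (rdist_le' hcc).trans (ENNReal.ofReal_le_ofReal ?_)
  have h1 : ‖∫ s in (0 : ℝ)..1, √(2 * lev (ψ c) (deriv γ s) (t, γ s))‖ ≤
      √(2 * C) * ‖v‖ * |1 - 0| := by
    apply intervalIntegral.norm_integral_le_of_norm_le_const
    intro s hs
    rw [uIoc_of_le zero_le_one] at hs
    rw [Real.norm_of_nonneg (Real.sqrt_nonneg _), hder]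
    have h2 := hb (γ s) (hmem s ⟨hs.1.le, hs.2⟩) v
    calc √(2 * lev (ψ c) v (t, γ s)) ≤ √(2 * (C * ‖v‖ ^ 2)) := Real.sqrt_le_sqrt (by linarith)
      _ = √(2 * C) * ‖v‖ := by
          rw [← mul_assoc, Real.sqrt_mul (by positivity), Real.sqrt_sq (norm_nonneg _)]
  rw [sub_zero, abs_one, mul_one] at h1
  exact (le_abs_self _).trans h1

theorem norm_J (u : Cn n) : ‖J u‖ = ‖u‖ := by
  rw [J, Prod.norm_def, Prod.norm_def, norm_neg, max_comm]

/-- local bound of the metric -/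
theorem lev_bound {f : ℝ × Cn n → ℝ} {U : Set (ℝ × Cn n)} (hU : IsOpen U)
    (hf : ContDiffOn ℝ ∞ f U) {p : ℝ × Cn n} (hp : p ∈ U) :
    ∃ C : ℝ, 0 ≤ C ∧ ∀ᶠ q in 𝓝 p, ∀ u, lev f u q ≤ C * ‖u‖ ^ 2 := by
  have h1 : ContDiffOn ℝ ∞ (fderiv ℝ f) U := hf.fderiv_of_isOpen hU (by simp)
  have h2 : ContinuousOn (fderiv ℝ (fderiv ℝ f)) U := h1.continuousOn_fderiv_of_isOpen hU (by simp)
  have hn : Continuous (fun A : (ℝ × Cn n →L[ℝ] ℝ × Cn n →L[ℝ] ℝ) => ‖A‖) :=
    continuous_norm (E := ℝ × Cn n →L[ℝ] ℝ × Cn n →L[ℝ] ℝ)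
  have h3 : ContinuousAt (fun q => ‖fderiv ℝ (fderiv ℝ f) q‖) p :=
    hn.continuousAt.comp (f := fderiv ℝ (fderiv ℝ f)) (h2.continuousAt (hU.mem_nhds hp))
  have h4 : ∀ᶠ q in 𝓝 p, ‖fderiv ℝ (fderiv ℝ f) q‖ < ‖fderiv ℝ (fderiv ℝ f) p‖ + 1 :=
    h3.eventually_lt_const (by linarith)
  refine ⟨(‖fderiv ℝ (fderiv ℝ f) p‖ + 1) / 2, by positivity, ?_⟩
  filter_upwards [h4, hU.mem_nhds hp] with q hq hqU u
  have hd : DifferentiableAt ℝ (fderiv ℝ f) q :=
    (h1.differentiableOn (by simp)).differentiableAt (hU.mem_nhds hqU)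
  have key : ∀ v : ℝ × Cn n, D v (D v f) q ≤ (‖fderiv ℝ (fderiv ℝ f) p‖ + 1) * ‖v‖ ^ 2 := by
    intro v
    have e1 : D v (D v f) q = fderiv ℝ (fderiv ℝ f) q v v := by
      have h5 : HasFDerivAt (fun z => fderiv ℝ f z v)
          ((ContinuousLinearMap.apply ℝ ℝ v).comp (fderiv ℝ (fderiv ℝ f) q)) q :=
        (ContinuousLinearMap.apply ℝ ℝ v).hasFDerivAt.comp q hd.hasFDerivAt
      have h6 : D v (D v f) q = fderiv ℝ (fun z => fderiv ℝ f z v) q v := rfl
      rw [h6, h5.fderiv]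
      rfl
    rw [e1]
    calc fderiv ℝ (fderiv ℝ f) q v v ≤ ‖fderiv ℝ (fderiv ℝ f) q v v‖ := Real.le_norm_self _
      _ ≤ ‖fderiv ℝ (fderiv ℝ f) q v‖ * ‖v‖ := ContinuousLinearMap.le_opNorm _ _
      _ ≤ ‖fderiv ℝ (fderiv ℝ f) q‖ * ‖v‖ * ‖v‖ :=
          mul_le_mul_of_nonneg_right (ContinuousLinearMap.le_opNorm _ _) (norm_nonneg _)
      _ ≤ (‖fderiv ℝ (fderiv ℝ f) p‖ + 1) * ‖v‖ ^ 2 := by
          rw [mul_assoc, ← pow_two]
          exact mul_le_mul_of_nonneg_right hq.le (by positivity)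
  have n1 : ‖((0 : ℝ), u)‖ = ‖u‖ := by simp [Prod.norm_def]
  have n2 : ‖((0 : ℝ), J u)‖ = ‖u‖ := by
    rw [Prod.norm_def]
    simp [norm_J]
  have k1 := key ((0 : ℝ), u)
  have k2 := key ((0 : ℝ), J u)
  rw [n1] at k1
  rw [n2] at k2
  simp only [lev]
  linarith

end

section

variable {n N : ℕ} {M : Type} [TopologicalSpace M] {κ P F : Type} [Fintype F] {T : ℝ}
  (s : Setup n N M κ P F T)

theorem rdist_self (t : ℝ) (p : M) : rdist s.e s.ψ t p p = 0 :=
  rdist_self_of_cover s.atlas.cover p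

theorem rdist_comm {t : ℝ} (p q : M) : rdist s.e s.ψ t p q = rdist s.e s.ψ t q p :=
  rdist_comm' p q

theorem rdist_triangle {t : ℝ} (p q r : M) :
    rdist s.e s.ψ t p r ≤ rdist s.e s.ψ t p q + rdist s.e s.ψ t q r :=
  rdist_triangle' p q r

theorem rdist_le {t : ℝ} {c : κ} {γ : ℝ → Cn n} {p q : M} (h : ChartCurve s.e c γ p q) :
    rdist s.e s.ψ t p q ≤ ENNReal.ofReal (clen s.ψ t c γ) :=
  rdist_le' h

/-- segments -/
theorem rdist_ball {t : ℝ} (ht : t ∈ Ico 0 T) {c : κ} {p : M} (hp : p ∈ (s.e c).source) {r C : ℝ}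
    (hC : 0 ≤ C) (hball : Metric.closedBall (s.e c p) r ⊆ (s.e c).target)
    (hb : ∀ z ∈ Metric.closedBall (s.e c p) r, ∀ u, lev (s.ψ c) u (t, z) ≤ C * ‖u‖ ^ 2) {q : M}
    (hq : q ∈ (s.e c).source) (hqr : s.e c q ∈ Metric.closedBall (s.e c p) r) :
    rdist s.e s.ψ t p q ≤ ENNReal.ofReal (√(2 * C) * ‖s.e c q - s.e c p‖) :=
  rdist_ball' hp hC hball hb hq hqr

theorem rdist_small {t : ℝ} (ht : t ∈ Ico 0 T) (p : M) {ε : ℝ} (hε : 0 < ε) :
    ∀ᶠ q in 𝓝 p, rdist s.e s.ψ t p q ≤ ENNReal.ofReal ε := by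
  obtain ⟨c, hc⟩ := s.atlas.cover p
  obtain ⟨U, hU, hsub, hψ⟩ := s.krf.smooth c
  have ht1 : s.e c p ∈ (s.e c).target := (s.e c).map_source hc
  obtain ⟨C, hC, hev⟩ := lev_bound hU hψ (p := (t, s.e c p)) (hsub ⟨ht, ht1⟩)
  have h1 : ∀ᶠ z in 𝓝 (s.e c p), ∀ u, lev (s.ψ c) u (t, z) ≤ C * ‖u‖ ^ 2 := by
    have : Tendsto (fun z => (t, z)) (𝓝 (s.e c p)) (𝓝 (t, s.e c p)) :=
      (continuous_const.prodMk continuous_id).tendsto' _ _ rfl
    exact this.eventually hev
  have h2 : ∀ᶠ z in 𝓝 (s.e c p), z ∈ (s.e c).target := (s.e c).open_target.mem_nhds ht1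
  obtain ⟨r, hr, hrs⟩ := Metric.nhds_basis_closedBall.eventually_iff.mp (h1.and h2)
  have h3 : ∀ᶠ q in 𝓝 p, q ∈ (s.e c).source := (s.e c).open_source.mem_nhds hc
  have hcont : Tendsto (s.e c) (𝓝 p) (𝓝 (s.e c p)) := (s.e c).continuousAt hc
  have h4 : ∀ᶠ q in 𝓝 p, s.e c q ∈ Metric.closedBall (s.e c p) r :=
    hcont.eventually (Metric.closedBall_mem_nhds _ hr)
  have h5 : ∀ᶠ q in 𝓝 p, √(2 * C) * ‖s.e c q - s.e c p‖ < ε := by
    have : Tendsto (fun q => √(2 * C) * ‖s.e c q - s.e c p‖) (𝓝 p) (𝓝 0) := by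
      have h6 : Tendsto (fun q => √(2 * C) * ‖s.e c q - s.e c p‖) (𝓝 p)
          (𝓝 (√(2 * C) * ‖s.e c p - s.e c p‖)) :=
        ((hcont.sub_const _).norm).const_mul _
      simpa using h6
    exact this.eventually_lt_const hε
  filter_upwards [h3, h4, h5] with q hq1 hq2 hq3
  exact (rdist_ball s ht hc hC (fun z hz => (hrs hz).2) (fun z hz => (hrs hz).1) hq1 hq2).trans
    (ENNReal.ofReal_le_ofReal hq3.le)

end

end Pool.Agent.KRFS

end

section

/-!
# Selection of a circle on which the square root of a density has a small integral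
-/

open scoped ContDiff ENNReal
open Set Filter Topology MeasureTheory

namespace Pool.Agent.KRFS

section

variable {f : ℂ → ℝ} {p : ℂ} {d A : ℝ}

theorem circle_mem {a : ℝ} (ha : a ∈ Icc (3 / 4 * d) (3 / 2 * d)) (hd : 0 < d) (θ : ℝ) :
    p + a * Complex.exp (θ * Complex.I) ∈ Metric.closedBall p (3 / 2 * d) := by
  rw [Metric.mem_closedBall, dist_eq_norm, add_sub_cancel_left, norm_mul,
    Complex.norm_exp_ofReal_mul_I, mul_one, Complex.norm_real, Real.norm_eq_abs, abs_of_nonneg]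
  · exact ha.2
  · have := ha.1
    linarith

theorem circle_cont (hf : ContinuousOn f (Metric.closedBall p (3 / 2 * d))) {a : ℝ}
    (ha : a ∈ Icc (3 / 4 * d) (3 / 2 * d)) (hd : 0 < d) :
    Continuous fun θ : ℝ => f (p + a * Complex.exp (θ * Complex.I)) :=
  hf.comp_continuous (by fun_prop) fun θ => circle_mem ha hd θ

/-- the average of the density on a circle with a large integral of the square root -/
theorem circle_large (hd : 0 < d) (hA : 0 < A)
    (hf : ContinuousOn f (Metric.closedBall p (3 / 2 * d)))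
    (h0 : ∀ z ∈ Metric.closedBall p (3 / 2 * d), 0 ≤ f z) {a : ℝ}
    (ha : a ∈ Icc (3 / 4 * d) (3 / 2 * d))
    (hL : 4 * √A < ∫ θ in (0 : ℝ)..2 * Real.pi, a * √(f (p + a * Complex.exp (θ * Complex.I)))) :
    16 * A / (3 * Real.pi * d) ≤
      ∫ θ in (0 : ℝ)..2 * Real.pi, a * f (p + a * Complex.exp (θ * Complex.I)) := by
  have hpi := Real.pi_pos
  have ha0 : 0 < a := by
    have := ha.1
    linarith
  have hsA : 0 < √A := Real.sqrt_pos.2 hA
  have hc := circle_cont hf ha hd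
  set l : ℝ := 2 * √A / Real.pi with hl
  have hl0 : 0 < l := by positivity
  have h1 : ∫ θ in (0 : ℝ)..2 * Real.pi, a * √(f (p + a * Complex.exp (θ * Complex.I))) ≤
      ∫ θ in (0 : ℝ)..2 * Real.pi,
        ((a / (2 * l)) * (a * f (p + a * Complex.exp (θ * Complex.I))) + l / 2) := by
    apply intervalIntegral.integral_mono_on (by positivity)
    · exact (Continuous.mul continuous_const (hc.sqrt)).intervalIntegrable _ _
    · exact (((hc.const_mul _).const_mul _).add continuous_const).intervalIntegrable _ _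
    · intro θ _
      have hn := h0 _ (circle_mem (p := p) ha hd θ)
      set y := f (p + a * Complex.exp (θ * Complex.I))
      have hy : √y ^ 2 = y := Real.sq_sqrt hn
      have h2 : (a / (2 * l)) * (a * y) + l / 2 - a * √y = (a * √y - l) ^ 2 / (2 * l) := by
        rw [← hy, Real.sqrt_sq (Real.sqrt_nonneg _)]
        field_simp
        ring
      have h3 : 0 ≤ (a * √y - l) ^ 2 / (2 * l) := by positivity
      linarith
  rw [intervalIntegral.integral_add (((hc.const_mul _).const_mul _).intervalIntegrable _ _)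
    (continuous_const.intervalIntegrable _ _), intervalIntegral.integral_const_mul (a / (2 * l)),
    intervalIntegral.integral_const] at h1
  set I := ∫ θ in (0 : ℝ)..2 * Real.pi, a * f (p + a * Complex.exp (θ * Complex.I)) with hI
  have h4 : (2 * Real.pi - 0) • (l / 2) = 2 * √A := by
    rw [smul_eq_mul, hl]
    field_simp
    ring
  rw [h4] at h1
  have h5 : 2 * √A < a / (2 * l) * I := by linarith
  have h6 : a / (2 * l) ≤ 3 / 2 * d / (2 * l) := by
    apply div_le_div_of_nonneg_right ha.2 (by positivity)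
  have hIpos : 0 < I := by
    by_contra hneg
    push Not at hneg
    have : a / (2 * l) * I ≤ 0 := mul_nonpos_of_nonneg_of_nonpos (by positivity) hneg
    linarith
  have h7 : 2 * √A ≤ 3 / 2 * d / (2 * l) * I :=
    h5.le.trans (mul_le_mul_of_nonneg_right h6 hIpos.le)
  have hsq : √A * √A = A := Real.mul_self_sqrt hA.le
  have h8 : 3 / 2 * d / (2 * l) = 3 * Real.pi * d / (8 * √A) := by
    rw [hl]
    field_simp
    ring
  rw [h8, div_mul_eq_mul_div, le_div_iff₀ (by positivity)] at h7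
  rw [div_le_iff₀ (by positivity)]
  nlinarith [h7, hsq]

theorem circle_inner (hd : 0 < d) (hf : ContinuousOn f (Metric.closedBall p (3 / 2 * d)))
    (h0 : ∀ z ∈ Metric.closedBall p (3 / 2 * d), 0 ≤ f z) {a : ℝ}
    (ha : a ∈ Icc (3 / 4 * d) (3 / 2 * d)) :
    ∫⁻ θ in Ioo (-Real.pi) Real.pi, ENNReal.ofReal (a * f (p + a * Complex.exp (θ * Complex.I))) =
      ENNReal.ofReal
        (∫ θ in (0 : ℝ)..2 * Real.pi, a * f (p + a * Complex.exp (θ * Complex.I))) := by
  have ha0 : 0 < a := by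
    have := ha.1
    linarith
  have hc := (circle_cont hf ha hd).const_mul a
  have hper : Function.Periodic
      (fun θ : ℝ => a * f (p + a * Complex.exp (θ * Complex.I))) (2 * Real.pi) := by
    intro θ
    have : Complex.exp (((θ + 2 * Real.pi : ℝ) : ℂ) * Complex.I) =
        Complex.exp (θ * Complex.I) := by
      push_cast
      rw [add_mul, Complex.exp_add, Complex.exp_two_pi_mul_I, mul_one]
    simp only [this]
  have h1 := hper.intervalIntegral_add_eq 0 (-Real.pi)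
  rw [zero_add, show -Real.pi + 2 * Real.pi = Real.pi by ring] at h1
  rw [h1, intervalIntegral.integral_of_le (by linarith [Real.pi_pos]),
    integral_Ioc_eq_integral_Ioo, ofReal_integral_eq_lintegral_ofReal]
  · exact (hc.integrableOn_Icc (a := -Real.pi) (b := Real.pi)).mono_set Ioo_subset_Icc_self
  · exact Eventually.of_forall fun θ => mul_nonneg ha0.le (h0 _ (circle_mem ha hd θ))

/-- **Selection of a circle.** -/
theorem exists_circle (hd : 0 < d) (hA : 0 < A)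
    (hf : ContinuousOn f (Metric.closedBall p (3 / 2 * d)))
    (h0 : ∀ z ∈ Metric.closedBall p (3 / 2 * d), 0 ≤ f z)
    (hi : ∫ z in Metric.closedBall p (3 / 2 * d), f z ≤ A) :
    ∃ a ∈ Icc (3 / 4 * d) (3 / 2 * d),
      ∫ θ in (0 : ℝ)..2 * Real.pi, a * √(f (p + a * Complex.exp (θ * Complex.I))) ≤ 4 * √A := by
  by_contra hcon
  push Not at hcon
  have hpi := Real.pi_pos
  set R := 3 / 2 * d with hR
  set S : Set (ℝ × ℝ) := Icc (3 / 4 * d) R ×ˢ Ioo (-Real.pi) Real.pi with hS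
  set F : ℂ → ℝ≥0∞ := (Metric.closedBall p R).indicator fun z => ENNReal.ofReal (f z) with hF
  have hSm : MeasurableSet S := measurableSet_Icc.prod measurableSet_Ioo
  -- total mass
  have h1 : ∫⁻ z, F z ≤ ENNReal.ofReal A := by
    rw [hF, lintegral_indicator Metric.isClosed_closedBall.measurableSet,
      ← ofReal_integral_eq_lintegral_ofReal]
    · exact ENNReal.ofReal_le_ofReal hi
    · exact hf.integrableOn_compact (isCompact_closedBall p R)
    · exact (ae_restrict_iff' Metric.isClosed_closedBall.measurableSet).2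
        (Eventually.of_forall h0)
  have h2 : ∫⁻ z, F z = ∫⁻ z, F (p + z) := (lintegral_add_left_eq_self F p).symm
  have h3 : ∫⁻ q in S, ENNReal.ofReal (q.1 * f (p + q.1 * Complex.exp (q.2 * Complex.I))) ≤
      ∫⁻ z, F (p + z) := by
    rw [← Complex.lintegral_comp_polarCoord_symm fun z => F (p + z)]
    have hsub : S ⊆ polarCoord.target := by
      rintro ⟨a, θ⟩ ⟨h, h'⟩
      rw [polarCoord_target]
      exact ⟨lt_of_lt_of_le (by positivity) h.1, h'⟩
    refine le_trans (le_of_eq ?_) (lintegral_mono_set hsub)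
    refine setLIntegral_congr_fun hSm ?_
    rintro ⟨a, θ⟩ ⟨h, -⟩
    have ha0 : 0 ≤ a := le_trans (by positivity) h.1
    have hmem := circle_mem (p := p) h hd θ
    have e1 : (Complex.polarCoord.symm (a, θ)) = a * Complex.exp (θ * Complex.I) := by
      rw [Complex.polarCoord_symm_apply, Complex.exp_mul_I, Complex.ofReal_cos,
        Complex.ofReal_sin]
    simp only
    rw [e1, hF, indicator_of_mem hmem, smul_eq_mul, ENNReal.ofReal_mul ha0]
  have h4 : ∫⁻ q in S, ENNReal.ofReal (q.1 * f (p + q.1 * Complex.exp (q.2 * Complex.I))) =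
      ∫⁻ a in Icc (3 / 4 * d) R, ∫⁻ θ in Ioo (-Real.pi) Real.pi,
        ENNReal.ofReal (a * f (p + a * Complex.exp (θ * Complex.I))) := by
    rw [hS, Measure.volume_eq_prod, ← Measure.prod_restrict, lintegral_prod]
    rw [Measure.prod_restrict]
    refine ContinuousOn.aemeasurable ?_ hSm
    refine ENNReal.continuous_ofReal.comp_continuousOn ?_
    refine continuousOn_fst.mul (hf.comp (by fun_prop) ?_)
    rintro ⟨a, θ⟩ ⟨h, -⟩
    exact circle_mem h hd θ
  have h5 : ∫⁻ _ in Icc (3 / 4 * d) R, ENNReal.ofReal (16 * A / (3 * Real.pi * d)) ≤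
      ∫⁻ a in Icc (3 / 4 * d) R, ∫⁻ θ in Ioo (-Real.pi) Real.pi,
        ENNReal.ofReal (a * f (p + a * Complex.exp (θ * Complex.I))) := by
    refine setLIntegral_mono' measurableSet_Icc fun a ha => ?_
    rw [circle_inner hd hf h0 ha]
    exact ENNReal.ofReal_le_ofReal (circle_large hd hA hf h0 ha (hcon a ha))
  have h6 : ∫⁻ _ in Icc (3 / 4 * d) R, ENNReal.ofReal (16 * A / (3 * Real.pi * d)) =
      ENNReal.ofReal (4 * A / Real.pi) := by
    rw [setLIntegral_const, Real.volume_Icc, ← ENNReal.ofReal_mul (by positivity)]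
    congr 1
    rw [hR]
    field_simp
    ring
  have h7 : ENNReal.ofReal (4 * A / Real.pi) ≤ ENNReal.ofReal A := by
    rw [← h6]
    exact h5.trans (h4.symm.le.trans (h3.trans (h2.symm.le.trans h1)))
  rw [ENNReal.ofReal_le_ofReal_iff hA.le, div_le_iff₀ hpi] at h7
  nlinarith [Real.pi_lt_d2, h7]

end

end Pool.Agent.KRFS

end

section

/-!
# The distance of two points of a complex line, by the areas of discs
-/

open scoped ContDiff ENNReal
open Set Filter Topology MeasureTheory Pool.Agent.ToricKRF Pool.Agent.ToricKRF.G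

namespace Pool.Agent.KRFS

/-- two circles with real centres meet -/
theorem circles_meet {x y a b : ℝ} (hne : x ≠ y) (ha : 0 ≤ a) (hb : 0 ≤ b)
    (h1 : |a - b| ≤ |x - y|) (h2 : |x - y| ≤ a + b) :
    ∃ z : ℂ, ‖z - x‖ = a ∧ ‖z - y‖ = b := by
  have hD0 : (y - x) ≠ 0 := sub_ne_zero.2 hne.symm
  set D := y - x with hD
  have hD2 : |x - y| ^ 2 = D ^ 2 := by rw [sq_abs, hD]; ring
  have k1 : (a - b) ^ 2 ≤ D ^ 2 := by
    rw [← hD2, ← sq_abs (a - b)]
    exact pow_le_pow_left₀ (abs_nonneg _) h1 2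
  have k2 : D ^ 2 ≤ (a + b) ^ 2 := by
    rw [← hD2]
    exact pow_le_pow_left₀ (abs_nonneg _) h2 2
  set u := (D ^ 2 + a ^ 2 - b ^ 2) / (2 * D) with hu
  have hu2 : u ^ 2 ≤ a ^ 2 := by
    rw [hu, div_pow, div_le_iff₀ (by positivity)]
    nlinarith [mul_nonneg (sub_nonneg.2 k1) (sub_nonneg.2 k2)]
  refine ⟨⟨x + u, √(a ^ 2 - u ^ 2)⟩, ?_, ?_⟩
  · rw [Complex.norm_def, Complex.normSq_apply]
    simp only [Complex.sub_re, Complex.sub_im, Complex.ofReal_re, Complex.ofReal_im]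
    rw [show (x + u - x) * (x + u - x) + (√(a ^ 2 - u ^ 2) - 0) * (√(a ^ 2 - u ^ 2) - 0) = a ^ 2 by
      rw [sub_zero, Real.mul_self_sqrt (by linarith)]; ring]
    exact Real.sqrt_sq ha
  · rw [Complex.norm_def, Complex.normSq_apply]
    simp only [Complex.sub_re, Complex.sub_im, Complex.ofReal_re, Complex.ofReal_im]
    have e1 : x + u - y = u - D := by rw [hD]; ring
    have e2 : u * (2 * D) = D ^ 2 + a ^ 2 - b ^ 2 := by
      rw [hu]
      field_simp
    rw [show (x + u - y) * (x + u - y) + (√(a ^ 2 - u ^ 2) - 0) * (√(a ^ 2 - u ^ 2) - 0) = b ^ 2 by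
      rw [sub_zero, Real.mul_self_sqrt (by linarith), e1]; nlinarith [e2]]
    exact Real.sqrt_sq hb

theorem exists_angle {c ζ : ℂ} {a : ℝ} (h : ‖ζ - c‖ = a) :
    ∃ θ ∈ Icc (0 : ℝ) (2 * Real.pi), ζ = c + a * Complex.exp (θ * Complex.I) := by
  have hpi := Real.pi_pos
  have h1 : (‖ζ - c‖ : ℂ) * Complex.exp (Complex.arg (ζ - c) * Complex.I) = ζ - c :=
    Complex.norm_mul_exp_arg_mul_I _
  rw [h] at h1
  by_cases h0 : 0 ≤ Complex.arg (ζ - c)
  · exact ⟨_, ⟨h0, (Complex.arg_le_pi _).trans (by linarith)⟩, by rw [h1]; ring⟩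
  · push Not at h0
    refine ⟨Complex.arg (ζ - c) + 2 * Real.pi, ⟨?_, by linarith⟩, ?_⟩
    · have := Complex.neg_pi_lt_arg (ζ - c)
      linarith
    · push_cast
      rw [add_mul, Complex.exp_add, Complex.exp_two_pi_mul_I, mul_one, h1]
      ring

variable {M : Type} [TopologicalSpace M] {κ : Type} {n : ℕ}
  {e : κ → OpenPartialHomeomorph M (Cn n)} {ψ : κ → ℝ × Cn n → ℝ} {t : ℝ} {c : κ}
  {U : Set (ℝ × Cn n)}

/-- the point with the parameter `ζ` of a complex line -/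
def cln (z0 v : Cn n) (ζ : ℂ) : Cn n := z0 + ζ.re • v + ζ.im • J v

theorem cln_continuous (z0 v : Cn n) : Continuous (cln z0 v) := by
  unfold cln
  fun_prop

theorem lev_line {f : ℝ × Cn n → ℝ} (hU : IsOpen U) (hf : ContDiffOn ℝ ∞ f U) {p : ℝ × Cn n}
    (hp : p ∈ U) (v : Cn n) (a b : ℝ) :
    lev f (a • v + b • J v) p = (a ^ 2 + b ^ 2) * lev f v p := by
  have hf2 : ContDiffAt ℝ 2 f p := (hf.contDiffAt (hU.mem_nhds hp)).of_le two_le_infty
  have e1 : ((0 : ℝ), a • v + b • J v) = a • ((0 : ℝ), v) + b • ((0 : ℝ), J v) := by simp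
  have e2 : ((0 : ℝ), J (a • v + b • J v)) = a • ((0 : ℝ), J v) + (-b) • ((0 : ℝ), v) := by
    rw [J_add, J_smul, J_smul, J_J]
    simp
  simp only [lev]
  rw [D_D_eq hf2, D_D_eq hf2, D_D_eq hf2, D_D_eq hf2, e1, e2]
  simp only [map_add, map_smul, add_apply, smul_apply, smul_eq_mul]
  ring

/-- an arc of a circle of a complex line -/
theorem rdist_arc (hU : IsOpen U) (hψ : ContDiffOn ℝ ∞ (ψ c) U)
    (hsub : ∀ z ∈ (e c).target, (t, z) ∈ U) {z0 v : Cn n} {C : ℂ} {a : ℝ} (ha : 0 < a)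
    (hC : ∀ θ : ℝ, cln z0 v (C + a * Complex.exp (θ * Complex.I)) ∈ (e c).target)
    {θ₀ θ₁ : ℝ} (h0 : 0 ≤ θ₀) (h01 : θ₀ ≤ θ₁) (h1 : θ₁ ≤ 2 * Real.pi) :
    rdist e ψ t ((e c).symm (cln z0 v (C + a * Complex.exp (θ₀ * Complex.I))))
      ((e c).symm (cln z0 v (C + a * Complex.exp (θ₁ * Complex.I)))) ≤
      ENNReal.ofReal (∫ θ in (0 : ℝ)..2 * Real.pi,
        a * √(2 * lev (ψ c) v (t, cln z0 v (C + a * Complex.exp (θ * Complex.I))))) := by
  set L := θ₁ - θ₀ with hL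
  have hL0 : 0 ≤ L := sub_nonneg.2 h01
  set ζ : ℝ → ℂ := fun s => C + a * Complex.exp (((L * s + θ₀ : ℝ) : ℂ) * Complex.I) with hζ
  set γ : ℝ → Cn n := fun s => cln z0 v (ζ s) with hγ
  set g : ℝ → ℝ := fun θ =>
    a * √(2 * lev (ψ c) v (t, cln z0 v (C + a * Complex.exp (θ * Complex.I)))) with hg
  have hζd : ∀ s, HasDerivAt ζ (a * (Complex.exp (((L * s + θ₀ : ℝ) : ℂ) * Complex.I) *
      (L * Complex.I))) s := by
    intro s
    have k1 : HasDerivAt (fun s : ℝ => L * s + θ₀) L s := by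
      simpa using ((hasDerivAt_id s).const_mul L).add_const θ₀
    have k2 : HasDerivAt (fun s : ℝ => (((L * s + θ₀ : ℝ) : ℂ) * Complex.I)) (L * Complex.I) s :=
      k1.ofReal_comp.mul_const Complex.I
    exact (k2.cexp.const_mul (a : ℂ)).const_add C
  have hγd : ∀ s, HasDerivAt γ
      ((a * (Complex.exp (((L * s + θ₀ : ℝ) : ℂ) * Complex.I) * (L * Complex.I)) : ℂ).re • v +
        (a * (Complex.exp (((L * s + θ₀ : ℝ) : ℂ) * Complex.I) * (L * Complex.I)) : ℂ).im • J v)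
      s := by
    intro s
    have k1 := Complex.reCLM.hasFDerivAt.comp_hasDerivAt s (hζd s)
    have k2 := Complex.imCLM.hasFDerivAt.comp_hasDerivAt s (hζd s)
    exact ((k1.smul_const v).const_add z0).add (k2.smul_const (J v))
  have hmemU : ∀ θ : ℝ, (t, cln z0 v (C + a * Complex.exp (θ * Complex.I))) ∈ U := fun θ =>
    hsub _ (hC θ)
  have hgc : Continuous g := by
    refine continuous_const.mul (Real.continuous_sqrt.comp (continuous_const.mul ?_))
    have h2 : ContinuousOn (lev (ψ c) v) U := by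
      unfold lev
      exact (((contDiffOn_D hU (contDiffOn_D hU hψ _) _).continuousOn).add
        ((contDiffOn_D hU (contDiffOn_D hU hψ _) _).continuousOn)).div_const 4
    refine h2.comp_continuous (continuous_const.prodMk ((cln_continuous z0 v).comp ?_)) hmemU
    fun_prop
  have hcc : ChartCurve e c γ
      ((e c).symm (cln z0 v (C + a * Complex.exp (θ₀ * Complex.I))))
      ((e c).symm (cln z0 v (C + a * Complex.exp (θ₁ * Complex.I)))) := by
    refine ⟨?_, fun s _ => hC _, ⟨(e c).map_target (hC θ₀), ?_⟩,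
      ⟨(e c).map_target (hC θ₁), ?_⟩⟩
    · apply ContDiff.contDiffOn
      rw [hγ, hζ]
      unfold cln
      have k1 : ContDiff ℝ 1 fun s : ℝ => C + a * Complex.exp (((L * s + θ₀ : ℝ) : ℂ) * Complex.I) := by
        have k3 : ContDiff ℝ 1 fun s : ℝ => L * s + θ₀ := by fun_prop
        have k2 : ContDiff ℝ 1 fun s : ℝ => (((L * s + θ₀ : ℝ) : ℂ) * Complex.I) :=
          (Complex.ofRealCLM.contDiff.comp k3).mul contDiff_const
        exact contDiff_const.add (contDiff_const.mul k2.cexp)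
      exact (contDiff_const.add ((Complex.reCLM.contDiff.comp k1).smul contDiff_const)).add
        ((Complex.imCLM.contDiff.comp k1).smul contDiff_const)
    · rw [(e c).right_inv (hC θ₀)]
      simp [hγ, hζ]
    · rw [(e c).right_inv (hC θ₁)]
      simp [hγ, hζ, hL]
  refine (rdist_le' hcc).trans (ENNReal.ofReal_le_ofReal ?_)
  have e1 : clen ψ t c γ = ∫ s in (0 : ℝ)..1, L * g (L * s + θ₀) := by
    unfold clen
    refine intervalIntegral.integral_congr fun s _ => ?_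
    rw [(hγd s).deriv, lev_line hU hψ (hmemU _)]
    set w : ℂ := a * (Complex.exp (((L * s + θ₀ : ℝ) : ℂ) * Complex.I) * (L * Complex.I)) with hw
    have e2 : w.re ^ 2 + w.im ^ 2 = (L * a) ^ 2 := by
      have : ‖w‖ = L * a := by
        rw [hw, norm_mul, norm_mul, norm_mul, Complex.norm_exp_ofReal_mul_I, Complex.norm_I,
          Complex.norm_real, Complex.norm_real, Real.norm_of_nonneg ha.le,
          Real.norm_of_nonneg hL0]
        ring
      rw [← this, Complex.sq_norm, Complex.normSq_apply]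
      ring
    rw [e2, hg]
    simp only
    rw [show (2 : ℝ) * ((L * a) ^ 2 * lev (ψ c) v (t, γ s)) =
      (L * a) ^ 2 * (2 * lev (ψ c) v (t, γ s)) by ring, Real.sqrt_mul (by positivity),
      Real.sqrt_sq (by positivity), mul_assoc]
  rw [e1, intervalIntegral.integral_const_mul]
  have e3 := intervalIntegral.mul_integral_comp_mul_add (a := 0) (b := 1) (f := g) L θ₀
  rw [e3]
  have e4 : L * 0 + θ₀ = θ₀ := by ring
  have e5 : L * 1 + θ₀ = θ₁ := by rw [hL]; ring
  rw [e4, e5]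
  refine intervalIntegral.integral_mono_interval h0 h01 h1 ?_ (hgc.intervalIntegrable _ _)
  exact Eventually.of_forall fun θ => mul_nonneg ha.le (Real.sqrt_nonneg _)

theorem rdist_circle (hU : IsOpen U) (hψ : ContDiffOn ℝ ∞ (ψ c) U)
    (hsub : ∀ z ∈ (e c).target, (t, z) ∈ U) {z0 v : Cn n} {C : ℂ} {a : ℝ} (ha : 0 < a)
    (hC : ∀ θ : ℝ, cln z0 v (C + a * Complex.exp (θ * Complex.I)) ∈ (e c).target)
    {ζ₀ ζ₁ : ℂ} (h0 : ‖ζ₀ - C‖ = a) (h1 : ‖ζ₁ - C‖ = a) :
    rdist e ψ t ((e c).symm (cln z0 v ζ₀)) ((e c).symm (cln z0 v ζ₁)) ≤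
      ENNReal.ofReal (∫ θ in (0 : ℝ)..2 * Real.pi,
        a * √(2 * lev (ψ c) v (t, cln z0 v (C + a * Complex.exp (θ * Complex.I))))) := by
  obtain ⟨θ₀, hθ₀, e0⟩ := exists_angle h0
  obtain ⟨θ₁, hθ₁, e1⟩ := exists_angle h1
  rw [e0, e1]
  rcases le_total θ₀ θ₁ with h | h
  · exact rdist_arc hU hψ hsub ha hC hθ₀.1 h hθ₁.2
  · rw [rdist_comm']
    exact rdist_arc hU hψ hsub ha hC hθ₁.1 h hθ₀.2

/-- nearby points in a chart -/
theorem rdist_near (hU : IsOpen U) (hψ : ContDiffOn ℝ ∞ (ψ c) U)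
    (hsub : ∀ z ∈ (e c).target, (t, z) ∈ U) {z : Cn n} (hz : z ∈ (e c).target) {ε : ℝ}
    (hε : 0 < ε) :
    ∀ᶠ w in 𝓝 z, rdist e ψ t ((e c).symm z) ((e c).symm w) ≤ ENNReal.ofReal ε := by
  obtain ⟨C, hC, hev⟩ := lev_bound hU hψ (p := (t, z)) (hsub _ hz)
  have h1 : ∀ᶠ w in 𝓝 z, ∀ u, lev (ψ c) u (t, w) ≤ C * ‖u‖ ^ 2 := by
    have : Tendsto (fun z => (t, z)) (𝓝 z) (𝓝 (t, z)) :=
      (continuous_const.prodMk continuous_id).tendsto' _ _ rfl
    exact this.eventually hev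
  have h2 : ∀ᶠ w in 𝓝 z, w ∈ (e c).target := (e c).open_target.mem_nhds hz
  obtain ⟨r, hr, hrs⟩ := Metric.nhds_basis_closedBall.eventually_iff.mp (h1.and h2)
  have h4 : ∀ᶠ w in 𝓝 z, w ∈ Metric.closedBall z r := Metric.closedBall_mem_nhds _ hr
  have h5 : ∀ᶠ w in 𝓝 z, √(2 * C) * ‖w - z‖ < ε := by
    have h6 : Tendsto (fun w => √(2 * C) * ‖w - z‖) (𝓝 z) (𝓝 (√(2 * C) * ‖z - z‖)) :=
      (((continuous_id.sub continuous_const).norm).const_mul _).tendsto _
    rw [sub_self, norm_zero, mul_zero] at h6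
    exact h6.eventually_lt_const hε
  filter_upwards [h2, h4, h5] with w hw1 hw2 hw3
  have e1 : e c ((e c).symm z) = z := (e c).right_inv hz
  have e2 : e c ((e c).symm w) = w := (e c).right_inv hw1
  have := rdist_ball' (e := e) (ψ := ψ) (t := t) (p := (e c).symm z) (q := (e c).symm w)
    ((e c).map_target hz) hC (r := r) (by rw [e1]; exact fun y hy => (hrs hy).2)
    (by rw [e1]; exact fun y hy => (hrs hy).1) ((e c).map_target hw1) (by rw [e1, e2]; exact hw2)
  rw [e1, e2] at this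
  exact this.trans (ENNReal.ofReal_le_ofReal hw3.le)

/-- circles shrinking to a point of the real line -/
theorem rdist_end (hU : IsOpen U) (hψ : ContDiffOn ℝ ∞ (ψ c) U)
    (hsub : ∀ z ∈ (e c).target, (t, z) ∈ U)
    (hnn : ∀ z ∈ (e c).target, ∀ u, 0 ≤ lev (ψ c) u (t, z)) {z0 v : Cn n} {d : ℝ} (hd : 0 < d)
    (hdisc : ∀ ζ : ℂ, ‖ζ‖ ≤ 8 * d → cln z0 v ζ ∈ (e c).target) {A : ℕ → ℝ} (hA : ∀ k, 0 < A k)
    (hsum : Summable fun k => √(A k))
    (harea : ∀ k, ∀ p : ℂ, ‖p‖ ≤ 4 * d →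
      ∫ ζ in Metric.closedBall p (3 / 2 * d / 2 ^ k), lev (ψ c) v (t, cln z0 v ζ) ≤ A k)
    {x : ℝ} (hx0 : 0 ≤ x) (hxd : x ≤ d) :
    ∃ a ∈ Icc (3 / 4 * d) (3 / 2 * d), ∀ ζ : ℂ, ‖ζ - ((x + 9 / 4 * d : ℝ) : ℂ)‖ = a →
      rdist e ψ t ((e c).symm (cln z0 v ζ)) ((e c).symm (cln z0 v (x : ℂ))) ≤
        ENNReal.ofReal (4 * √2 * ∑' k, √(A k)) := by
  have hdk : ∀ k : ℕ, 0 < d / 2 ^ k := fun k => by positivity
  have hdk1 : ∀ k : ℕ, d / 2 ^ k ≤ d := fun k =>
    div_le_self hd.le (one_le_pow₀ (by norm_num))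
  have hdkS : ∀ k : ℕ, d / 2 ^ (k + 1) = d / 2 ^ k / 2 := fun k => by
    rw [pow_succ, div_div]
  have hpk : ∀ k : ℕ, ‖((x + 9 / 4 * (d / 2 ^ k) : ℝ) : ℂ)‖ ≤ 4 * d := by
    intro k
    rw [Complex.norm_real, Real.norm_of_nonneg (by have := hdk k; positivity)]
    linarith [hdk1 k]
  have hin : ∀ (k : ℕ) (ζ : ℂ), ζ ∈ Metric.closedBall ((x + 9 / 4 * (d / 2 ^ k) : ℝ) : ℂ)
      (3 / 2 * (d / 2 ^ k)) → cln z0 v ζ ∈ (e c).target := by
    intro k ζ hζ
    apply hdisc
    rw [Metric.mem_closedBall, dist_eq_norm] at hζ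
    have k1 : ζ = (ζ - ((x + 9 / 4 * (d / 2 ^ k) : ℝ) : ℂ)) + ((x + 9 / 4 * (d / 2 ^ k) : ℝ) : ℂ) := by
      ring
    rw [k1]
    refine (norm_add_le _ _).trans ?_
    linarith [hdk1 k, hpk k]
  have hcirc : ∀ k : ℕ, ∃ a ∈ Icc (3 / 4 * (d / 2 ^ k)) (3 / 2 * (d / 2 ^ k)),
      ∫ θ in (0 : ℝ)..2 * Real.pi, a * √(2 * lev (ψ c) v (t, cln z0 v
        (((x + 9 / 4 * (d / 2 ^ k) : ℝ) : ℂ) + a * Complex.exp (θ * Complex.I)))) ≤
        4 * √(2 * A k) := by
    intro k
    refine exists_circle (f := fun ζ => 2 * lev (ψ c) v (t, cln z0 v ζ)) (hdk k)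
      (by linarith [hA k]) ?_ ?_ ?_
    · refine continuousOn_const.mul ?_
      have h2 : ContinuousOn (lev (ψ c) v) U := by
        unfold lev
        exact (((contDiffOn_D hU (contDiffOn_D hU hψ _) _).continuousOn).add
          ((contDiffOn_D hU (contDiffOn_D hU hψ _) _).continuousOn)).div_const 4
      exact h2.comp (continuous_const.prodMk (cln_continuous z0 v)).continuousOn
        fun ζ hζ => hsub _ (hin k ζ hζ)
    · intro ζ hζ
      have := hnn _ (hin k ζ hζ) v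
      positivity
    · rw [integral_const_mul]
      have := harea k _ (hpk k)
      rw [mul_div_assoc] at this
      linarith
  choose a ha hLa using hcirc
  have ha0 : ∀ k, 0 < a k := fun k => lt_of_lt_of_le (by have := hdk k; positivity) (ha k).1
  have hmeet : ∀ k : ℕ, ∃ z : ℂ, ‖z - ((x + 9 / 4 * (d / 2 ^ k) : ℝ) : ℂ)‖ = a k ∧
      ‖z - ((x + 9 / 4 * (d / 2 ^ (k + 1)) : ℝ) : ℂ)‖ = a (k + 1) := by
    intro k
    have k0 := hdk k
    have k1 := ha k
    have k2 := ha (k + 1)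
    rw [hdkS] at k2 ⊢
    have k3 : |x + 9 / 4 * (d / 2 ^ k) - (x + 9 / 4 * (d / 2 ^ k / 2))| = 9 / 8 * (d / 2 ^ k) := by
      rw [show x + 9 / 4 * (d / 2 ^ k) - (x + 9 / 4 * (d / 2 ^ k / 2)) = 9 / 8 * (d / 2 ^ k) by
        ring]
      exact abs_of_pos (by positivity)
    refine circles_meet ?_ (ha0 k).le (ha0 (k + 1)).le ?_ ?_
    · intro h
      rw [h, sub_self, abs_zero] at k3
      linarith
    · rw [k3, abs_le]
      constructor <;> linarith [k1.1, k1.2, k2.1, k2.2]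
    · rw [k3]
      linarith [k1.1, k1.2, k2.1, k2.2]
  choose P hP1 hP2 using hmeet
  -- two points of the same circle
  have hsame : ∀ (k : ℕ) (ζ ζ' : ℂ), ‖ζ - ((x + 9 / 4 * (d / 2 ^ k) : ℝ) : ℂ)‖ = a k →
      ‖ζ' - ((x + 9 / 4 * (d / 2 ^ k) : ℝ) : ℂ)‖ = a k →
      rdist e ψ t ((e c).symm (cln z0 v ζ)) ((e c).symm (cln z0 v ζ')) ≤
        ENNReal.ofReal (4 * √2 * √(A k)) := by
    intro k ζ ζ' h h'
    refine (rdist_circle hU hψ hsub (ha0 k) (fun θ => hin k _ ?_) h h').trans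
      (ENNReal.ofReal_le_ofReal ((hLa k).trans (le_of_eq ?_)))
    · exact circle_mem (ha k) (hdk k) θ
    · rw [Real.sqrt_mul (by norm_num)]
      ring
  refine ⟨a 0, ?_, ?_⟩
  · have := ha 0
    rw [pow_zero, div_one] at this
    exact this
  intro ζ hζ
  have hζ0 : ‖ζ - ((x + 9 / 4 * (d / 2 ^ 0) : ℝ) : ℂ)‖ = a 0 := by
    rw [pow_zero, div_one]
    exact hζ
  have hind : ∀ K : ℕ, rdist e ψ t ((e c).symm (cln z0 v ζ)) ((e c).symm (cln z0 v (P K))) ≤
      ∑ k ∈ Finset.range (K + 1), ENNReal.ofReal (4 * √2 * √(A k)) := by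
    intro K
    induction K with
    | zero =>
      rw [zero_add, Finset.sum_range_one]
      exact hsame 0 _ _ hζ0 (hP1 0)
    | succ K ih =>
      rw [Finset.sum_range_succ]
      exact (rdist_triangle' _ ((e c).symm (cln z0 v (P K))) _).trans
        (add_le_add ih (hsame (K + 1) _ _ (hP2 K) (hP1 (K + 1))))
  have hS : ∀ K : ℕ, rdist e ψ t ((e c).symm (cln z0 v ζ)) ((e c).symm (cln z0 v (P K))) ≤
      ENNReal.ofReal (4 * √2 * ∑' k, √(A k)) := by
    intro K
    refine (hind K).trans ?_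
    rw [← ENNReal.ofReal_sum_of_nonneg fun k _ => by positivity]
    apply ENNReal.ofReal_le_ofReal
    rw [← Finset.mul_sum]
    exact mul_le_mul_of_nonneg_left (hsum.sum_le_tsum _ fun k _ => Real.sqrt_nonneg _)
      (by positivity)
  have hlim : Tendsto P atTop (𝓝 (x : ℂ)) := by
    rw [tendsto_iff_norm_sub_tendsto_zero]
    have k1 : Tendsto (fun k : ℕ => 15 / 4 * (d / 2 ^ k)) atTop (𝓝 0) := by
      have k2 : Tendsto (fun k : ℕ => (1 / 2 : ℝ) ^ k) atTop (𝓝 0) :=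
        tendsto_pow_atTop_nhds_zero_of_lt_one (by norm_num) (by norm_num)
      have k3 := k2.const_mul (15 / 4 * d)
      rw [mul_zero] at k3
      refine k3.congr fun k => ?_
      rw [one_div, inv_pow]
      ring
    refine squeeze_zero (fun k => norm_nonneg _) (fun k => ?_) k1
    have k2 : P k - (x : ℂ) = (P k - ((x + 9 / 4 * (d / 2 ^ k) : ℝ) : ℂ)) +
        ((9 / 4 * (d / 2 ^ k) : ℝ) : ℂ) := by
      push_cast
      ring
    have k3 := hdk k
    rw [k2]
    refine (norm_add_le _ _).trans ?_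
    rw [hP1 k, Complex.norm_real, Real.norm_of_nonneg (by positivity)]
    linarith [(ha k).2]
  have hx8 : cln z0 v (x : ℂ) ∈ (e c).target := by
    apply hdisc
    rw [Complex.norm_real, Real.norm_of_nonneg hx0]
    linarith
  refine ENNReal.le_of_forall_pos_le_add fun ε hε _ => ?_
  have hε' : (0 : ℝ) < ε := by exact_mod_cast hε
  have h1 := rdist_near hU hψ hsub hx8 hε'
  have h2 : Tendsto (fun k => cln z0 v (P k)) atTop (𝓝 (cln z0 v (x : ℂ))) :=
    ((cln_continuous z0 v).tendsto _).comp hlim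
  obtain ⟨K, hK⟩ := (h2.eventually h1).exists
  refine (rdist_triangle' _ ((e c).symm (cln z0 v (P K))) _).trans (add_le_add (hS K) ?_)
  rw [rdist_comm']
  refine hK.trans (le_of_eq ?_)
  rw [ENNReal.ofReal_coe_nnreal]

/-- **The distance of two points of a complex line, by the areas of discs.** -/
theorem rdist_line (hU : IsOpen U) (hψ : ContDiffOn ℝ ∞ (ψ c) U)
    (hsub : ∀ z ∈ (e c).target, (t, z) ∈ U)
    (hnn : ∀ z ∈ (e c).target, ∀ u, 0 ≤ lev (ψ c) u (t, z)) {z0 v : Cn n} {d : ℝ} (hd : 0 < d)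
    (hdisc : ∀ ζ : ℂ, ‖ζ‖ ≤ 8 * d → z0 + ζ.re • v + ζ.im • J v ∈ (e c).target) {A : ℕ → ℝ}
    (hA : ∀ k, 0 < A k) (hsum : Summable fun k => √(A k))
    (harea : ∀ k, ∀ p : ℂ, ‖p‖ ≤ 4 * d →
      ∫ ζ in Metric.closedBall p (3 / 2 * d / 2 ^ k),
        lev (ψ c) v (t, z0 + ζ.re • v + ζ.im • J v) ≤ A k) :
    rdist e ψ t ((e c).symm z0) ((e c).symm (z0 + d • v)) ≤
      ENNReal.ofReal (16 * ∑' k, √(A k)) := by
  obtain ⟨a, ha, Ha⟩ := rdist_end hU hψ hsub hnn hd hdisc hA hsum harea (x := 0) le_rfl hd.le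
  obtain ⟨b, hb, Hb⟩ := rdist_end hU hψ hsub hnn hd hdisc hA hsum harea (x := d) hd.le le_rfl
  obtain ⟨z, hz1, hz2⟩ := circles_meet (x := 0 + 9 / 4 * d) (y := d + 9 / 4 * d) (a := a) (b := b)
    (by linarith) (by linarith [ha.1]) (by linarith [hb.1])
    (by rw [show 0 + 9 / 4 * d - (d + 9 / 4 * d) = -d by ring, abs_neg, abs_of_pos hd, abs_le]
        constructor <;> linarith [ha.1, ha.2, hb.1, hb.2])
    (by rw [show 0 + 9 / 4 * d - (d + 9 / 4 * d) = -d by ring, abs_neg, abs_of_pos hd]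
        linarith [ha.1, ha.2, hb.1, hb.2])
  have h1 := Ha z hz1
  have h2 := Hb z hz2
  have e1 : cln z0 v ((0 : ℝ) : ℂ) = z0 := by simp [cln]
  have e2 : cln z0 v ((d : ℝ) : ℂ) = z0 + d • v := by simp [cln]
  rw [e1] at h1
  rw [e2] at h2
  rw [rdist_comm'] at h1
  refine (rdist_triangle' _ ((e c).symm (cln z0 v z)) _).trans ((add_le_add h1 h2).trans ?_)
  have hS : 0 ≤ ∑' k, √(A k) := tsum_nonneg fun k => Real.sqrt_nonneg _
  rw [← ENNReal.ofReal_add (by positivity) (by positivity)]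
  apply ENNReal.ofReal_le_ofReal
  have h3 : √2 ≤ 2 := by
    rw [Real.sqrt_le_left (by norm_num)]
    norm_num
  nlinarith [mul_le_mul_of_nonneg_right h3 hS]

end Pool.Agent.KRFS

end
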