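import Pool.Agent.Work.MP_a2bf38_gt.Fu.G.EvolField
import Pool.Agent.Work.MP_a2bf38_gt.Fu.H.BoundLin
import Pool.Agent.Work.MP_a2bf38_gt.Fu.I.Defs
import Pool.Agent.Work.MP_a2bf38_gt.Fu.H.Dist

section

/-!
# The upper bound of `u = (T - t) φ' + φ + n t` and its evolution
-/

open scoped ContDiff ENNReal ComplexOrder
open Set Filter Topology Pool.Agent.ToricKRF Pool.Agent.ToricKRF.G

namespace Pool.Agent.KRFS

variable {n N : ℕ} {M : Type} [TopologicalSpace M] {κ P F : Type} [Fintype F] {T : ℝ}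
  (s : Setup n N M κ P F T)

/-- `u = (T - t) φ' + φ + n t`, `φ = ψ(t) - ψ(0) - t log Ω` -/
noncomputable def Setup.Uc (c : κ) : ℝ × Cn n → ℝ := fun q =>
  (T - q.1) * (Real.log (cHess (s.ψ c) q).det.re - Real.log (s.Ω c q.2)) +
    (s.ψ c q - s.ψ c (0, q.2) - q.1 * Real.log (s.Ω c q.2)) + n * q.1

namespace Bd

theorem Uc_eq_Gc : s.Uc = s.Gc T (-1) 1 n := by
  funext c q
  unfold Setup.Uc Setup.Gc
  ring

/-- the Levi form of `ψ(0)` -/
theorem levz_psi0 (hT : 0 < T) {c : κ} {z : Cn n} (hz : z ∈ (s.e c).target) (u : Cn n) :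
    levz (fun x => s.ψ c (0, x)) u z = lev (s.ψ c) u (0, z) := by
  obtain ⟨U, hU, hsub, hψ, hp, h0, htg⟩ := exists_good s c
  exact levz_slice hU hψ (hsub ⟨⟨le_rfl, hT⟩, hz⟩) u

theorem smooth_psi0 (hT : 0 < T) (c : κ) :
    ContDiffOn ℝ ∞ (fun x => s.ψ c (0, x)) (s.e c).target := by
  obtain ⟨U, hU, hsub, hψ, hp, h0, htg⟩ := exists_good s c
  exact hψ.comp (contDiff_const.prodMk contDiff_id).contDiffOn
    fun x hx => hsub ⟨⟨le_rfl, hT⟩, hx⟩

theorem lev_psi_pos {c : κ} {t : ℝ} (ht : t ∈ Ico 0 T) {z : Cn n} (hz : z ∈ (s.e c).target)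
    {u : Cn n} (hu : u ≠ 0) : 0 < lev (s.ψ c) u (t, z) := by
  obtain ⟨U, hU, hsub, hψ, hp, h0, htg⟩ := exists_good s c
  exact lev_pos hU hψ (hsub ⟨ht, hz⟩) (s.krf.pos c t ht z hz) hu

/-- the Levi form of `log Ω` in two charts -/
theorem levz_logOmega_transform (hT : 0 < T) {c c' : κ} {z : Cn n} (hz : z ∈ dom s.e c c')
    (u : Cn n) : levz (fun z => Real.log (s.Ω c z)) u z =
      levz (fun z => Real.log (s.Ω c' z)) (fderiv ℝ (tr s.e c c') z u) (tr s.e c c' z) := by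
  have hz' : tr s.e c c' z ∈ (s.e c').target := (s.e c').map_source hz.2
  have ht : T / 2 ∈ Ico 0 T := ⟨by linarith, by linarith⟩
  have h0 : (0 : ℝ) ∈ Ico 0 T := ⟨le_rfl, hT⟩
  set u' := fderiv ℝ (tr s.e c c') z u with hu'
  have h1 := lev_Gc s 0 0 1 0 ht hz.1 u
  have h2 := lev_Gc s 0 0 1 0 ht hz' u'
  have h3 := s.krf.compat c c' (T / 2) ht z hz u
  have h4 := s.krf.compat c c' 0 h0 z hz u
  have hG := Gc_isFun s 0 0 1 0
  obtain ⟨U, hU, hsub, hψ, hp, hU0, htg⟩ := exists_good s c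
  obtain ⟨U', hU', hsub', hψ', hp', hU0', htg'⟩ := exists_good s c'
  have hs1 := smooth_Gc s 0 0 1 0 hU hψ hp hU0 htg
  have hs2 := smooth_Gc s 0 0 1 0 hU' hψ' hp' hU0' htg'
  have h5 : lev (s.Gc 0 0 1 0 c) u (T / 2, z) = lev (s.Gc 0 0 1 0 c') u' (T / 2, tr s.e c c' z) := by
    have hm' : (T / 2, tr s.e c c' z) ∈ U' := hsub' ⟨ht, hz'⟩
    rw [← levz_slice hU hs1 (hsub ⟨ht, hz.1⟩), ← levz_slice hU' hs2 hm']
    have hs3 : ContDiffOn ℝ ∞ (fun x => s.Gc 0 0 1 0 c' (T / 2, x)) (s.e c').target :=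
      hs2.comp (contDiff_const.prodMk contDiff_id).contDiffOn fun x hx => hsub' ⟨ht, hx⟩
    rw [← levz_comp (s.e c').open_target hs3 (isOpen_dom c c') (s.atlas.holo c c') hz hz' u]
    apply levz_congr
    filter_upwards [(isOpen_dom (e := s.e) c c').mem_nhds hz] with x hx
    exact hG.compat c c' (T / 2) ht x hx
  have h6 : T / 2 * levz (fun z => Real.log (s.Ω c z)) u z =
      T / 2 * levz (fun z => Real.log (s.Ω c' z)) u' (tr s.e c c' z) := by
    linarith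
  exact mul_left_cancel₀ (by positivity) h6

/-- the geometric constants of the initial data -/
theorem exists_const [CompactSpace M] (hT : 0 < T) : ∃ C : ℝ, 0 ≤ C ∧
    ∀ c, ∀ z ∈ (s.e c).target,
      (∀ u, levz (fun z => Real.log (s.Ω c z)) u z ≤ C * lev (s.ψ c) u (0, z)) ∧
      Real.log (cHess (s.ψ c) (0, z)).det.re - Real.log (s.Ω c z) ≤ C := by
  have h0 : (0 : ℝ) ∈ Ico 0 T := ⟨le_rfl, hT⟩
  have key : ∃ C : ℝ, 0 ≤ C ∧ ∀ c, ∀ z ∈ (s.e c).target, (s.e c).symm z ∈ (univ : Set M) →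
      (∀ u, levz (fun z => Real.log (s.Ω c z)) u z ≤ C * lev (s.ψ c) u (0, z)) ∧
      Real.log (cHess (s.ψ c) (0, z)).det.re - Real.log (s.Ω c z) ≤ C := by
    refine isCompact_univ.induction_on (p := fun S : Set M => ∃ C : ℝ, 0 ≤ C ∧
      ∀ c, ∀ z ∈ (s.e c).target, (s.e c).symm z ∈ S →
      (∀ u, levz (fun z => Real.log (s.Ω c z)) u z ≤ C * lev (s.ψ c) u (0, z)) ∧
      Real.log (cHess (s.ψ c) (0, z)).det.re - Real.log (s.Ω c z) ≤ C) ?_ ?_ ?_ ?_
    · exact ⟨0, le_rfl, fun c z _ h => absurd h (notMem_empty _)⟩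
    · rintro S S' hSS' ⟨C, hC, h⟩
      exact ⟨C, hC, fun c z hz hzS => h c z hz (hSS' hzS)⟩
    · rintro S S' ⟨C, hC, h⟩ ⟨C', hC', h'⟩
      refine ⟨max C C', hC.trans (le_max_left _ _), fun c z hz hzS => ?_⟩
      have hnn : ∀ u, 0 ≤ lev (s.ψ c) u (0, z) := by
        intro u
        by_cases hu : u = 0
        · rw [hu, ← levz_psi0 s hT hz]
          have := levz_smul (s.e c).open_target (smooth_psi0 s hT c) hz 0 0
          simp only [smul_zero] at this
          rw [this]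
          norm_num
        · exact (lev_psi_pos s h0 hz hu).le
      rcases hzS with hzS | hzS
      · obtain ⟨h1, h2⟩ := h c z hz hzS
        exact ⟨fun u => (h1 u).trans (mul_le_mul_of_nonneg_right (le_max_left _ _) (hnn u)),
          h2.trans (le_max_left _ _)⟩
      · obtain ⟨h1, h2⟩ := h' c z hz hzS
        exact ⟨fun u => (h1 u).trans (mul_le_mul_of_nonneg_right (le_max_right _ _) (hnn u)),
          h2.trans (le_max_right _ _)⟩
    · intro x _
      obtain ⟨c0, hx⟩ := s.atlas.cover x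
      have hz0 : s.e c0 x ∈ (s.e c0).target := (s.e c0).map_source hx
      obtain ⟨C, hC, hev⟩ := levz_le_local (s.e c0).open_target (smooth_logOmega s c0)
        (smooth_psi0 s hT c0) hz0 (fun y hy u hu => by
          rw [levz_psi0 s hT hy]
          exact lev_psi_pos s h0 hy hu)
      obtain ⟨U, hU, hsub, hψ, hp, hU0, htg⟩ := exists_good s c0
      have hct : ContinuousAt (fun z => Real.log (cHess (s.ψ c0) (0, z)).det.re -
          Real.log (s.Ω c0 z)) (s.e c0 x) := by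
        have e1 : ContinuousAt (fun q => Real.log (cHess (s.ψ c0) q).det.re) (0, s.e c0 x) :=
          (smooth_logdet s hU hψ hp).continuousOn.continuousAt (hU.mem_nhds (hsub ⟨h0, hz0⟩))
        have e2 : ContinuousAt (fun z : Cn n => Real.log (cHess (s.ψ c0) (0, z)).det.re)
            (s.e c0 x) :=
          ContinuousAt.comp (f := fun z : Cn n => ((0 : ℝ), z)) (x := s.e c0 x) e1
            (continuousAt_const.prodMk continuousAt_id)
        exact e2.sub ((smooth_logOmega s c0).continuousOn.continuousAt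
          ((s.e c0).open_target.mem_nhds hz0))
      set C1 : ℝ := Real.log (cHess (s.ψ c0) (0, s.e c0 x)).det.re -
          Real.log (s.Ω c0 (s.e c0 x)) with hC1
      have hev2 : ∀ᶠ z in 𝓝 (s.e c0 x), Real.log (cHess (s.ψ c0) (0, z)).det.re -
          Real.log (s.Ω c0 z) < C1 + 1 := hct.eventually_lt_const (by linarith)
      have hev3 : ∀ᶠ y in 𝓝 x, y ∈ (s.e c0).source ∧
          (∀ u, levz (fun z => Real.log (s.Ω c0 z)) u (s.e c0 y) ≤
            C * levz (fun z => s.ψ c0 (0, z)) u (s.e c0 y)) ∧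
          Real.log (cHess (s.ψ c0) (0, s.e c0 y)).det.re - Real.log (s.Ω c0 (s.e c0 y)) <
            C1 + 1 := by
        have hc := (s.e c0).continuousAt hx
        filter_upwards [(s.e c0).open_source.mem_nhds hx, hc.eventually hev, hc.eventually hev2]
          with y h1 h2 h3
        exact ⟨h1, h2, h3⟩
      refine ⟨{y | y ∈ (s.e c0).source ∧
          (∀ u, levz (fun z => Real.log (s.Ω c0 z)) u (s.e c0 y) ≤
            C * levz (fun z => s.ψ c0 (0, z)) u (s.e c0 y)) ∧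
          Real.log (cHess (s.ψ c0) (0, s.e c0 y)).det.re - Real.log (s.Ω c0 (s.e c0 y)) <
            C1 + 1}, mem_nhdsWithin_of_mem_nhds hev3, max C (C1 + 1), hC.trans (le_max_left _ _),
        fun c z hz hzS => ?_⟩
      obtain ⟨h1, h2, h3⟩ := hzS
      have hzd : z ∈ dom s.e c c0 := ⟨hz, h1⟩
      have hz' : tr s.e c c0 z ∈ (s.e c0).target := (s.e c0).map_source hzd.2
      refine ⟨fun u => ?_, ?_⟩
      · have e1 := h2 (fderiv ℝ (tr s.e c c0) z u)
        have e2 : s.e c0 ((s.e c).symm z) = tr s.e c c0 z := rfl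
        rw [e2, levz_psi0 s hT hz', ← s.krf.compat c c0 0 h0 z hzd u,
          ← levz_logOmega_transform s hT hzd u] at e1
        have hnn : 0 ≤ lev (s.ψ c) u (0, z) := by
          by_cases hu : u = 0
          · rw [hu, ← levz_psi0 s hT hz]
            have := levz_smul (s.e c).open_target (smooth_psi0 s hT c) hz 0 0
            simp only [smul_zero] at this
            rw [this]
            norm_num
          · exact (lev_psi_pos s h0 hz hu).le
        exact e1.trans (mul_le_mul_of_nonneg_right (le_max_left _ _) hnn)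
      · have e1 := logOmega_transform s hzd hT
        have e2 : s.e c0 ((s.e c).symm z) = tr s.e c c0 z := rfl
        rw [e2] at h3
        have e3 := le_max_right C (C1 + 1)
        linarith
  obtain ⟨C, hC, h⟩ := key
  exact ⟨C, hC, fun c z hz => h c z hz (mem_univ _)⟩

/-- `φ' ≤ C` where `φ` has nonpositive Levi form -/
theorem logdet_le {C : ℝ} (hC : 0 ≤ C) {c : κ} {t : ℝ} (ht : t ∈ Ico 0 T) {z : Cn n}
    (hz : z ∈ (s.e c).target)
    (h1 : ∀ u, levz (fun z => Real.log (s.Ω c z)) u z ≤ C * lev (s.ψ c) u (0, z))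
    (h2 : Real.log (cHess (s.ψ c) (0, z)).det.re - Real.log (s.Ω c z) ≤ C)
    (h3 : ∀ u, lev (s.Gc 0 0 1 0 c) u (t, z) ≤ 0) :
    Real.log (cHess (s.ψ c) (t, z)).det.re - Real.log (s.Ω c z) ≤
      n * Real.log (1 + T * C) + C := by
  obtain ⟨U, hU, hsub, hψ, hp, hU0, htg⟩ := exists_good s c
  have hT : 0 < T := lt_of_le_of_lt ht.1 ht.2
  have h0 : (0 : ℝ) ∈ Ico 0 T := ⟨le_rfl, hT⟩
  have hm : (t, z) ∈ U := hsub ⟨ht, hz⟩
  have hm0 : (0, z) ∈ U := hU0 _ hm
  have hnn : ∀ u, 0 ≤ lev (s.ψ c) u (0, z) := by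
    intro u
    by_cases hu : u = 0
    · rw [hu, ← levz_psi0 s hT hz]
      have := levz_smul (s.e c).open_target (smooth_psi0 s hT c) hz 0 0
      simp only [smul_zero] at this
      rw [this]
      norm_num
    · exact (lev_psi_pos s h0 hz hu).le
  have h4 : ∀ u, lev (s.ψ c) u (t, z) ≤ (1 + T * C) * lev (s.ψ c) u (0, z) := by
    intro u
    have e1 := h3 u
    rw [lev_Gc s 0 0 1 0 ht hz u] at e1
    have e2 : t * levz (fun z => Real.log (s.Ω c z)) u z ≤ T * (C * lev (s.ψ c) u (0, z)) := by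
      calc t * levz (fun z => Real.log (s.Ω c z)) u z ≤ t * (C * lev (s.ψ c) u (0, z)) :=
            mul_le_mul_of_nonneg_left (h1 u) ht.1
        _ ≤ T * (C * lev (s.ψ c) u (0, z)) :=
            mul_le_mul_of_nonneg_right ht.2.le (mul_nonneg hC (hnn u))
    linarith
  have h5 := det_le_of_lev_le hU hψ hU hψ hm hm0 (s.krf.pos c t ht z hz) (s.krf.pos c 0 h0 z hz) h4
  have hpos : 0 < 1 + T * C := by positivity
  have h6 : Real.log (cHess (s.ψ c) (t, z)).det.re ≤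
      Real.log ((1 + T * C) ^ n * (cHess (s.ψ c) (0, z)).det.re) :=
    Real.log_le_log (hp _ hm) h5
  rw [Real.log_mul (pow_pos hpos n).ne' (hp _ hm0).ne', Real.log_pow] at h6
  linarith

end Bd

open Bd

theorem Setup.Uc_isFun : IsFun s.e T s.Uc := by
  rw [Uc_eq_Gc]
  exact Gc_isFun s _ _ _ _

/-- the evolution of `Gc` -/
theorem Bd.Gc_evol (a0 a1 b d : ℝ) {c : κ} {t : ℝ} (ht : t ∈ Ioo 0 T) {z : Cn n}
    (hz : z ∈ (s.e c).target) {W : Fin n → Cn n} (hW : IsUFrame (s.ψ c) (t, z) W) :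
    G.dt (s.Gc a0 a1 b d c) (t, z) = ∑ k, lev (s.Gc a0 a1 b d c) (W k) (t, z) +
      (a1 + b) * (Real.log (cHess (s.ψ c) (t, z)).det.re - Real.log (s.Ω c z)) + d +
      (a0 + (a1 + b) * t) * ∑ k, levz (fun z => Real.log (s.Ω c z)) (W k) z -
      b * (n - ∑ k, lev (s.ψ c) (W k) (0, z)) := by
  obtain ⟨U, hU, hsub, hψ, hp, hU0, htg⟩ := exists_good s c
  have hV : IsOpen (Ioo 0 T ×ˢ (s.e c).target) := isOpen_Ioo.prod (s.e c).open_target
  have hVU : Ioo 0 T ×ˢ (s.e c).target ⊆ U := fun q hq => hsub ⟨⟨hq.1.1.le, hq.1.2⟩, hq.2⟩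
  have hψV := hψ.mono hVU
  have hposV : ∀ q ∈ Ioo 0 T ×ˢ (s.e c).target, (cHess (s.ψ c) q).PosDef := fun q hq =>
    s.krf.pos c q.1 ⟨hq.1.1.le, hq.1.2⟩ q.2 hq.2
  have hflow : ∀ q ∈ Ioo 0 T ×ˢ (s.e c).target,
      G.dt (s.ψ c) q = Real.log (cHess (s.ψ c) q).det.re := fun q hq =>
    s.krf.flow c q.1 hq.1 q.2 hq.2
  have hm : (t, z) ∈ Ioo 0 T ×ˢ (s.e c).target := ⟨ht, hz⟩
  have h1 := evol_logdet hV hψV hposV hflow hm hW
  have h2 := trace_frame hV hψV hm hW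
  have h3 : ∀ k, lev (s.Gc a0 a1 b d c) (W k) (t, z) = _ := fun k =>
    lev_Gc s a0 a1 b d ⟨ht.1.le, ht.2⟩ hz (W k)
  rw [dt_Gc s a0 a1 b d ht hz, h1]
  simp_rw [h3]
  rw [Finset.sum_add_distrib, ← Finset.mul_sum, ← Finset.mul_sum, Finset.sum_sub_distrib,
    Finset.sum_sub_distrib, Finset.sum_sub_distrib, ← Finset.mul_sum, h2]
  ring

theorem Setup.Uc_evol {c : κ} {t : ℝ} (ht : t ∈ Ioo 0 T) {z : Cn n} (hz : z ∈ (s.e c).target)
    {W : Fin n → Cn n} (hW : IsUFrame (s.ψ c) (t, z) W) :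
    G.dt (s.Uc c) (t, z) = ∑ k, lev (s.Uc c) (W k) (t, z) +
      ∑ k, levz (fun z => s.K (s.pc c) (s.h (s.pc c) ((s.e c).symm z))) (W k) z := by
  have h1 : ∀ k, levz (fun z => s.K (s.pc c) (s.h (s.pc c) ((s.e c).symm z))) (W k) z =
      lev (s.ψ c) (W k) (0, z) + T * levz (fun z => Real.log (s.Ω c z)) (W k) z := fun k =>
    (s.theta c z hz (W k)).symm
  simp_rw [h1]
  rw [Uc_eq_Gc, Bd.Gc_evol s T (-1) 1 n ht hz hW, Finset.sum_add_distrib, ← Finset.mul_sum]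
  ring

/-- `φ ≤ C t` -/
theorem Bd.phi_le [CompactSpace M] {C : ℝ} (hC : 0 ≤ C)
    (h : ∀ c, ∀ z ∈ (s.e c).target,
      (∀ u, levz (fun z => Real.log (s.Ω c z)) u z ≤ C * lev (s.ψ c) u (0, z)) ∧
      Real.log (cHess (s.ψ c) (0, z)).det.re - Real.log (s.Ω c z) ≤ C) {c : κ} {t : ℝ}
    (ht : t ∈ Ico 0 T) {z : Cn n} (hz : z ∈ (s.e c).target) :
    s.ψ c (t, z) - s.ψ c (0, z) - t * Real.log (s.Ω c z) ≤
      (n * Real.log (1 + T * C) + C) * t := by
  have key := max_principle s.atlas (Gc_isFun s 0 0 1 (-(n * Real.log (1 + T * C) + C))) ht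
    (K := 0) (fun c z hz => by
      simp [Setup.Gc]) (fun c r hr z hz hlev => by
      have hrT : r < T := lt_of_le_of_lt hr.2 ht.2
      have h0 : r ∈ Ico 0 T := ⟨hr.1.le, hrT⟩
      rw [dt_Gc s _ _ _ _ ⟨hr.1, hrT⟩ hz]
      have h1 := logdet_le s hC h0 hz (h c z hz).1 (h c z hz).2 fun u => by
        have h2 := hlev u
        rw [lev_Gc s _ _ _ _ h0 hz] at h2 ⊢
        exact h2
      linarith) c t ⟨ht.1, le_rfl⟩ z hz
  simp only [Setup.Gc] at key
  linarith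

/-- `t φ' ≤ φ + n t` -/
theorem Bd.t_mul_le [CompactSpace M] {c : κ} {t : ℝ} (ht : t ∈ Ico 0 T) {z : Cn n}
    (hz : z ∈ (s.e c).target) :
    t * (Real.log (cHess (s.ψ c) (t, z)).det.re - Real.log (s.Ω c z)) ≤
      s.ψ c (t, z) - s.ψ c (0, z) - t * Real.log (s.Ω c z) + n * t := by
  have key := max_principle s.atlas (Gc_isFun s 0 1 (-1) (-n)) ht
    (K := 0) (fun c z hz => by
      simp [Setup.Gc]) (fun c r hr z hz hlev => by
      have hrT : r < T := lt_of_le_of_lt hr.2 ht.2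
      have h0 : r ∈ Ico 0 T := ⟨hr.1.le, hrT⟩
      have hT : 0 < T := hr.1.trans hrT
      obtain ⟨U, hU, hsub, hψ, hp, hU0, htg⟩ := exists_good s c
      obtain ⟨W, hW, -, -⟩ := exists_uframe hU hψ (hsub ⟨h0, hz⟩) (s.krf.pos c r h0 z hz)
      rw [Bd.Gc_evol s _ _ _ _ ⟨hr.1, hrT⟩ hz hW]
      have h1 : ∑ k, lev (s.Gc 0 1 (-1) (-(n : ℝ)) c) (W k) (r, z) ≤ 0 :=
        Finset.sum_nonpos fun k _ => hlev (W k)
      have h2 : 0 ≤ ∑ k, lev (s.ψ c) (W k) (0, z) := by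
        refine Finset.sum_nonneg fun k _ => ?_
        by_cases hu : W k = 0
        · rw [hu, ← levz_psi0 s hT hz]
          have := levz_smul (s.e c).open_target (smooth_psi0 s hT c) hz 0 0
          simp only [smul_zero] at this
          rw [this]
          norm_num
        · exact (lev_psi_pos s ⟨le_rfl, hT⟩ hz hu).le
      linarith) c t ⟨ht.1, le_rfl⟩ z hz
  simp only [Setup.Gc] at key
  linarith

theorem Setup.Uc_le [CompactSpace M] : ∃ C : ℝ, ∀ c, ∀ t ∈ Ico 0 T, ∀ z ∈ (s.e c).target,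
    s.Uc c (t, z) ≤ C := by
  by_cases hT : 0 < T
  swap
  · exact ⟨0, fun c t ht => absurd (lt_of_le_of_lt ht.1 ht.2) hT⟩
  obtain ⟨C, hC, h⟩ := exists_const s hT
  set C1 : ℝ := n * Real.log (1 + T * C) + C with hC1
  have hC1' : 0 ≤ C1 := by
    have h1 : 0 ≤ Real.log (1 + T * C) := Real.log_nonneg (by
      have := mul_nonneg hT.le hC
      linarith)
    positivity
  refine ⟨T * C + (C1 + n) * T, fun c t ht z hz => ?_⟩
  have h1 := Bd.phi_le s hC h ht hz
  have h2 := Bd.t_mul_le s ht hz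
  rw [← hC1] at h1
  have hn : (0 : ℝ) ≤ n := Nat.cast_nonneg n
  simp only [Setup.Uc]
  rcases ht.1.eq_or_lt with h0 | h0
  · have h3 := (h c z hz).2
    rw [← h0]
    have h4 : T * (Real.log (cHess (s.ψ c) (0, z)).det.re - Real.log (s.Ω c z)) ≤ T * C :=
      mul_le_mul_of_nonneg_left h3 hT.le
    have h5 : 0 ≤ (C1 + n) * T := by positivity
    linarith
  · have h3 : Real.log (cHess (s.ψ c) (t, z)).det.re - Real.log (s.Ω c z) ≤ C1 + n := by
      have h4 : t * (Real.log (cHess (s.ψ c) (t, z)).det.re - Real.log (s.Ω c z)) ≤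
          t * (C1 + n) := by linarith
      exact le_of_mul_le_mul_left h4 h0
    have h4 : (T - t) * (Real.log (cHess (s.ψ c) (t, z)).det.re - Real.log (s.Ω c z)) ≤
        (T - t) * (C1 + n) := mul_le_mul_of_nonneg_left h3 (by linarith [ht.2])
    have h5 : 0 ≤ T * C := by positivity
    linarith

end Pool.Agent.KRFS

end

section

/-!
# From local bounds to a bound of the diameter
-/

open scoped ContDiff ENNReal ComplexOrder Topology
open Set MeasureTheory Filter Pool.Agent.ToricKRF Pool.Agent.ToricKRF.G Pool.Agent.KRFS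

namespace Pool.Agent.KRFF

theorem Flow.diam_of_local {n : ℕ} {M : Type} [TopologicalSpace M] {κ : Type} {T : ℝ}
    (F : Flow n M κ T) [CompactSpace M] [ConnectedSpace M]
    (h : ∀ p, ∃ C : ℝ, ∀ᶠ q in 𝓝 p, ∀ t ∈ Ico 0 T, rdist F.e F.ψ t p q ≤ ENNReal.ofReal C) :
    ⨆ t ∈ Ico 0 T, rdiam F.e F.ψ t < ⊤ := by
  have add_le : ∀ {a b : ℝ≥0∞} {C C' : ℝ}, a ≤ ENNReal.ofReal C → b ≤ ENNReal.ofReal C' →
      a + b ≤ ENNReal.ofReal (max C 0 + max C' 0) := by
    intro a b C C' h1 h2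
    rw [ENNReal.ofReal_add (le_max_right _ _) (le_max_right _ _)]
    exact add_le_add (h1.trans (ENNReal.ofReal_le_ofReal (le_max_left _ _)))
      (h2.trans (ENNReal.ofReal_le_ofReal (le_max_left _ _)))
  have h1 : ∀ p q : M, ∃ C : ℝ, ∀ t ∈ Ico 0 T,
      rdist F.e F.ψ t p q ≤ ENNReal.ofReal C := by
    intro p q
    refine (isPreconnected_univ (α := M)).induction₂ (fun p q => ∃ C : ℝ, ∀ t ∈ Ico 0 T,
      rdist F.e F.ψ t p q ≤ ENNReal.ofReal C) ?_ ?_ ?_ (mem_univ p) (mem_univ q)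
    · intro x _
      obtain ⟨C, hC⟩ := h x
      exact (hC.filter_mono nhdsWithin_le_nhds).mono fun y hy => ⟨C, hy⟩
    · rintro x y z - - - ⟨C, hC⟩ ⟨C', hC'⟩
      exact ⟨_, fun t ht => (rdist_triangle' x y z).trans (add_le (hC t ht) (hC' t ht))⟩
    · rintro x y - - ⟨C, hC⟩
      exact ⟨C, fun t ht => by
        rw [rdist_comm']
        exact hC t ht⟩
  obtain ⟨x0⟩ : Nonempty M := inferInstance
  obtain ⟨C, hC⟩ : ∃ C : ℝ, ∀ t ∈ Ico 0 T, ∀ q ∈ (univ : Set M),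
      rdist F.e F.ψ t x0 q ≤ ENNReal.ofReal C := by
    refine isCompact_univ.induction_on (p := fun S => ∃ C : ℝ, ∀ t ∈ Ico 0 T, ∀ q ∈ S,
      rdist F.e F.ψ t x0 q ≤ ENNReal.ofReal C) ⟨0, fun t _ q hq => absurd hq (by simp)⟩
      ?_ ?_ ?_
    · rintro S S' hS ⟨C, hC⟩
      exact ⟨C, fun t ht q hq => hC t ht q (hS hq)⟩
    · rintro S S' ⟨C, hC⟩ ⟨C', hC'⟩
      refine ⟨max C C', fun t ht q hq => ?_⟩
      rcases hq with hq | hq
      · exact (hC t ht q hq).trans (ENNReal.ofReal_le_ofReal (le_max_left _ _))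
      · exact (hC' t ht q hq).trans (ENNReal.ofReal_le_ofReal (le_max_right _ _))
    · intro x _
      obtain ⟨C, hC⟩ := h x
      obtain ⟨C', hC'⟩ := h1 x0 x
      exact ⟨_, mem_nhdsWithin_of_mem_nhds hC, _, fun t ht q hq =>
        (rdist_triangle' x0 x q).trans (add_le (hC' t ht) (hq t ht))⟩
  refine lt_of_le_of_lt (b := ENNReal.ofReal (max C 0 + max C 0)) ?_ ENNReal.ofReal_lt_top
  refine iSup₂_le fun t ht => iSup_le fun p => iSup_le fun q => ?_
  refine (rdist_triangle' p x0 q).trans (add_le ?_ (hC t ht q trivial))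
  rw [rdist_comm']
  exact hC t ht p trivial

end Pool.Agent.KRFF

end
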