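import Pool.Agent.Work.MP_a2bf38_gt.Fu.H.Gen
import Pool.Agent.Work.MP_a2bf38_gt.Fu.H.Bound
import Pool.Agent.Work.MP_a2bf38_gt.Fu.G.EvolField
import Pool.Agent.Work.MP_a2bf38_gt.Fu.I.FBound
import Pool.Agent.Work.MP_a2bf38_gt.Fu.I.CircleAvg
import Pool.Agent.Work.MP_a2bf38_gt.Fu.I.Ray

section

/-!
# The local holomorphic vector fields stay bounded
-/

open scoped ContDiff ENNReal ComplexOrder
open Set Filter Topology Pool.Agent.ToricKRF Pool.Agent.ToricKRF.G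

namespace Pool.Agent.KRFS

section cut

/-- a cut-off function, `1` for `r ≤ 1/2` and `0` for `r ≥ 3/4` -/
noncomputable def cut (r : ℝ) : ℝ := Real.smoothTransition ((3 / 4 - r) * 4)

theorem cut_contDiff : ContDiff ℝ ∞ cut :=
  Real.smoothTransition.contDiff.comp (by fun_prop)

theorem cut_one {r : ℝ} (h : r ≤ 1 / 2) : cut r = 1 :=
  Real.smoothTransition.one_of_one_le (by linarith)

theorem cut_zero {r : ℝ} (h : 3 / 4 ≤ r) : cut r = 0 :=
  Real.smoothTransition.zero_of_nonpos (by linarith)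

theorem cut_pos {r : ℝ} (h : r < 3 / 4) : 0 < cut r :=
  Real.smoothTransition.pos_of_pos (by linarith)

theorem cut_nonneg (r : ℝ) : 0 ≤ cut r := Real.smoothTransition.nonneg _

theorem cut_le_one (r : ℝ) : cut r ≤ 1 := Real.smoothTransition.le_one _

variable {m : ℕ}

theorem contDiff_nsq : ContDiff ℝ ∞ (nsq (n := m)) := by
  unfold nsq dotProduct
  fun_prop

theorem norm_le_of_nsq {y : Cn m} (h : nsq y ≤ 1) : ‖y‖ ≤ 1 := by
  unfold nsq dotProduct at h
  have h1 : 0 ≤ ∑ i, y.1 i * y.1 i := Finset.sum_nonneg fun i _ => mul_self_nonneg _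
  have h2 : 0 ≤ ∑ i, y.2 i * y.2 i := Finset.sum_nonneg fun i _ => mul_self_nonneg _
  rw [norm_prod_le_iff, pi_norm_le_iff_of_nonneg zero_le_one, pi_norm_le_iff_of_nonneg zero_le_one]
  constructor
  · intro i
    have h3 : y.1 i * y.1 i ≤ ∑ i, y.1 i * y.1 i :=
      Finset.single_le_sum (f := fun i => y.1 i * y.1 i) (fun i _ => mul_self_nonneg _)
        (Finset.mem_univ i)
    rw [Real.norm_eq_abs]
    exact abs_le_of_sq_le_sq (by nlinarith) zero_le_one
  · intro i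
    have h3 : y.2 i * y.2 i ≤ ∑ i, y.2 i * y.2 i :=
      Finset.single_le_sum (f := fun i => y.2 i * y.2 i) (fun i _ => mul_self_nonneg _)
        (Finset.mem_univ i)
    rw [Real.norm_eq_abs]
    exact abs_le_of_sq_le_sq (by nlinarith) zero_le_one

/-- the logarithm of the cut-off on the base -/
noncomputable def Lcut (y : Cn m) : ℝ := Real.log (cut (nsq y))

theorem isOpen_lt (r : ℝ) : IsOpen {y : Cn m | nsq y < r} :=
  isOpen_lt' contDiff_nsq.continuous r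
where
  isOpen_lt' {f : Cn m → ℝ} (hf : Continuous f) (r : ℝ) : IsOpen {y | f y < r} :=
    isOpen_Iio.preimage hf

theorem Lcut_smooth : ContDiffOn ℝ ∞ (Lcut (m := m)) {y | nsq y < 3 / 4} :=
  ((cut_contDiff.comp contDiff_nsq).contDiffOn).log fun _ hy => (cut_pos hy).ne'

end cut

section lin

variable {n : ℕ} {f g : ℝ × Cn n → ℝ} {p : ℝ × Cn n}

theorem lev_add' (hf : ContDiffAt ℝ 2 f p) (hg : ContDiffAt ℝ 2 g p) (u : Cn n) :
    lev (fun x => f x + g x) u p = lev f u p + lev g u p := by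
  unfold lev
  rw [LC.D_D_add _ _ hf hg, LC.D_D_add _ _ hf hg]
  ring

theorem lev_sub' (hf : ContDiffAt ℝ 2 f p) (hg : ContDiffAt ℝ 2 g p) (u : Cn n) :
    lev (fun x => f x - g x) u p = lev f u p - lev g u p := by
  unfold lev
  rw [LC.D_D_sub _ _ hf hg, LC.D_D_sub _ _ hf hg]
  ring

theorem lev_const_mul' (c : ℝ) (hf : ContDiffAt ℝ 2 f p) (u : Cn n) :
    lev (fun x => c * f x) u p = c * lev f u p := by
  unfold lev
  rw [LC.D_D_const_mul _ _ _ hf, LC.D_D_const_mul _ _ _ hf]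
  ring

theorem lev_time (u : Cn n) (p : ℝ × Cn n) : lev (fun q : ℝ × Cn n => q.1) u p = 0 := by
  have h : ∀ w : Cn n, D ((0 : ℝ), w) (fun q : ℝ × Cn n => q.1) = fun _ => (0 : ℝ) := by
    intro w
    funext q
    have h3 : fderiv ℝ (fun q : ℝ × Cn n => q.1) q = ContinuousLinearMap.fst ℝ ℝ (Cn n) :=
      hasFDerivAt_fst.fderiv
    simp [D, h3]
  unfold lev
  rw [h, h, D_const, D_const]
  norm_num

theorem dt_snd {g : Cn n → ℝ} {t : ℝ} {z : Cn n} (hg : DifferentiableAt ℝ g z) :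
    G.dt (fun q : ℝ × Cn n => g q.2) (t, z) = 0 := by
  unfold G.dt D
  have h1 : HasFDerivAt (fun q : ℝ × Cn n => g q.2)
      ((fderiv ℝ g z).comp (ContinuousLinearMap.snd ℝ ℝ (Cn n))) (t, z) :=
    HasFDerivAt.comp (t, z) (g := g) hg.hasFDerivAt hasFDerivAt_snd
  rw [h1.fderiv]
  simp

end lin

variable {n N : ℕ} {M : Type} [TopologicalSpace M] {κ P F : Type} [Fintype F] {T : ℝ}
  (s : Setup n N M κ P F T)

/-- the piece `j` -/
def Setup.V (j : P) : Set M := {p | ∃ c, s.pc c = j ∧ p ∈ (s.e c).source}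

theorem Setup.h_continuousAt {j : P} {p : M} (hp : p ∈ s.V j) : ContinuousAt (s.h j) p := by
  obtain ⟨c, rfl, hc⟩ := hp
  have h1 : ContinuousAt (fun z => s.h (s.pc c) ((s.e c).symm z)) (s.e c p) :=
    (s.h_holo c).1.continuousOn.continuousAt ((s.e c).open_target.mem_nhds ((s.e c).map_source hc))
  have h2 : ContinuousAt (fun q => s.h (s.pc c) ((s.e c).symm (s.e c q))) p :=
    ContinuousAt.comp (g := fun z => s.h (s.pc c) ((s.e c).symm z)) h1 ((s.e c).continuousAt hc)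
  refine h2.congr ?_
  filter_upwards [(s.e c).open_source.mem_nhds hc] with q hq
  rw [(s.e c).left_inv hq]

open Classical in
/-- `|ξ_k|^2` on the piece `j` -/
noncomputable def Setup.Fn (j : P) (k : F) (q : ℝ × M) : ℝ :=
  if h : q.2 ∈ s.V j then
    lev (s.ψ h.choose) (s.ξ k h.choose (s.e h.choose q.2)) (q.1, s.e h.choose q.2) else 0

theorem Setup.Fn_eq {c : κ} {k : F} {t : ℝ} (ht : t ∈ Ico 0 T) {p : M}
    (hp : p ∈ (s.e c).source) :
    s.Fn (s.pc c) k (t, p) = lev (s.ψ c) (s.ξ k c (s.e c p)) (t, s.e c p) := by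
  have h : p ∈ s.V (s.pc c) := ⟨c, rfl, hp⟩
  unfold Setup.Fn
  rw [dif_pos h]
  obtain ⟨h1, h2⟩ := h.choose_spec
  set c₀ := h.choose
  have hd := mem_dom h2 hp
  rw [s.krf.compat c₀ c t ht _ hd, ← s.ξ_compat k c₀ c h1 _ hd, tr_apply h2]

theorem Setup.Fn_nonneg (j : P) (k : F) {t : ℝ} (ht : t ∈ Ico 0 T) (p : M) :
    0 ≤ s.Fn j k (t, p) := by
  by_cases h : p ∈ s.V j
  · obtain ⟨c, rfl, hc⟩ := h
    rw [s.Fn_eq ht hc]
    exact (s.isQ ht ((s.e c).map_source hc)).nonneg _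
  · unfold Setup.Fn
    rw [dif_neg h]

theorem Setup.Fn_continuousOn (j : P) (k : F) : ContinuousOn (s.Fn j k) (Ico 0 T ×ˢ s.V j) := by
  rintro ⟨t, p⟩ ⟨ht, c, rfl, hc⟩
  obtain ⟨U, hU, hsub, hψ⟩ := s.krf.smooth c
  have hz := (s.e c).map_source hc
  have h0 : ContinuousAt (fun q => lev (s.ψ c) (s.ξ k c q.2) q) (t, s.e c p) :=
    ((contDiffOn_lev_field hU hψ (s.ξ_holo k c).1).continuousOn).continuousAt
      ((hU.inter (isOpen_univ.prod (s.e c).open_target)).mem_nhds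
        ⟨hsub ⟨ht, hz⟩, mem_univ _, hz⟩)
  have h2 : ContinuousAt (fun q : ℝ × M => (q.1, s.e c q.2)) (t, p) :=
    continuousAt_fst.prodMk (((s.e c).continuousAt hc).comp continuousAt_snd)
  have h1 : ContinuousAt (fun q : ℝ × M => lev (s.ψ c) (s.ξ k c (s.e c q.2)) (q.1, s.e c q.2))
      (t, p) :=
    ContinuousAt.comp (f := fun q : ℝ × M => (q.1, s.e c q.2))
      (g := fun q => lev (s.ψ c) (s.ξ k c q.2) q) h0 h2
  refine h1.continuousWithinAt.congr_of_eventuallyEq ?_ (s.Fn_eq ht hc)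
  have hev : ∀ᶠ q : ℝ × M in 𝓝[Ico 0 T ×ˢ s.V (s.pc c)] (t, p), q.2 ∈ (s.e c).source :=
    (continuousAt_snd.eventually_mem ((s.e c).open_source.mem_nhds hc)).filter_mono
      nhdsWithin_le_nhds
  filter_upwards [hev, self_mem_nhdsWithin] with q hq hq'
  exact s.Fn_eq hq'.1 hq

/-- local domination -/
theorem Setup.dom_local {j i : P} (hij : j ≠ i) {p₀ : M} (hj : p₀ ∈ s.V j) (hi : p₀ ∈ s.V i) :
    ∃ C : ℝ, 0 ≤ C ∧ ∀ᶠ p in 𝓝 p₀, ∀ t ∈ Ico 0 T, ∀ k,
      s.Fn j k (t, p) ≤ C * ∑ k', s.Fn i k' (t, p) := by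
  obtain ⟨c, rfl, hc⟩ := hj
  obtain ⟨c', rfl, hc'⟩ := hi
  have hZ : p₀ ∉ s.Z := fun h => hij (s.iso c c' p₀ h hc hc')
  have hz' := (s.e c').map_source hc'
  obtain ⟨C₁, hC₁, hev⟩ := s.local_gen hz' (by rwa [(s.e c').left_inv hc'])
  -- the fields of the piece `pc c` in the chart `c'`
  set u : F → M → Cn n := fun k p => fderiv ℝ (tr s.e c c') (s.e c p) (s.ξ k c (s.e c p)) with hu
  have hd := mem_dom hc hc'
  have hucont : ∀ k, ContinuousAt (u k) p₀ := by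
    intro k
    have h1 : ContDiffOn ℝ ∞ (fderiv ℝ (tr s.e c c')) (dom s.e c c') :=
      ((contDiffOn_infty_iff_fderiv_of_isOpen (isOpen_dom c c')).1 (s.atlas.holo c c').1).2
    have h2 : ContinuousAt (fderiv ℝ (tr s.e c c')) (s.e c p₀) :=
      h1.continuousOn.continuousAt ((isOpen_dom c c').mem_nhds hd)
    have h3 : ContinuousAt (s.ξ k c) (s.e c p₀) :=
      (s.ξ_holo k c).1.continuousOn.continuousAt ((s.e c).open_target.mem_nhds hd.1)
    have h4 : ContinuousAt (fun z => fderiv ℝ (tr s.e c c') z (s.ξ k c z)) (s.e c p₀) :=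
      h2.clm_apply h3
    exact ContinuousAt.comp (g := fun z => fderiv ℝ (tr s.e c c') z (s.ξ k c z)) h4
      ((s.e c).continuousAt hc)
  set C₂ : ℝ := (∑ k, ‖u k p₀‖) + 1 with hC₂
  have hub : ∀ᶠ p in 𝓝 p₀, ∀ k, ‖u k p‖ ≤ C₂ := by
    rw [eventually_all]
    intro k
    have h1 := (hucont k).norm.eventually_lt (continuousAt_const (y := ‖u k p₀‖ + 1)) (by linarith)
    filter_upwards [h1] with p hp
    have h2 : ‖u k p₀‖ ≤ ∑ k, ‖u k p₀‖ :=
      Finset.single_le_sum (f := fun k => ‖u k p₀‖) (fun _ _ => norm_nonneg _) (Finset.mem_univ k)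
    linarith
  refine ⟨C₁ * C₂ ^ 2, by positivity, ?_⟩
  filter_upwards [hub, ((s.e c').continuousAt hc').eventually hev,
    (s.e c).open_source.mem_nhds hc, (s.e c').open_source.mem_nhds hc'] with p h1 h2 h3 h4 t ht k
  have hzp' := (s.e c').map_source h4
  have h5 := h2 _ (s.isQ ht hzp') (u k p)
  have h6 : ∀ k', s.Fn (s.pc c') k' (t, p) = lev (s.ψ c') (s.ξ k' c' (s.e c' p)) (t, s.e c' p) :=
    fun k' => s.Fn_eq ht h4
  have h7 : s.Fn (s.pc c) k (t, p) = lev (s.ψ c') (u k p) (t, s.e c' p) := by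
    rw [s.Fn_eq ht h3, s.krf.compat c c' t ht _ (mem_dom h3 h4), tr_apply h3]
  rw [h7]
  simp_rw [h6]
  refine h5.trans ?_
  have h8 : 0 ≤ ∑ k', lev (s.ψ c') (s.ξ k' c' (s.e c' p)) (t, s.e c' p) :=
    Finset.sum_nonneg fun k' _ => (s.isQ ht hzp').nonneg _
  refine mul_le_mul_of_nonneg_right ?_ h8
  exact mul_le_mul_of_nonneg_left (pow_le_pow_left₀ (norm_nonneg _) (h1 k) 2) hC₁.le

theorem Setup.domination [T2Space M] [Finite P] : ∃ C : ℝ, 1 ≤ C ∧ ∀ j i : P, j ≠ i → ∀ p,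
    p ∈ s.V j → nsq (s.h j p) ≤ 3 / 4 → p ∈ s.V i → nsq (s.h i p) ≤ 1 / 2 →
    ∀ t ∈ Ico 0 T, ∀ k, s.Fn j k (t, p) ≤ C * ∑ k', s.Fn i k' (t, p) := by
  have key : ∀ x : P × P, ∃ C : ℝ, 0 ≤ C ∧ (x.1 ≠ x.2 → ∀ p,
    p ∈ s.V x.1 → nsq (s.h x.1 p) ≤ 3 / 4 → p ∈ s.V x.2 → nsq (s.h x.2 p) ≤ 1 / 2 →
    ∀ t ∈ Ico 0 T, ∀ k, s.Fn x.1 k (t, p) ≤ C * ∑ k', s.Fn x.2 k' (t, p)) := by
    rintro ⟨j, i⟩
    by_cases hij : j = i
    · exact ⟨0, le_rfl, fun h => absurd hij h⟩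
    have hK : IsCompact ({p | (∃ c, s.pc c = j ∧ p ∈ (s.e c).source) ∧ nsq (s.h j p) ≤ 3 / 4} ∩
        {p | (∃ c, s.pc c = i ∧ p ∈ (s.e c).source) ∧ nsq (s.h i p) ≤ 1 / 2}) :=
      (s.proper j (3 / 4) (by norm_num)).inter (s.proper i (1 / 2) (by norm_num))
    have hmono : ∀ C C' : ℝ, C ≤ C' → ∀ t ∈ Ico 0 T, ∀ p, C * ∑ k', s.Fn i k' (t, p) ≤
        C' * ∑ k', s.Fn i k' (t, p) := fun C C' hCC t ht p =>
      mul_le_mul_of_nonneg_right hCC (Finset.sum_nonneg fun k' _ => s.Fn_nonneg i k' ht p)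
    obtain ⟨C, hC, h⟩ := hK.induction_on
      (p := fun S => ∃ C : ℝ, 0 ≤ C ∧ ∀ p ∈ S, ∀ t ∈ Ico 0 T, ∀ k,
        s.Fn j k (t, p) ≤ C * ∑ k', s.Fn i k' (t, p))
      ⟨0, le_rfl, fun p hp => absurd hp (notMem_empty p)⟩
      (fun S S' hSS ⟨C, hC, h⟩ => ⟨C, hC, fun p hp => h p (hSS hp)⟩)
      (fun S S' ⟨C, hC, h⟩ ⟨C', hC', h'⟩ => ⟨max C C', le_max_of_le_left hC, fun p hp t ht k => by
        rcases hp with hp | hp
        · exact (h p hp t ht k).trans (hmono _ _ (le_max_left _ _) t ht p)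
        · exact (h' p hp t ht k).trans (hmono _ _ (le_max_right _ _) t ht p)⟩)
      (fun p₀ hp₀ => by
        obtain ⟨C, hC, h⟩ := s.dom_local hij hp₀.1.1 hp₀.2.1
        exact ⟨_, mem_nhdsWithin_of_mem_nhds h, C, hC, fun p hp => hp⟩)
    exact ⟨C, hC, fun _ p h1 h2 h3 h4 => h p ⟨⟨h1, h2⟩, ⟨h3, h4⟩⟩⟩
  choose C hC h using key
  obtain ⟨B, hB⟩ := (Set.finite_range C).bddAbove
  refine ⟨max B 1, le_max_right _ _, fun j i hij p h1 h2 h3 h4 t ht k => ?_⟩
  refine (h (j, i) hij p h1 h2 h3 h4 t ht k).trans ?_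
  refine mul_le_mul_of_nonneg_right ?_ (Finset.sum_nonneg fun k' _ => s.Fn_nonneg i k' ht p)
  exact (hB (mem_range_self (j, i))).trans (le_max_left _ _)

theorem Setup.exists_A [Finite P] {c₁ : ℝ} (hc : 0 < c₁) : ∃ A : ℝ, 0 ≤ A ∧ ∀ j : P, ∀ y : Cn N,
    nsq y < 3 / 4 → c₁ ≤ cut (nsq y) → ∀ v, -2 * levz Lcut v y ≤ A * levz (s.K j) v y := by
  have hopen : IsOpen {y : Cn N | nsq y < 3 / 4} := isOpen_lt _
  have hKs : ∀ j, ContDiffOn ℝ ∞ (s.K j) {y | nsq y < 3 / 4} := fun j =>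
    (s.K_smooth j).mono fun y hy =>
      lt_trans (show nsq y < 3 / 4 from hy) (by norm_num : (3 / 4 : ℝ) < 1)
  have hKpos : ∀ j, ∀ y : Cn N, nsq y < 3 / 4 → ∀ v, 0 ≤ levz (s.K j) v y := by
    intro j y hy v
    rcases eq_or_ne v 0 with hv | hv
    · have h0 := Bd.levz_smul hopen (hKs j) hy 0 v
      rw [hv] at h0 ⊢
      simpa using h0.ge
    · exact (s.K_psh j y (lt_trans hy (by norm_num)) v hv).le
  have key : ∀ j : P, ∃ A : ℝ, 0 ≤ A ∧ ∀ y : Cn N,
      nsq y < 3 / 4 → c₁ ≤ cut (nsq y) → ∀ v, -2 * levz Lcut v y ≤ A * levz (s.K j) v y := by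
    intro j
    have hcomp : IsCompact {y : Cn N | nsq y ≤ 3 / 4 ∧ c₁ ≤ cut (nsq y)} := by
      refine Metric.isCompact_of_isClosed_isBounded ?_ ?_
      · exact (isClosed_le contDiff_nsq.continuous continuous_const).inter
          (isClosed_le continuous_const (cut_contDiff.continuous.comp contDiff_nsq.continuous))
      · refine (Metric.isBounded_closedBall (x := (0 : Cn N)) (r := 1)).subset fun y hy => ?_
        rw [mem_closedBall_zero_iff]
        exact norm_le_of_nsq (hy.1.trans (by norm_num))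
    obtain ⟨A, hA, h⟩ := hcomp.induction_on
      (p := fun S => ∃ A : ℝ, 0 ≤ A ∧ ∀ y ∈ S, nsq y < 3 / 4 → ∀ v,
        -2 * levz Lcut v y ≤ A * levz (s.K j) v y)
      ⟨0, le_rfl, fun p hp => absurd hp (notMem_empty p)⟩
      (fun S S' hSS ⟨C, hC, h⟩ => ⟨C, hC, fun p hp => h p (hSS hp)⟩)
      (fun S S' ⟨C, hC, h⟩ ⟨C', hC', h'⟩ => ⟨max C C', le_max_of_le_left hC, fun p hp hp' v => by
        rcases hp with hp | hp
        · exact (h p hp hp' v).trans (mul_le_mul_of_nonneg_right (le_max_left _ _) (hKpos j p hp' v))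
        · exact (h' p hp hp' v).trans
            (mul_le_mul_of_nonneg_right (le_max_right _ _) (hKpos j p hp' v))⟩)
      (fun y hy => by
        have hy' : nsq y < 3 / 4 := by
          by_contra hcon
          have := cut_zero (not_lt.1 hcon)
          linarith [hy.2]
        obtain ⟨C, hC, h⟩ := Bd.levz_le_local (f := fun y => (-2) * Lcut y) (g := s.K j) hopen
          (contDiffOn_const.mul Lcut_smooth) (hKs j) hy'
          (fun x hx u hu => s.K_psh j x (lt_trans hx (by norm_num)) u hu)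
        refine ⟨_, mem_nhdsWithin_of_mem_nhds h, C, hC, fun x hx hx' v => ?_⟩
        have h2 := hx v
        rwa [Bd.levz_const_mul (-2) ((Lcut_smooth.contDiffAt (hopen.mem_nhds hx')).of_le
          two_le_infty)] at h2)
    refine ⟨A, hA, fun y h1 h2 v => h y ⟨h1.le, h2⟩ h1 v⟩
  choose A hA h using key
  obtain ⟨B, hB⟩ := (Set.finite_range A).bddAbove
  refine ⟨max B 0, le_max_right _ _, fun j y h1 h2 v => ?_⟩
  refine (h j y h1 h2 v).trans (mul_le_mul_of_nonneg_right ?_ (hKpos j y h1 v))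
  exact (hB (mem_range_self j)).trans (le_max_left _ _)

/-- the function of the maximum principle, in the chart `c` -/
noncomputable def Setup.ff (A ε : ℝ) (c : κ) (k : F) : ℝ × Cn n → ℝ := fun q =>
  2 * Lcut (s.h (s.pc c) ((s.e c).symm q.2)) + Real.log (lev (s.ψ c) (s.ξ k c q.2) q) -
    A * s.Uc c q - ε * q.1

theorem Setup.crit {c : κ} {t : ℝ} (ht : t ∈ Ioo 0 T) {z : Cn n} (hz : z ∈ (s.e c).target) {k : F}
    {A ε : ℝ} (hε : 0 < ε) (hy : nsq (s.h (s.pc c) ((s.e c).symm z)) < 3 / 4)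
    (hA : ∀ v, -2 * levz Lcut v (s.h (s.pc c) ((s.e c).symm z)) ≤
      A * levz (s.K (s.pc c)) v (s.h (s.pc c) ((s.e c).symm z)))
    (hξ : s.ξ k c z ≠ 0)
    (hx : ∀ᶠ x in 𝓝 z, s.ff A ε c k (t, x) ≤ s.ff A ε c k (t, z))
    (hr : ∀ᶠ r in 𝓝[<] t, s.ff A ε c k (r, z) ≤ s.ff A ε c k (t, z)) : False := by
  have ht' : t ∈ Ico 0 T := ⟨ht.1.le, ht.2⟩
  obtain ⟨U, hU, hsub, hψ⟩ := s.krf.smooth c
  set U₁ : Set (ℝ × Cn n) := U ∩ (Ioo 0 T ×ˢ (s.e c).target) with hU₁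
  have hU₁o : IsOpen U₁ := hU.inter (isOpen_Ioo.prod (s.e c).open_target)
  have hψ₁ : ContDiffOn ℝ ∞ (s.ψ c) U₁ := hψ.mono inter_subset_left
  have hpU : (t, z) ∈ U₁ := ⟨hsub ⟨ht', hz⟩, ht, hz⟩
  have hpos₁ : ∀ p ∈ U₁, (cHess (s.ψ c) p).PosDef := fun p hp =>
    s.krf.pos c p.1 ⟨hp.2.1.1.le, hp.2.1.2⟩ p.2 hp.2.2
  have hflow₁ : ∀ p ∈ U₁, G.dt (s.ψ c) p = Real.log (cHess (s.ψ c) p).det.re := fun p hp =>
    s.krf.flow c p.1 hp.2.1 p.2 hp.2.2
  obtain ⟨W, hW, hev⟩ := evol_field hU₁o hψ₁ hpos₁ hflow₁ hpU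
  have h1 := hev (s.ξ k c) (s.e c).target (s.e c).open_target hz (s.ξ_holo k c) hξ
  have h2 := s.Uc_evol ht hz hW
  -- smoothness of the parts
  set H : Cn n → Cn N := fun z => s.h (s.pc c) ((s.e c).symm z) with hH
  have hHh : HolOn H (s.e c).target := s.h_holo c
  have hSo : IsOpen ((s.e c).target ∩ H ⁻¹' {y | nsq y < 3 / 4}) :=
    hHh.1.continuousOn.isOpen_inter_preimage (s.e c).open_target (isOpen_lt _)
  have hzS : z ∈ (s.e c).target ∩ H ⁻¹' {y | nsq y < 3 / 4} := ⟨hz, hy⟩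
  have hLs : ContDiffOn ℝ ∞ (fun x => Lcut (H x)) ((s.e c).target ∩ H ⁻¹' {y | nsq y < 3 / 4}) :=
    Lcut_smooth.comp (hHh.1.mono inter_subset_left) fun x hx => hx.2
  have hHS : HolOn H ((s.e c).target ∩ H ⁻¹' {y | nsq y < 3 / 4}) :=
    ⟨hHh.1.mono inter_subset_left, fun x hx => hHh.2 x hx.1⟩
  have ha : ContDiffAt ℝ ∞ (fun q : ℝ × Cn n => Lcut (H q.2)) (t, z) :=
    ContDiffAt.comp (t, z) (g := fun x => Lcut (H x)) (hLs.contDiffAt (hSo.mem_nhds hzS))
      contDiffAt_snd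
  have hF0 : 0 < lev (s.ψ c) (s.ξ k c z) (t, z) := s.lev_pos ht' hz hξ
  have hb : ContDiffAt ℝ ∞ (fun q : ℝ × Cn n => Real.log (lev (s.ψ c) (s.ξ k c q.2) q)) (t, z) := by
    refine ContDiffAt.log ?_ hF0.ne'
    exact (contDiffOn_lev_field hU hψ (s.ξ_holo k c).1).contDiffAt
      ((hU.inter (isOpen_univ.prod (s.e c).open_target)).mem_nhds
        ⟨hsub ⟨ht', hz⟩, mem_univ _, hz⟩)
  have hu : ContDiffAt ℝ ∞ (s.Uc c) (t, z) := s.Uc_isFun.contDiffAt ht' hz
  have hτ : ContDiffAt ℝ ∞ (fun q : ℝ × Cn n => q.1) (t, z) := contDiffAt_fst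
  have hff : ContDiffAt ℝ ∞ (s.ff A ε c k) (t, z) :=
    (((contDiffAt_const.mul ha).add hb).sub (contDiffAt_const.mul hu)).sub
      (contDiffAt_const.mul hτ)
  have hdt := dt_nonneg_of_max hff hr
  have hlev : ∀ v, lev (s.ff A ε c k) v (t, z) ≤ 0 := lev_nonpos_of_max hff hx
  have two := two_le_infty
  -- the time derivative
  have d1 : G.dt (s.ff A ε c k) (t, z) =
      G.dt (fun q : ℝ × Cn n => Real.log (lev (s.ψ c) (s.ξ k c q.2) q)) (t, z) -
        A * G.dt (s.Uc c) (t, z) - ε := by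
    have e1 : DifferentiableAt ℝ (fun q : ℝ × Cn n => Lcut (H q.2)) (t, z) :=
      (ha.of_le two).differentiableAt (by norm_num)
    have e2 := (hb.of_le two).differentiableAt (by norm_num)
    have e3 := (hu.of_le two).differentiableAt (by norm_num)
    have e4 := dt_snd (t := t) (g := fun x => Lcut (H x))
      (((hLs.contDiffAt (hSo.mem_nhds hzS)).of_le two).differentiableAt (by norm_num))
    unfold G.dt at e4 ⊢
    have f1 : DifferentiableAt ℝ (fun q : ℝ × Cn n => 2 * Lcut (H q.2)) (t, z) := e1.const_mul 2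
    have f2 : DifferentiableAt ℝ (fun q : ℝ × Cn n => 2 * Lcut (H q.2) +
      Real.log (lev (s.ψ c) (s.ξ k c q.2) q)) (t, z) := f1.add e2
    have f3 : DifferentiableAt ℝ (fun q : ℝ × Cn n => A * s.Uc c q) (t, z) := e3.const_mul A
    have f4 : DifferentiableAt ℝ (fun q : ℝ × Cn n => 2 * Lcut (H q.2) +
      Real.log (lev (s.ψ c) (s.ξ k c q.2) q) - A * s.Uc c q) (t, z) := f2.sub f3
    have e5 := dt_sub_time f4 ε
    unfold G.dt at e5
    change D (1, 0) (fun q => (2 * Lcut (H q.2) + Real.log (lev (s.ψ c) (s.ξ k c q.2) q) -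
      A * s.Uc c q) - ε * q.1) (t, z) = _
    rw [e5, D_sub f2 f3, D_add f1 e2, D_const_mul _ e1, D_const_mul _ e3, e4]
    ring
  -- the Levi form
  have d2 : ∀ v, lev (s.ff A ε c k) v (t, z) = 2 * levz (fun x => Lcut (H x)) v z +
      lev (fun q : ℝ × Cn n => Real.log (lev (s.ψ c) (s.ξ k c q.2) q)) v (t, z) -
        A * lev (s.Uc c) v (t, z) := by
    intro v
    have e1 : ContDiffAt ℝ 2 (fun q : ℝ × Cn n => Lcut (H q.2)) (t, z) := ha.of_le two
    have e2 := hb.of_le two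
    have e3 := hu.of_le two
    have e4 : ContDiffAt ℝ 2 (fun q : ℝ × Cn n => q.1) (t, z) := contDiffAt_fst
    change lev (fun q => ((2 * Lcut (H q.2) + Real.log (lev (s.ψ c) (s.ξ k c q.2) q)) -
      A * s.Uc c q) - ε * q.1) v (t, z) = _
    rw [lev_sub' (((contDiffAt_const.mul e1).add e2).sub (contDiffAt_const.mul e3))
      (contDiffAt_const.mul e4), lev_const_mul' _ e4, lev_time, lev_sub'
      ((contDiffAt_const.mul e1).add e2) (contDiffAt_const.mul e3), lev_const_mul' _ e3,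
      lev_add' (contDiffAt_const.mul e1) e2, lev_const_mul' _ e1, lev_snd hSo hLs hzS]
    ring
  -- the cut-off
  have d3 : ∀ v, levz (fun x => Lcut (H x)) v z = levz Lcut (fderiv ℝ H z v) (H z) := fun v =>
    levz_comp (isOpen_lt _) Lcut_smooth hSo hHS hzS hy v
  have d4 : ∀ v, levz (fun x => s.K (s.pc c) (H x)) v z =
      levz (s.K (s.pc c)) (fderiv ℝ H z v) (H z) := fun v =>
    levz_comp (isOpen_lt _) (s.K_smooth (s.pc c)) (s.e c).open_target hHh hz
      (lt_trans hy (by norm_num)) v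
  have d5 : ∀ v, -2 * levz (fun x => Lcut (H x)) v z ≤
      A * levz (fun x => s.K (s.pc c) (H x)) v z := by
    intro v
    rw [d3, d4]
    exact hA _
  have h3 : ∑ c', lev (fun q : ℝ × Cn n => Real.log (lev (s.ψ c) (s.ξ k c q.2) q)) (W c') (t, z) ≤
      ∑ c', (A * levz (fun x => s.K (s.pc c) (H x)) (W c') z + A * lev (s.Uc c) (W c') (t, z)) := by
    refine Finset.sum_le_sum fun c' _ => ?_
    have g1 := hlev (W c')
    rw [d2] at g1
    have g2 := d5 (W c')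
    linarith
  rw [Finset.sum_add_distrib, ← Finset.mul_sum, ← Finset.mul_sum] at h3
  rw [d1, h2] at hdt
  have h4 : (∑ k, levz (fun z => s.K (s.pc c) (s.h (s.pc c) ((s.e c).symm z))) (W k) z) =
    ∑ c', levz (fun x => s.K (s.pc c) (H x)) (W c') z := rfl
  rw [h4] at hdt
  nlinarith

/-- the function of the maximum principle -/
noncomputable def Setup.Sf (A : ℝ) (j : P) (k : F) (q : ℝ × M) : ℝ :=
  cut (nsq (s.h j q.2)) ^ 2 * s.Fn j k q * Real.exp (-A * glob s.atlas s.Uc q - q.1)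

theorem Setup.Sf_continuousOn (A : ℝ) (j : P) (k : F) :
    ContinuousOn (s.Sf A j k) (Ico 0 T ×ˢ s.V j) := by
  have h1 : ContinuousOn (fun q : ℝ × M => cut (nsq (s.h j q.2))) (Ico 0 T ×ˢ s.V j) := by
    rintro ⟨t, p⟩ ⟨-, hp⟩
    have h2 : ContinuousAt (fun q : ℝ × M => s.h j q.2) (t, p) :=
      (s.h_continuousAt hp).comp continuousAt_snd
    exact (ContinuousAt.comp (g := fun y => cut (nsq y))
      (cut_contDiff.continuous.comp contDiff_nsq.continuous).continuousAt h2).continuousWithinAt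
  have h3 : ContinuousOn (glob s.atlas s.Uc) (Ico 0 T ×ˢ s.V j) :=
    (glob_continuousOn s.atlas s.Uc_isFun).mono (prod_mono Subset.rfl (subset_univ _))
  refine ((h1.pow 2).mul (s.Fn_continuousOn j k)).mul ?_
  exact Real.continuous_exp.comp_continuousOn ((continuousOn_const.mul h3).sub continuousOn_fst)

theorem Setup.log_Sf (A : ℝ) {c : κ} {k : F} {t : ℝ} (ht : t ∈ Ico 0 T) {x : Cn n}
    (hx : x ∈ (s.e c).target) (hy : nsq (s.h (s.pc c) ((s.e c).symm x)) < 3 / 4)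
    (hξ : s.ξ k c x ≠ 0) : 0 < s.Sf A (s.pc c) k (t, (s.e c).symm x) ∧
      Real.log (s.Sf A (s.pc c) k (t, (s.e c).symm x)) = s.ff A 1 c k (t, x) := by
  have h1 := cut_pos hy
  have h2 := s.lev_pos ht hx hξ
  have hsrc := (s.e c).map_target hx
  have h3 : s.Sf A (s.pc c) k (t, (s.e c).symm x) =
      cut (nsq (s.h (s.pc c) ((s.e c).symm x))) ^ 2 * lev (s.ψ c) (s.ξ k c x) (t, x) *
        Real.exp (-A * s.Uc c (t, x) - t) := by
    unfold Setup.Sf
    rw [s.Fn_eq ht hsrc, glob_eq s.atlas s.Uc_isFun ht hsrc, (s.e c).right_inv hx]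
  rw [h3]
  refine ⟨by positivity, ?_⟩
  rw [Real.log_mul (by positivity) (Real.exp_pos _).ne', Real.log_mul (by positivity) h2.ne',
    Real.log_exp, Real.log_pow]
  unfold Setup.ff Lcut
  push_cast
  ring

theorem Setup.Sf_le [CompactSpace M] [T2Space M] [Finite P] (hT : 0 < T) {A C : ℝ}
    (hC : 1 ≤ C) (hdom : ∀ j i : P, j ≠ i → ∀ p,
      p ∈ s.V j → nsq (s.h j p) ≤ 3 / 4 → p ∈ s.V i → nsq (s.h i p) ≤ 1 / 2 →
      ∀ t ∈ Ico 0 T, ∀ k, s.Fn j k (t, p) ≤ C * ∑ k', s.Fn i k' (t, p))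
    (hA : ∀ j : P, ∀ y : Cn N, nsq y < 3 / 4 → 1 / (C * (Fintype.card F + 1)) ≤ cut (nsq y) →
      ∀ v, -2 * levz Lcut v y ≤ A * levz (s.K j) v y) :
    ∃ K : ℝ, 0 ≤ K ∧ ∀ j k, ∀ t ∈ Ico 0 T, ∀ p ∈ s.V j, nsq (s.h j p) ≤ 3 / 4 →
      s.Sf A j k (t, p) ≤ K := by
  have hKc : ∀ j : P, IsCompact {p | p ∈ s.V j ∧ nsq (s.h j p) ≤ 3 / 4} := fun j =>
    s.proper j (3 / 4) (by norm_num)
  -- the bound at the initial time
  obtain ⟨K, hK0, hK⟩ : ∃ K : ℝ, 0 ≤ K ∧ ∀ j k, ∀ p ∈ s.V j, nsq (s.h j p) ≤ 3 / 4 →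
      s.Sf A j k (0, p) ≤ K := by
    have h1 : ∀ x : P × F, ∃ K : ℝ, ∀ p ∈ s.V x.1, nsq (s.h x.1 p) ≤ 3 / 4 →
        s.Sf A x.1 x.2 (0, p) ≤ K := by
      rintro ⟨j, k⟩
      have h2 : ContinuousOn (fun p => s.Sf A j k (0, p)) {p | p ∈ s.V j ∧ nsq (s.h j p) ≤ 3 / 4} :=
        (s.Sf_continuousOn A j k).comp (by fun_prop) fun p hp => ⟨⟨le_rfl, hT⟩, hp.1⟩
      obtain ⟨K, hK⟩ := ((hKc j).image_of_continuousOn h2).bddAbove
      exact ⟨K, fun p hp hp' => hK (mem_image_of_mem _ ⟨hp, hp'⟩)⟩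
    choose K hK using h1
    obtain ⟨B, hB⟩ := (Set.finite_range K).bddAbove
    exact ⟨max B 0, le_max_right _ _, fun j k p hp hp' =>
      (hK (j, k) p hp hp').trans ((hB (mem_range_self (j, k))).trans (le_max_left _ _))⟩
  refine ⟨K, hK0, fun j₁ k₁ t₁ ht₁ p₁ hp₁ hp₁' => ?_⟩
  by_contra hcon
  push Not at hcon
  -- the maximum
  set S : Set ℝ := ⋃ x : P × F, (s.Sf A x.1 x.2) ''
    (Icc 0 t₁ ×ˢ {p | p ∈ s.V x.1 ∧ nsq (s.h x.1 p) ≤ 3 / 4}) with hS
  have hIco : ∀ t ∈ Icc 0 t₁, t ∈ Ico 0 T := fun t ht => ⟨ht.1, lt_of_le_of_lt ht.2 ht₁.2⟩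
  have hScomp : IsCompact S := by
    refine isCompact_iUnion fun x => ?_
    refine (isCompact_Icc.prod (hKc x.1)).image_of_continuousOn ?_
    exact (s.Sf_continuousOn A x.1 x.2).mono (prod_mono (fun t ht => hIco t ht) fun p hp => hp.1)
  have hmem : ∀ j k, ∀ t ∈ Icc 0 t₁, ∀ p ∈ s.V j, nsq (s.h j p) ≤ 3 / 4 →
      s.Sf A j k (t, p) ∈ S := fun j k t ht p hp hp' =>
    mem_iUnion.2 ⟨(j, k), mem_image_of_mem _ ⟨ht, hp, hp'⟩⟩
  have h1mem := hmem j₁ k₁ t₁ ⟨ht₁.1, le_rfl⟩ p₁ hp₁ hp₁'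
  obtain ⟨y, hyS, hymax⟩ := hScomp.exists_isGreatest ⟨_, h1mem⟩
  obtain ⟨⟨j, k⟩, ⟨t, p⟩, ⟨htI, hpV, hp34⟩, hyeq⟩ := mem_iUnion.1 hyS
  simp only at hpV hp34 hyeq htI
  have hmax : ∀ j' k', ∀ t' ∈ Icc 0 t₁, ∀ p' ∈ s.V j', nsq (s.h j' p') ≤ 3 / 4 →
      s.Sf A j' k' (t', p') ≤ s.Sf A j k (t, p) := by
    intro j' k' t' ht' p' hp' hp''
    rw [hyeq]
    exact hymax (hmem j' k' t' ht' p' hp' hp'')
  have hbig : K < s.Sf A j k (t, p) := hcon.trans_le (hmax j₁ k₁ t₁ ⟨ht₁.1, le_rfl⟩ p₁ hp₁ hp₁')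
  have htT := hIco t htI
  have htpos : 0 < t := by
    rcases htI.1.eq_or_lt with h | h
    · exfalso
      rw [← h] at hbig
      exact absurd (hK j k p hpV hp34) (not_le.2 hbig)
    · exact h
  have hSpos : 0 < s.Sf A j k (t, p) := lt_of_le_of_lt hK0 hbig
  have hEpos : 0 < Real.exp (-A * glob s.atlas s.Uc (t, p) - t) := Real.exp_pos _
  have hXF : 0 < cut (nsq (s.h j p)) ^ 2 * s.Fn j k (t, p) := by
    have : 0 < cut (nsq (s.h j p)) ^ 2 * s.Fn j k (t, p) *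
      Real.exp (-A * glob s.atlas s.Uc (t, p) - t) := hSpos
    exact (pos_iff_pos_of_mul_pos this).2 hEpos
  have hFpos : 0 < s.Fn j k (t, p) := by
    rcases (s.Fn_nonneg j k htT p).eq_or_lt with h | h
    · rw [← h, mul_zero] at hXF
      exact absurd hXF (lt_irrefl 0)
    · exact h
  have hp34' : nsq (s.h j p) < 3 / 4 := by
    by_contra h
    rw [cut_zero (not_lt.1 h)] at hXF
    simp at hXF
  obtain ⟨c, hcj, hc⟩ := hpV
  subst hcj
  -- the cut-off is not small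
  have hX : 1 / (C * (Fintype.card F + 1)) ≤ cut (nsq (s.h (s.pc c) p)) := by
    have hCF : (1 : ℝ) ≤ C * (Fintype.card F + 1) := by
      nlinarith [show (0 : ℝ) ≤ (Fintype.card F : ℝ) from Nat.cast_nonneg _]
    obtain ⟨c'', hc'', hlt⟩ := s.core p
    by_cases hpc : s.pc c = s.pc c''
    · rw [hpc, cut_one hlt.le, div_le_one (by linarith)]
      exact hCF
    · have g1 := hdom (s.pc c) (s.pc c'') hpc p ⟨c, rfl, hc⟩ hp34 ⟨c'', rfl, hc''⟩ hlt.le t htT k
      have g2 : ∀ k', s.Fn (s.pc c'') k' (t, p) ≤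
          cut (nsq (s.h (s.pc c) p)) ^ 2 * s.Fn (s.pc c) k (t, p) := by
        intro k'
        have g3 := hmax (s.pc c'') k' t htI p ⟨c'', rfl, hc''⟩ (hlt.le.trans (by norm_num))
        unfold Setup.Sf at g3
        rw [cut_one (show nsq (s.h (s.pc c'') (t, p).2) ≤ 1 / 2 from hlt.le)] at g3
        have g4 := le_of_mul_le_mul_right g3 hEpos
        simpa using g4
      have g5 : ∑ k', s.Fn (s.pc c'') k' (t, p) ≤
          Fintype.card F * (cut (nsq (s.h (s.pc c) p)) ^ 2 * s.Fn (s.pc c) k (t, p)) := by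
        refine (Finset.sum_le_sum fun k' _ => g2 k').trans ?_
        rw [Finset.sum_const, Finset.card_univ, nsmul_eq_mul]
      have hX0 := cut_nonneg (nsq (s.h (s.pc c) p))
      have hX1 := cut_le_one (nsq (s.h (s.pc c) p))
      set X := cut (nsq (s.h (s.pc c) p)) with hXdef
      set Φ := s.Fn (s.pc c) k (t, p) with hΦ
      have g6 : Φ ≤ (C * Fintype.card F * X ^ 2) * Φ := by
        calc Φ ≤ C * ∑ k', s.Fn (s.pc c'') k' (t, p) := g1
          _ ≤ C * (Fintype.card F * (X ^ 2 * Φ)) := mul_le_mul_of_nonneg_left g5 (by linarith)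
          _ = _ := by ring
      have g7 : 1 ≤ C * Fintype.card F * X ^ 2 := by
        by_contra hlt'
        push Not at hlt'
        nlinarith
      rw [div_le_iff₀ (by linarith)]
      have g8 : X ^ 2 ≤ X := by nlinarith
      have g9 : (0 : ℝ) ≤ Fintype.card F := Nat.cast_nonneg _
      nlinarith [mul_le_mul_of_nonneg_left g8 (mul_nonneg (by linarith : (0:ℝ) ≤ C) g9)]
  -- the contradiction in the chart `c`
  set z : Cn n := s.e c p with hz
  have hzt : z ∈ (s.e c).target := (s.e c).map_source hc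
  have hzp : (s.e c).symm z = p := (s.e c).left_inv hc
  have hξ : s.ξ k c z ≠ 0 := by
    intro h0
    rw [s.Fn_eq htT hc, ← hz, h0, lev_zero] at hFpos
    exact lt_irrefl _ hFpos
  have hHc : ContinuousAt (fun x => s.h (s.pc c) ((s.e c).symm x)) z :=
    (s.h_holo c).1.continuousOn.continuousAt ((s.e c).open_target.mem_nhds hzt)
  have hS0 := s.log_Sf A htT hzt (by rw [hzp]; exact hp34') hξ
  rw [hzp] at hS0
  refine s.crit (A := A) (ε := 1) (k := k) ⟨htpos, htT.2⟩ hzt one_pos (by rw [hzp]; exact hp34')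
    ?_ hξ ?_ ?_
  · rw [hzp]
    exact hA _ _ hp34' hX
  · have e1 : ∀ᶠ x in 𝓝 z, nsq (s.h (s.pc c) ((s.e c).symm x)) < 3 / 4 := by
      have : ContinuousAt (fun x => nsq (s.h (s.pc c) ((s.e c).symm x))) z :=
        ContinuousAt.comp (g := nsq) contDiff_nsq.continuous.continuousAt hHc
      exact this.eventually_lt continuousAt_const (by rw [hzp]; exact hp34')
    have e2 : ∀ᶠ x in 𝓝 z, s.ξ k c x ≠ 0 :=
      ((s.ξ_holo k c).1.continuousOn.continuousAt
        ((s.e c).open_target.mem_nhds hzt)).eventually_ne hξ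
    filter_upwards [e1, e2, (s.e c).open_target.mem_nhds hzt] with x h1 h2 h3
    obtain ⟨g1, g2⟩ := s.log_Sf A htT h3 h1 h2
    rw [← g2, ← hS0.2]
    exact Real.log_le_log g1 (hmax (s.pc c) k t htI _ ⟨c, rfl, (s.e c).map_target h3⟩ h1.le)
  · filter_upwards [Ioo_mem_nhdsLT htpos] with r hr
    have hrT : r ∈ Ico 0 T := ⟨hr.1.le, hr.2.trans htT.2⟩
    obtain ⟨g1, g2⟩ := s.log_Sf A hrT hzt (by rw [hzp]; exact hp34') hξ
    rw [hzp] at g1 g2
    rw [← g2, ← hS0.2]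
    exact Real.log_le_log g1 (hmax (s.pc c) k r ⟨hr.1.le, hr.2.le.trans htI.2⟩ _ ⟨c, rfl, hc⟩ hp34)

theorem Setup.fields_bounded [CompactSpace M] [T2Space M] [Finite κ] [Finite P] :
    ∃ C : ℝ, ∀ t ∈ Ico 0 T, ∀ c, ∀ z ∈ (s.e c).target,
      nsq (s.h (s.pc c) ((s.e c).symm z)) ≤ 1 / 2 → ∀ k, lev (s.ψ c) (s.ξ k c z) (t, z) ≤ C := by
  by_cases hT : 0 < T
  swap
  · exact ⟨0, fun t ht => absurd (lt_of_le_of_lt ht.1 ht.2) hT⟩
  obtain ⟨C, hC1, hdom⟩ := s.domination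
  obtain ⟨A, hA0, hA⟩ := s.exists_A (c₁ := 1 / (C * (Fintype.card F + 1))) (by positivity)
  obtain ⟨K, hK0, hK⟩ := s.Sf_le hT hC1 hdom hA
  obtain ⟨B, hB⟩ := s.Uc_le
  refine ⟨K * Real.exp (A * B + T), fun t ht c z hz hy k => ?_⟩
  have hsrc := (s.e c).map_target hz
  have h1 := hK (s.pc c) k t ht _ ⟨c, rfl, hsrc⟩ (hy.trans (by norm_num))
  unfold Setup.Sf at h1
  rw [s.Fn_eq ht hsrc, glob_eq s.atlas s.Uc_isFun ht hsrc, (s.e c).right_inv hz, cut_one hy] at h1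
  have h2 : Real.exp (-A * s.Uc c (t, z) - t) * Real.exp (A * s.Uc c (t, z) + t) = 1 := by
    rw [← Real.exp_add]
    simp
  have h3 : lev (s.ψ c) (s.ξ k c z) (t, z) ≤ K * Real.exp (A * s.Uc c (t, z) + t) := by
    have h4 := mul_le_mul_of_nonneg_right h1 (Real.exp_pos (A * s.Uc c (t, z) + t)).le
    have h5 : 1 ^ 2 * lev (s.ψ c) (s.ξ k c z) (t, z) * Real.exp (-A * s.Uc c (t, z) - t) *
        Real.exp (A * s.Uc c (t, z) + t) = lev (s.ψ c) (s.ξ k c z) (t, z) := by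
      rw [mul_assoc, h2]
      ring
    linarith
  refine h3.trans (mul_le_mul_of_nonneg_left (Real.exp_le_exp.2 ?_) hK0)
  have h6 := mul_le_mul_of_nonneg_left (hB c t ht z hz) hA0
  linarith [ht.2]

end Pool.Agent.KRFS

end

section

/-!
# The exponential bound for a Kähler-Ricci flow with semi-positive limit class (helper33)
-/

open scoped ContDiff ENNReal ComplexOrder
open Set Filter Topology Pool.Agent.ToricKRF Pool.Agent.ToricKRF.G Pool.Agent.KRFS

namespace Pool.Agent.KRFF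

namespace Ex

/-- the constant field `∂/∂z_k` -/
def Ek {n : ℕ} (k : Fin n) : Cn n := (Pi.single k 1, 0)

theorem Ek_ne {n : ℕ} (k : Fin n) : Ek k ≠ 0 := by
  intro h
  have h1 := congrFun (congrArg Prod.fst h) k
  simp [Ek] at h1

theorem holOn_const {n m : ℕ} (v : Cn m) (S : Set (Cn n)) : HolOn (fun _ : Cn n => v) S := by
  refine ⟨contDiffOn_const, fun z _ u => ?_⟩
  have h : J (0 : Cn m) = 0 := by simp [J, Prod.ext_iff]
  simp [h]

theorem gen_Ek {n : ℕ} (u : Cn n) : ∃ a b : Fin n → ℝ, u = ∑ k, (a k • Ek k + b k • J (Ek k)) := by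
  refine ⟨u.1, u.2, ?_⟩
  refine Prod.ext ?_ ?_
  · rw [Prod.fst_sum]
    funext i
    rw [Finset.sum_apply]
    simp [Ek, J, Pi.single_apply]
  · rw [Prod.snd_sum]
    funext i
    rw [Finset.sum_apply]
    simp [Ek, J, Pi.single_apply]

theorem exists_gen (n : ℕ) : ∃ C > 0, ∀ Q : Cn n → ℝ, IsQ Q → ∀ u,
    Q u ≤ C * ‖u‖ ^ 2 * ∑ k, Q (Ek k) := by
  obtain ⟨C, hC, h⟩ := gen_local (v := fun (k : Fin n) (_ : Cn n) => Ek k) (z₀ := 0)
    (fun k => continuousAt_const) (fun u => gen_Ek u)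
  exact ⟨C, hC, h.self_of_nhds⟩

theorem norm_sq_le (n : ℕ) (u : Cn n) : ‖u‖ ^ 2 ≤ nsq u := by
  have h0 : ∀ i, u.1 i ^ 2 ≤ nsq u := by
    intro i
    unfold nsq dotProduct
    have h1 : u.1 i * u.1 i ≤ ∑ i, u.1 i * u.1 i :=
      Finset.single_le_sum (f := fun i => u.1 i * u.1 i) (fun i _ => mul_self_nonneg _)
        (Finset.mem_univ i)
    have h2 : 0 ≤ ∑ i, u.2 i * u.2 i := Finset.sum_nonneg fun i _ => mul_self_nonneg _
    nlinarith
  have h0' : ∀ i, u.2 i ^ 2 ≤ nsq u := by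
    intro i
    unfold nsq dotProduct
    have h1 : u.2 i * u.2 i ≤ ∑ i, u.2 i * u.2 i :=
      Finset.single_le_sum (f := fun i => u.2 i * u.2 i) (fun i _ => mul_self_nonneg _)
        (Finset.mem_univ i)
    have h2 : 0 ≤ ∑ i, u.1 i * u.1 i := Finset.sum_nonneg fun i _ => mul_self_nonneg _
    nlinarith
  have hn : 0 ≤ nsq u := by
    unfold nsq dotProduct
    exact add_nonneg (Finset.sum_nonneg fun i _ => mul_self_nonneg _)
      (Finset.sum_nonneg fun i _ => mul_self_nonneg _)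
  have h1 : ‖u‖ ≤ √(nsq u) := by
    rw [norm_prod_le_iff, pi_norm_le_iff_of_nonneg (Real.sqrt_nonneg _),
      pi_norm_le_iff_of_nonneg (Real.sqrt_nonneg _)]
    exact ⟨fun i => Real.abs_le_sqrt (h0 i), fun i => Real.abs_le_sqrt (h0' i)⟩
  calc ‖u‖ ^ 2 ≤ √(nsq u) ^ 2 := pow_le_pow_left₀ (norm_nonneg _) h1 2
    _ = nsq u := Real.sq_sqrt hn

end Ex

open Ex

variable {n : ℕ} {M : Type} [TopologicalSpace M] {κ : Type} {T : ℝ} (F : Flow n M κ T)

/-- Coordinate balls whose halves cover `M`. -/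
structure Flow.Cov (ι : Type) where
  ch : ι → κ
  z0 : ι → Cn n
  r : ι → ℝ
  r_pos : ∀ i, 0 < r i
  sub : ∀ i, {z | nsq ((r i)⁻¹ • (z - z0 i)) ≤ 1} ⊆ (F.e (ch i)).target
  core : ∀ p, ∃ i, p ∈ (F.e (ch i)).source ∧ nsq ((r i)⁻¹ • (F.e (ch i) p - z0 i)) < 1 / 2

theorem Flow.exists_cov [CompactSpace M] : ∃ (s : Set M) (_ : Finite s), Nonempty (F.Cov s) := by
  have key : ∀ p : M, ∃ (c : κ) (r : ℝ), 0 < r ∧ p ∈ (F.e c).source ∧
      {z | nsq (r⁻¹ • (z - F.e c p)) ≤ 1} ⊆ (F.e c).target := by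
    intro p
    obtain ⟨c, hc⟩ := F.atlas.cover p
    obtain ⟨r, hr, hsub⟩ := Metric.nhds_basis_closedBall.mem_iff.1
      ((F.e c).open_target.mem_nhds ((F.e c).map_source hc))
    refine ⟨c, r, hr, hc, fun z hz => hsub ?_⟩
    have h1 := norm_le_of_nsq (show nsq (r⁻¹ • (z - F.e c p)) ≤ 1 from hz)
    rw [norm_smul, norm_inv, Real.norm_eq_abs, abs_of_pos hr] at h1
    rw [mem_closedBall_iff_norm]
    have h2 : r * (r⁻¹ * ‖z - F.e c p‖) = ‖z - F.e c p‖ := by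
      field_simp
    rw [← h2]
    calc r * (r⁻¹ * ‖z - F.e c p‖) ≤ r * 1 := mul_le_mul_of_nonneg_left h1 hr.le
      _ = r := mul_one r
  choose c r hr hs hsub using key
  set U : M → Set M := fun p => {q | q ∈ (F.e (c p)).source ∧
    nsq ((r p)⁻¹ • (F.e (c p) q - F.e (c p) p)) < 1 / 2} with hU
  have hUn : ∀ p, U p ∈ 𝓝 p := by
    intro p
    have h1 : ContinuousAt (fun q => nsq ((r p)⁻¹ • (F.e (c p) q - F.e (c p) p))) p := by
      refine ContinuousAt.comp (g := nsq) contDiff_nsq.continuous.continuousAt ?_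
      exact ContinuousAt.const_smul (((F.e (c p)).continuousAt (hs p)).sub continuousAt_const)
        ((r p)⁻¹)
    have h2 : nsq ((r p)⁻¹ • (F.e (c p) p - F.e (c p) p)) < 1 / 2 := by
      rw [sub_self, smul_zero]
      simp [nsq]
    filter_upwards [(F.e (c p)).open_source.mem_nhds (hs p), h1.eventually_lt continuousAt_const h2]
      with q h3 h4
    exact ⟨h3, h4⟩
  obtain ⟨t, -, ht⟩ := isCompact_univ.elim_nhds_subcover U (fun p _ => hUn p)
  have hcore : ∀ p : M, ∃ i : (t : Set M), p ∈ (F.e (c i)).source ∧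
      nsq ((r i)⁻¹ • (F.e (c i) p - F.e (c i) i)) < 1 / 2 := by
    intro p
    obtain ⟨q, hq, hp⟩ := mem_iUnion₂.1 (ht (mem_univ p))
    exact ⟨⟨q, hq⟩, hp.1, hp.2⟩
  exact ⟨(t : Set M), t.finite_toSet,
    ⟨⟨fun p => c p, fun p => F.e (c p) p, fun p => r p, fun p => hr p, fun p => hsub p, hcore⟩⟩⟩

variable {F} {ι : Type} (b : F.Cov ι)

/-- the scaled coordinate -/
noncomputable def Flow.Cov.h (i : ι) (z : Cn n) : Cn n := (b.r i)⁻¹ • (z - b.z0 i)

theorem Flow.Cov.h_contDiff (i : ι) : ContDiff ℝ ∞ (b.h i) := by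
  unfold Flow.Cov.h
  fun_prop

theorem Flow.Cov.isCompact_h (i : ι) {ρ : ℝ} (hρ : ρ ≤ 1) : IsCompact {z | nsq (b.h i z) ≤ ρ} := by
  refine Metric.isCompact_of_isClosed_isBounded ?_ ?_
  · exact isClosed_le (contDiff_nsq.continuous.comp (b.h_contDiff i).continuous) continuous_const
  · refine (Metric.isBounded_closedBall (x := b.z0 i) (r := b.r i)).subset fun z hz => ?_
    have h1 := norm_le_of_nsq ((show nsq (b.h i z) ≤ ρ from hz).trans hρ)
    have hr := b.r_pos i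
    unfold Flow.Cov.h at h1
    rw [norm_smul, norm_inv, Real.norm_eq_abs, abs_of_pos hr] at h1
    rw [mem_closedBall_iff_norm]
    have h2 : b.r i * ((b.r i)⁻¹ * ‖z - b.z0 i‖) = ‖z - b.z0 i‖ := by
      field_simp
    rw [← h2]
    calc b.r i * ((b.r i)⁻¹ * ‖z - b.z0 i‖) ≤ b.r i * 1 := mul_le_mul_of_nonneg_left h1 hr.le
      _ = b.r i := mul_one _

theorem Flow.Cov.isCompact_ball (i : ι) {ρ : ℝ} (hρ : ρ ≤ 1) :
    IsCompact {p | p ∈ (F.e (b.ch i)).source ∧ nsq (b.h i (F.e (b.ch i) p)) ≤ ρ} := by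
  have h1 : {p | p ∈ (F.e (b.ch i)).source ∧ nsq (b.h i (F.e (b.ch i) p)) ≤ ρ} =
      (F.e (b.ch i)).symm '' {z | nsq (b.h i z) ≤ ρ} := by
    ext p
    constructor
    · rintro ⟨hp, hp'⟩
      exact ⟨F.e (b.ch i) p, hp', (F.e (b.ch i)).left_inv hp⟩
    · rintro ⟨z, hz, rfl⟩
      have hzt : z ∈ (F.e (b.ch i)).target := b.sub i ((show nsq (b.h i z) ≤ ρ from hz).trans hρ)
      refine ⟨(F.e (b.ch i)).map_target hzt, ?_⟩
      rw [(F.e (b.ch i)).right_inv hzt]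
      exact hz
  rw [h1]
  refine (b.isCompact_h i hρ).image_of_continuousOn ?_
  exact (F.e (b.ch i)).symm.continuousOn.mono fun z hz =>
    b.sub i ((show nsq (b.h i z) ≤ ρ from hz).trans hρ)

theorem Flow.isQ (F : Flow n M κ T) {c : κ} {t : ℝ} (ht : t ∈ Ico 0 T) {z : Cn n}
    (hz : z ∈ (F.e c).target) : IsQ fun u => lev (F.ψ c) u (t, z) := by
  obtain ⟨U, hU, hsub, hs⟩ := F.krf.smooth c
  refine isQ_lev ((hs.contDiffAt (hU.mem_nhds (hsub ⟨ht, hz⟩))).of_le two_le_infty) fun u => ?_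
  rcases eq_or_ne u 0 with hu | hu
  · rw [hu, lev_zero]
  · exact (Bd.lev_psi_pos F ht hz hu).le

/-- the square of the length of the `k`-th field of the ball `i` -/
noncomputable def Flow.Cov.Fn (i : ι) (k : Fin n) (q : ℝ × M) : ℝ :=
  lev (F.ψ (b.ch i)) (Ek k) (q.1, F.e (b.ch i) q.2)

theorem Flow.Cov.Fn_nonneg {i : ι} (k : Fin n) {t : ℝ} (ht : t ∈ Ico 0 T) {p : M}
    (hp : p ∈ (F.e (b.ch i)).source) : 0 ≤ b.Fn i k (t, p) :=
  (F.isQ ht ((F.e (b.ch i)).map_source hp)).nonneg _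

theorem Flow.Cov.Fn_continuousOn (i : ι) (k : Fin n) :
    ContinuousOn (b.Fn i k) (Ico 0 T ×ˢ (F.e (b.ch i)).source) := by
  rintro ⟨t, p⟩ ⟨ht, hc⟩
  obtain ⟨U, hU, hsub, hψ⟩ := F.krf.smooth (b.ch i)
  have hz := (F.e (b.ch i)).map_source hc
  have h0 : ContinuousAt (fun q => lev (F.ψ (b.ch i)) (Ek k) q) (t, F.e (b.ch i) p) :=
    ((contDiffOn_lev_field (ξ := fun _ => Ek k) (S := (F.e (b.ch i)).target) hU hψ
      contDiffOn_const).continuousOn).continuousAt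
      ((hU.inter (isOpen_univ.prod (F.e (b.ch i)).open_target)).mem_nhds
        ⟨hsub ⟨ht, hz⟩, mem_univ _, hz⟩)
  have h2 : ContinuousAt (fun q : ℝ × M => (q.1, F.e (b.ch i) q.2)) (t, p) :=
    continuousAt_fst.prodMk (((F.e (b.ch i)).continuousAt hc).comp continuousAt_snd)
  have h1 : ContinuousAt (fun q : ℝ × M => lev (F.ψ (b.ch i)) (Ek k) (q.1, F.e (b.ch i) q.2))
      (t, p) :=
    ContinuousAt.comp (f := fun q : ℝ × M => (q.1, F.e (b.ch i) q.2))
      (g := fun q => lev (F.ψ (b.ch i)) (Ek k) q) h0 h2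
  exact h1.continuousWithinAt

/-- local domination, for all vectors -/
theorem Flow.Cov.dom_vec (c : κ) {i : ι} {p₀ : M} (hc : p₀ ∈ (F.e c).source)
    (hi : p₀ ∈ (F.e (b.ch i)).source) :
    ∃ C : ℝ, 0 ≤ C ∧ ∀ᶠ p in 𝓝 p₀, ∀ t ∈ Ico 0 T, ∀ u : Cn n,
      lev (F.ψ c) u (t, F.e c p) ≤ C * nsq u * ∑ k', b.Fn i k' (t, p) := by
  obtain ⟨C₁, hC₁, hgen⟩ := exists_gen n
  set L : M → Cn n →L[ℝ] Cn n := fun p => fderiv ℝ (tr F.e c (b.ch i)) (F.e c p) with hL
  have hd := mem_dom hc hi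
  have hLcont : ContinuousAt L p₀ := by
    have h1 : ContDiffOn ℝ ∞ (fderiv ℝ (tr F.e c (b.ch i))) (dom F.e c (b.ch i)) :=
      ((contDiffOn_infty_iff_fderiv_of_isOpen (isOpen_dom c (b.ch i))).1
        (F.atlas.holo c (b.ch i)).1).2
    have h2 : ContinuousAt (fderiv ℝ (tr F.e c (b.ch i))) (F.e c p₀) :=
      h1.continuousOn.continuousAt ((isOpen_dom c (b.ch i)).mem_nhds hd)
    exact ContinuousAt.comp (g := fderiv ℝ (tr F.e c (b.ch i))) h2 ((F.e c).continuousAt hc)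
  set C₂ : ℝ := ‖L p₀‖ + 1 with hC₂
  have hub : ∀ᶠ p in 𝓝 p₀, ‖L p‖ ≤ C₂ := by
    have h1 := hLcont.norm.eventually_lt (continuousAt_const (y := ‖L p₀‖ + 1)) (by linarith)
    filter_upwards [h1] with p hp
    exact hp.le
  have hC₂0 : 0 ≤ C₂ := by positivity
  refine ⟨C₁ * C₂ ^ 2, by positivity, ?_⟩
  filter_upwards [hub, (F.e c).open_source.mem_nhds hc,
    (F.e (b.ch i)).open_source.mem_nhds hi] with p h1 h3 h4 t ht u
  have hzp' := (F.e (b.ch i)).map_source h4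
  have h5 := hgen _ (F.isQ ht hzp') (L p u)
  have h7 : lev (F.ψ c) u (t, F.e c p) =
      lev (F.ψ (b.ch i)) (L p u) (t, F.e (b.ch i) p) := by
    rw [F.krf.compat c (b.ch i) t ht _ (mem_dom h3 h4), tr_apply h3]
  rw [h7]
  refine h5.trans ?_
  have h8 : 0 ≤ ∑ k', b.Fn i k' (t, p) := Finset.sum_nonneg fun k' _ => b.Fn_nonneg k' ht h4
  refine mul_le_mul_of_nonneg_right ?_ h8
  have h9 : ‖L p u‖ ≤ C₂ * ‖u‖ := ((L p).le_opNorm u).trans
    (mul_le_mul_of_nonneg_right h1 (norm_nonneg _))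
  have h10 : ‖L p u‖ ^ 2 ≤ C₂ ^ 2 * nsq u := by
    calc ‖L p u‖ ^ 2 ≤ (C₂ * ‖u‖) ^ 2 := pow_le_pow_left₀ (norm_nonneg _) h9 2
      _ = C₂ ^ 2 * ‖u‖ ^ 2 := by ring
      _ ≤ C₂ ^ 2 * nsq u := mul_le_mul_of_nonneg_left (norm_sq_le n u) (sq_nonneg _)
  calc C₁ * ‖L p u‖ ^ 2 ≤ C₁ * (C₂ ^ 2 * nsq u) := mul_le_mul_of_nonneg_left h10 hC₁.le
    _ = C₁ * C₂ ^ 2 * nsq u := by ring

theorem nsq_Ek (k : Fin n) : nsq (Ek k) = 1 := by
  simp [nsq, Ek]

theorem Flow.Cov.domination [T2Space M] [Finite ι] : ∃ C : ℝ, 1 ≤ C ∧ ∀ j i : ι, ∀ p,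
    p ∈ (F.e (b.ch j)).source → nsq (b.h j (F.e (b.ch j) p)) ≤ 3 / 4 →
    p ∈ (F.e (b.ch i)).source → nsq (b.h i (F.e (b.ch i) p)) ≤ 1 / 2 →
    ∀ t ∈ Ico 0 T, ∀ k, b.Fn j k (t, p) ≤ C * ∑ k', b.Fn i k' (t, p) := by
  have key : ∀ x : ι × ι, ∃ C : ℝ, 0 ≤ C ∧ ∀ p,
      p ∈ (F.e (b.ch x.1)).source → nsq (b.h x.1 (F.e (b.ch x.1) p)) ≤ 3 / 4 →
      p ∈ (F.e (b.ch x.2)).source → nsq (b.h x.2 (F.e (b.ch x.2) p)) ≤ 1 / 2 →
      ∀ t ∈ Ico 0 T, ∀ k, b.Fn x.1 k (t, p) ≤ C * ∑ k', b.Fn x.2 k' (t, p) := by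
    rintro ⟨j, i⟩
    have hK : IsCompact
        ({p | p ∈ (F.e (b.ch j)).source ∧ nsq (b.h j (F.e (b.ch j) p)) ≤ 3 / 4} ∩
        {p | p ∈ (F.e (b.ch i)).source ∧ nsq (b.h i (F.e (b.ch i) p)) ≤ 1 / 2}) :=
      (b.isCompact_ball j (by norm_num)).inter (b.isCompact_ball i (by norm_num))
    obtain ⟨C, hC, h⟩ := hK.induction_on
      (p := fun S => ∃ C : ℝ, 0 ≤ C ∧ ∀ p ∈ S, p ∈ (F.e (b.ch i)).source → ∀ t ∈ Ico 0 T, ∀ k,
        b.Fn j k (t, p) ≤ C * ∑ k', b.Fn i k' (t, p))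
      ⟨0, le_rfl, fun p hp => absurd hp (notMem_empty p)⟩
      (fun S S' hSS ⟨C, hC, h⟩ => ⟨C, hC, fun p hp => h p (hSS hp)⟩)
      (fun S S' ⟨C, hC, h⟩ ⟨C', hC', h'⟩ => ⟨max C C', le_max_of_le_left hC,
        fun p hp hpi t ht k => by
        have h0 : 0 ≤ ∑ k', b.Fn i k' (t, p) :=
          Finset.sum_nonneg fun k' _ => b.Fn_nonneg k' ht hpi
        rcases hp with hp | hp
        · exact (h p hp hpi t ht k).trans (mul_le_mul_of_nonneg_right (le_max_left _ _) h0)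
        · exact (h' p hp hpi t ht k).trans (mul_le_mul_of_nonneg_right (le_max_right _ _) h0)⟩)
      (fun p₀ hp₀ => by
        obtain ⟨C, hC, h⟩ := b.dom_vec (b.ch j) hp₀.1.1 hp₀.2.1
        refine ⟨_, mem_nhdsWithin_of_mem_nhds h, C, hC, fun p hp _ t ht k => ?_⟩
        have h1 := hp t ht (Ek k)
        rw [nsq_Ek, mul_one] at h1
        exact h1)
    exact ⟨C, hC, fun p h1 h2 h3 h4 => h p ⟨⟨h1, h2⟩, ⟨h3, h4⟩⟩ h3⟩
  choose C hC h using key
  obtain ⟨B, hB⟩ := (Set.finite_range C).bddAbove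
  refine ⟨max B 1, le_max_right _ _, fun j i p h1 h2 h3 h4 t ht k => ?_⟩
  refine (h (j, i) p h1 h2 h3 h4 t ht k).trans ?_
  refine mul_le_mul_of_nonneg_right ?_ (Finset.sum_nonneg fun k' _ => b.Fn_nonneg k' ht h3)
  exact (hB (mem_range_self (j, i))).trans (le_max_left _ _)

theorem Flow.Cov.Lcut_smooth (i : ι) :
    ContDiffOn ℝ ∞ (fun z => Lcut (b.h i z)) {z | nsq (b.h i z) < 3 / 4} :=
  KRFS.Lcut_smooth.comp (b.h_contDiff i).contDiffOn fun _ hz => hz

theorem Flow.Cov.isOpen_h (i : ι) (ρ : ℝ) : IsOpen {z | nsq (b.h i z) < ρ} :=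
  (isOpen_lt ρ).preimage (b.h_contDiff i).continuous

theorem Flow.Cov.sub' (i : ι) {ρ : ℝ} (hρ : ρ ≤ 1) :
    {z | nsq (b.h i z) < ρ} ⊆ (F.e (b.ch i)).target := fun _ hz =>
  b.sub i ((le_of_lt hz).trans hρ)

theorem Flow.Cov.exists_A [Finite ι] (hT : 0 < T) {c₁ : ℝ} (hc : 0 < c₁) :
    ∃ A : ℝ, 0 ≤ A ∧ ∀ i : ι, ∀ z : Cn n,
    nsq (b.h i z) < 3 / 4 → c₁ ≤ cut (nsq (b.h i z)) →
      ∀ v, -2 * levz (fun x => Lcut (b.h i x)) v z ≤ A * lev (F.ψ (b.ch i)) v (0, z) := by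
  have h0T : (0 : ℝ) ∈ Ico 0 T := ⟨le_rfl, hT⟩
  have hpos : ∀ i, ∀ z : Cn n, nsq (b.h i z) < 3 / 4 → ∀ v, 0 ≤ lev (F.ψ (b.ch i)) v (0, z) :=
    fun i z hz v => (F.isQ h0T (b.sub' i (by norm_num) hz)).nonneg v
  have key : ∀ i : ι, ∃ A : ℝ, 0 ≤ A ∧ ∀ z : Cn n,
      nsq (b.h i z) < 3 / 4 → c₁ ≤ cut (nsq (b.h i z)) →
      ∀ v, -2 * levz (fun x => Lcut (b.h i x)) v z ≤ A * lev (F.ψ (b.ch i)) v (0, z) := by
    intro i
    have hopen := b.isOpen_h i (3 / 4)
    have hcomp : IsCompact ({z | nsq (b.h i z) ≤ 3 / 4} ∩ {z | c₁ ≤ cut (nsq (b.h i z))}) :=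
      (b.isCompact_h i (by norm_num)).inter_right (isClosed_le continuous_const
        (cut_contDiff.continuous.comp (contDiff_nsq.continuous.comp (b.h_contDiff i).continuous)))
    obtain ⟨A, hA, h⟩ := hcomp.induction_on
      (p := fun S => ∃ A : ℝ, 0 ≤ A ∧ ∀ z ∈ S, nsq (b.h i z) < 3 / 4 → ∀ v,
        -2 * levz (fun x => Lcut (b.h i x)) v z ≤ A * lev (F.ψ (b.ch i)) v (0, z))
      ⟨0, le_rfl, fun p hp => absurd hp (notMem_empty p)⟩
      (fun S S' hSS ⟨C, hC, h⟩ => ⟨C, hC, fun p hp => h p (hSS hp)⟩)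
      (fun S S' ⟨C, hC, h⟩ ⟨C', hC', h'⟩ => ⟨max C C', le_max_of_le_left hC, fun p hp hp' v => by
        rcases hp with hp | hp
        · exact (h p hp hp' v).trans (mul_le_mul_of_nonneg_right (le_max_left _ _) (hpos i p hp' v))
        · exact (h' p hp hp' v).trans
            (mul_le_mul_of_nonneg_right (le_max_right _ _) (hpos i p hp' v))⟩)
      (fun y hy => by
        have hy' : nsq (b.h i y) < 3 / 4 := by
          by_contra hcon
          have h1 := cut_zero (not_lt.1 hcon)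
          have h2 : c₁ ≤ cut (nsq (b.h i y)) := hy.2
          linarith
        obtain ⟨C, hC, h⟩ := KRFS.Bd.levz_le_local (f := fun z => (-2) * Lcut (b.h i z))
          (g := fun z => F.ψ (b.ch i) (0, z)) hopen
          (contDiffOn_const.mul (b.Lcut_smooth i))
          ((Bd.smooth_psi0 F hT (b.ch i)).mono (b.sub' i (by norm_num))) hy'
          (fun x hx u hu => by
            rw [Bd.levz_psi0 F hT (b.sub' i (by norm_num) hx)]
            exact Bd.lev_psi_pos F h0T (b.sub' i (by norm_num) hx) hu)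
        refine ⟨_, mem_nhdsWithin_of_mem_nhds h, C, hC, fun x hx hx' v => ?_⟩
        have h2 := hx v
        rwa [KRFS.Bd.levz_const_mul (-2) (((b.Lcut_smooth i).contDiffAt (hopen.mem_nhds hx')).of_le
          two_le_infty), Bd.levz_psi0 F hT (b.sub' i (by norm_num) hx')] at h2)
    exact ⟨A, hA, fun z h1 h2 v => h z ⟨h1.le, h2⟩ h1 v⟩
  choose A hA h using key
  obtain ⟨B, hB⟩ := (Set.finite_range A).bddAbove
  refine ⟨max B 0, le_max_right _ _, fun i z h1 h2 v => ?_⟩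
  refine (h i z h1 h2 v).trans (mul_le_mul_of_nonneg_right ?_ (hpos i z h1 v))
  exact (hB (mem_range_self i)).trans (le_max_left _ _)

/-- `- (t φ' - φ - n t)` -/
noncomputable def Flow.UU (F : Flow n M κ T) (c : κ) : ℝ × Cn n → ℝ := F.Gc 0 (-1) 1 n c

theorem Flow.UU_isFun (F : Flow n M κ T) : IsFun F.e T F.UU := Bd.Gc_isFun F 0 (-1) 1 n

theorem Flow.UU_evol (F : Flow n M κ T) {c : κ} {t : ℝ} (ht : t ∈ Ioo 0 T) {z : Cn n}
    (hz : z ∈ (F.e c).target) {W : Fin n → Cn n} (hW : IsUFrame (F.ψ c) (t, z) W) :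
    G.dt (F.UU c) (t, z) = ∑ k, lev (F.UU c) (W k) (t, z) + ∑ k, lev (F.ψ c) (W k) (0, z) := by
  have h := Bd.Gc_evol F 0 (-1) 1 n ht hz hW
  unfold Flow.UU
  rw [h]
  ring

/-- the function of the maximum principle, in the chart of the ball `i` -/
noncomputable def Flow.Cov.ff (A ε : ℝ) (i : ι) (k : Fin n) : ℝ × Cn n → ℝ := fun q =>
  2 * Lcut (b.h i q.2) + Real.log (lev (F.ψ (b.ch i)) (Ek k) q) -
    A * F.UU (b.ch i) q - ε * q.1

theorem Flow.Cov.crit {i : ι} {t : ℝ} (ht : t ∈ Ioo 0 T) {z : Cn n}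
    (hy : nsq (b.h i z) < 3 / 4) {k : Fin n} {A ε : ℝ} (hε : 0 < ε)
    (hA : ∀ v, -2 * levz (fun x => Lcut (b.h i x)) v z ≤ A * lev (F.ψ (b.ch i)) v (0, z))
    (hx : ∀ᶠ x in 𝓝 z, b.ff A ε i k (t, x) ≤ b.ff A ε i k (t, z))
    (hr : ∀ᶠ r in 𝓝[<] t, b.ff A ε i k (r, z) ≤ b.ff A ε i k (t, z)) : False := by
  have ht' : t ∈ Ico 0 T := ⟨ht.1.le, ht.2⟩
  have hz : z ∈ (F.e (b.ch i)).target := b.sub' i (by norm_num) hy
  have hξ : Ek k ≠ 0 := Ek_ne k
  obtain ⟨U, hU, hsub, hψ⟩ := F.krf.smooth (b.ch i)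
  set U₁ : Set (ℝ × Cn n) := U ∩ (Ioo 0 T ×ˢ (F.e (b.ch i)).target) with hU₁
  have hU₁o : IsOpen U₁ := hU.inter (isOpen_Ioo.prod (F.e (b.ch i)).open_target)
  have hψ₁ : ContDiffOn ℝ ∞ (F.ψ (b.ch i)) U₁ := hψ.mono inter_subset_left
  have hpU : (t, z) ∈ U₁ := ⟨hsub ⟨ht', hz⟩, ht, hz⟩
  have hpos₁ : ∀ p ∈ U₁, (cHess (F.ψ (b.ch i)) p).PosDef := fun p hp =>
    F.krf.pos (b.ch i) p.1 ⟨hp.2.1.1.le, hp.2.1.2⟩ p.2 hp.2.2
  have hflow₁ : ∀ p ∈ U₁, G.dt (F.ψ (b.ch i)) p = Real.log (cHess (F.ψ (b.ch i)) p).det.re :=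
    fun p hp => F.krf.flow (b.ch i) p.1 hp.2.1 p.2 hp.2.2
  obtain ⟨W, hW, hev⟩ := evol_field hU₁o hψ₁ hpos₁ hflow₁ hpU
  have h1 := hev (fun _ => Ek k) (F.e (b.ch i)).target (F.e (b.ch i)).open_target hz
    (holOn_const _ _) hξ
  have h2 := F.UU_evol ht hz hW
  -- smoothness of the parts
  have hSo := b.isOpen_h i (3 / 4)
  have hzS : z ∈ {x | nsq (b.h i x) < 3 / 4} := hy
  have hLs := b.Lcut_smooth i
  have ha : ContDiffAt ℝ ∞ (fun q : ℝ × Cn n => Lcut (b.h i q.2)) (t, z) :=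
    ContDiffAt.comp (t, z) (g := fun x => Lcut (b.h i x)) (hLs.contDiffAt (hSo.mem_nhds hzS))
      contDiffAt_snd
  have hF0 : 0 < lev (F.ψ (b.ch i)) (Ek k) (t, z) := Bd.lev_psi_pos F ht' hz hξ
  have hb : ContDiffAt ℝ ∞ (fun q : ℝ × Cn n => Real.log (lev (F.ψ (b.ch i)) (Ek k) q))
      (t, z) := by
    refine ContDiffAt.log ?_ hF0.ne'
    exact (contDiffOn_lev_field (ξ := fun _ => Ek k) (S := (F.e (b.ch i)).target) hU hψ
      contDiffOn_const).contDiffAt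
      ((hU.inter (isOpen_univ.prod (F.e (b.ch i)).open_target)).mem_nhds
        ⟨hsub ⟨ht', hz⟩, mem_univ _, hz⟩)
  have hu : ContDiffAt ℝ ∞ (F.UU (b.ch i)) (t, z) := F.UU_isFun.contDiffAt ht' hz
  have hτ : ContDiffAt ℝ ∞ (fun q : ℝ × Cn n => q.1) (t, z) := contDiffAt_fst
  have hff : ContDiffAt ℝ ∞ (b.ff A ε i k) (t, z) :=
    (((contDiffAt_const.mul ha).add hb).sub (contDiffAt_const.mul hu)).sub
      (contDiffAt_const.mul hτ)
  have hdt := dt_nonneg_of_max hff hr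
  have hlev : ∀ v, lev (b.ff A ε i k) v (t, z) ≤ 0 := lev_nonpos_of_max hff hx
  have two := two_le_infty
  -- the time derivative
  have d1 : G.dt (b.ff A ε i k) (t, z) =
      G.dt (fun q : ℝ × Cn n => Real.log (lev (F.ψ (b.ch i)) (Ek k) q)) (t, z) -
        A * G.dt (F.UU (b.ch i)) (t, z) - ε := by
    have e1 : DifferentiableAt ℝ (fun q : ℝ × Cn n => Lcut (b.h i q.2)) (t, z) :=
      (ha.of_le two).differentiableAt (by norm_num)
    have e2 := (hb.of_le two).differentiableAt (by norm_num)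
    have e3 := (hu.of_le two).differentiableAt (by norm_num)
    have e4 := dt_snd (t := t) (g := fun x => Lcut (b.h i x))
      (((hLs.contDiffAt (hSo.mem_nhds hzS)).of_le two).differentiableAt (by norm_num))
    unfold G.dt at e4 ⊢
    have f1 : DifferentiableAt ℝ (fun q : ℝ × Cn n => 2 * Lcut (b.h i q.2)) (t, z) :=
      e1.const_mul 2
    have f2 : DifferentiableAt ℝ (fun q : ℝ × Cn n => 2 * Lcut (b.h i q.2) +
      Real.log (lev (F.ψ (b.ch i)) (Ek k) q)) (t, z) := f1.add e2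
    have f3 : DifferentiableAt ℝ (fun q : ℝ × Cn n => A * F.UU (b.ch i) q) (t, z) :=
      e3.const_mul A
    have f4 : DifferentiableAt ℝ (fun q : ℝ × Cn n => 2 * Lcut (b.h i q.2) +
      Real.log (lev (F.ψ (b.ch i)) (Ek k) q) - A * F.UU (b.ch i) q) (t, z) := f2.sub f3
    have e5 := dt_sub_time f4 ε
    unfold G.dt at e5
    change D (1, 0) (fun q => (2 * Lcut (b.h i q.2) + Real.log (lev (F.ψ (b.ch i)) (Ek k) q) -
      A * F.UU (b.ch i) q) - ε * q.1) (t, z) = _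
    rw [e5, D_sub f2 f3, D_add f1 e2, D_const_mul _ e1, D_const_mul _ e3, e4]
    ring
  -- the Levi form
  have d2 : ∀ v, lev (b.ff A ε i k) v (t, z) = 2 * levz (fun x => Lcut (b.h i x)) v z +
      lev (fun q : ℝ × Cn n => Real.log (lev (F.ψ (b.ch i)) (Ek k) q)) v (t, z) -
        A * lev (F.UU (b.ch i)) v (t, z) := by
    intro v
    have e1 : ContDiffAt ℝ 2 (fun q : ℝ × Cn n => Lcut (b.h i q.2)) (t, z) := ha.of_le two
    have e2 := hb.of_le two
    have e3 := hu.of_le two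
    have e4 : ContDiffAt ℝ 2 (fun q : ℝ × Cn n => q.1) (t, z) := contDiffAt_fst
    change lev (fun q => ((2 * Lcut (b.h i q.2) + Real.log (lev (F.ψ (b.ch i)) (Ek k) q)) -
      A * F.UU (b.ch i) q) - ε * q.1) v (t, z) = _
    rw [lev_sub' (((contDiffAt_const.mul e1).add e2).sub (contDiffAt_const.mul e3))
      (contDiffAt_const.mul e4), lev_const_mul' _ e4, lev_time, lev_sub'
      ((contDiffAt_const.mul e1).add e2) (contDiffAt_const.mul e3), lev_const_mul' _ e3,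
      lev_add' (contDiffAt_const.mul e1) e2, lev_const_mul' _ e1, lev_snd hSo hLs hzS]
    ring
  have h3 : ∑ c', lev (fun q : ℝ × Cn n => Real.log (lev (F.ψ (b.ch i)) (Ek k) q)) (W c')
      (t, z) ≤ ∑ c', (A * lev (F.ψ (b.ch i)) (W c') (0, z) +
        A * lev (F.UU (b.ch i)) (W c') (t, z)) := by
    refine Finset.sum_le_sum fun c' _ => ?_
    have g1 := hlev (W c')
    rw [d2] at g1
    have g2 := hA (W c')
    linarith
  rw [Finset.sum_add_distrib, ← Finset.mul_sum, ← Finset.mul_sum] at h3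
  rw [d1, h2] at hdt
  nlinarith

/-- the function of the maximum principle -/
noncomputable def Flow.Cov.Sf (A : ℝ) (i : ι) (k : Fin n) (q : ℝ × M) : ℝ :=
  cut (nsq (b.h i (F.e (b.ch i) q.2))) ^ 2 * b.Fn i k q *
    Real.exp (-A * glob F.atlas F.UU q - q.1)

theorem Flow.Cov.Sf_continuousOn (A : ℝ) (i : ι) (k : Fin n) :
    ContinuousOn (b.Sf A i k) (Ico 0 T ×ˢ (F.e (b.ch i)).source) := by
  have h1 : ContinuousOn (fun q : ℝ × M => cut (nsq (b.h i (F.e (b.ch i) q.2))))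
      (Ico 0 T ×ˢ (F.e (b.ch i)).source) := by
    rintro ⟨t, p⟩ ⟨-, hp⟩
    have h2 : ContinuousAt (fun q : ℝ × M => F.e (b.ch i) q.2) (t, p) :=
      ((F.e (b.ch i)).continuousAt hp).comp continuousAt_snd
    exact (ContinuousAt.comp (g := fun y => cut (nsq (b.h i y)))
      (cut_contDiff.continuous.comp (contDiff_nsq.continuous.comp
        (b.h_contDiff i).continuous)).continuousAt h2).continuousWithinAt
  have h3 : ContinuousOn (glob F.atlas F.UU) (Ico 0 T ×ˢ (F.e (b.ch i)).source) :=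
    (glob_continuousOn F.atlas F.UU_isFun).mono (prod_mono Subset.rfl (subset_univ _))
  refine ((h1.pow 2).mul (b.Fn_continuousOn i k)).mul ?_
  exact Real.continuous_exp.comp_continuousOn ((continuousOn_const.mul h3).sub continuousOn_fst)

theorem Flow.Cov.log_Sf (A : ℝ) {i : ι} {k : Fin n} {t : ℝ} (ht : t ∈ Ico 0 T) {x : Cn n}
    (hy : nsq (b.h i x) < 3 / 4) : 0 < b.Sf A i k (t, (F.e (b.ch i)).symm x) ∧
      Real.log (b.Sf A i k (t, (F.e (b.ch i)).symm x)) = b.ff A 1 i k (t, x) := by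
  have hx : x ∈ (F.e (b.ch i)).target := b.sub' i (by norm_num) hy
  have h1 := cut_pos hy
  have h2 := Bd.lev_psi_pos F ht hx (Ek_ne k)
  have hsrc := (F.e (b.ch i)).map_target hx
  have h3 : b.Sf A i k (t, (F.e (b.ch i)).symm x) =
      cut (nsq (b.h i x)) ^ 2 * lev (F.ψ (b.ch i)) (Ek k) (t, x) *
        Real.exp (-A * F.UU (b.ch i) (t, x) - t) := by
    unfold Flow.Cov.Sf Flow.Cov.Fn
    rw [glob_eq F.atlas F.UU_isFun ht hsrc, (F.e (b.ch i)).right_inv hx]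
  rw [h3]
  refine ⟨by positivity, ?_⟩
  rw [Real.log_mul (by positivity) (Real.exp_pos _).ne', Real.log_mul (by positivity) h2.ne',
    Real.log_exp, Real.log_pow]
  unfold Flow.Cov.ff Lcut
  push_cast
  ring

theorem Flow.Cov.Sf_le [CompactSpace M] [T2Space M] [Finite ι] (hT : 0 < T) {A C : ℝ}
    (hC : 1 ≤ C) (hdom : ∀ j i : ι, ∀ p,
      p ∈ (F.e (b.ch j)).source → nsq (b.h j (F.e (b.ch j) p)) ≤ 3 / 4 →
      p ∈ (F.e (b.ch i)).source → nsq (b.h i (F.e (b.ch i) p)) ≤ 1 / 2 →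
      ∀ t ∈ Ico 0 T, ∀ k, b.Fn j k (t, p) ≤ C * ∑ k', b.Fn i k' (t, p))
    (hA : ∀ i : ι, ∀ z : Cn n, nsq (b.h i z) < 3 / 4 → 1 / (C * (n + 1)) ≤ cut (nsq (b.h i z)) →
      ∀ v, -2 * levz (fun x => Lcut (b.h i x)) v z ≤ A * lev (F.ψ (b.ch i)) v (0, z)) :
    ∃ K : ℝ, 0 ≤ K ∧ ∀ j k, ∀ t ∈ Ico 0 T, ∀ p ∈ (F.e (b.ch j)).source,
      nsq (b.h j (F.e (b.ch j) p)) ≤ 3 / 4 → b.Sf A j k (t, p) ≤ K := by
  have hKc : ∀ j : ι, IsCompact {p | p ∈ (F.e (b.ch j)).source ∧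
      nsq (b.h j (F.e (b.ch j) p)) ≤ 3 / 4} := fun j => b.isCompact_ball j (by norm_num)
  -- the bound at the initial time
  obtain ⟨K, hK0, hK⟩ : ∃ K : ℝ, 0 ≤ K ∧ ∀ j k, ∀ p ∈ (F.e (b.ch j)).source,
      nsq (b.h j (F.e (b.ch j) p)) ≤ 3 / 4 → b.Sf A j k (0, p) ≤ K := by
    have h1 : ∀ x : ι × Fin n, ∃ K : ℝ, ∀ p ∈ (F.e (b.ch x.1)).source,
        nsq (b.h x.1 (F.e (b.ch x.1) p)) ≤ 3 / 4 → b.Sf A x.1 x.2 (0, p) ≤ K := by
      rintro ⟨j, k⟩
      have h2 : ContinuousOn (fun p => b.Sf A j k (0, p)) {p | p ∈ (F.e (b.ch j)).source ∧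
          nsq (b.h j (F.e (b.ch j) p)) ≤ 3 / 4} :=
        (b.Sf_continuousOn A j k).comp (by fun_prop) fun p hp => ⟨⟨le_rfl, hT⟩, hp.1⟩
      obtain ⟨K, hK⟩ := ((hKc j).image_of_continuousOn h2).bddAbove
      exact ⟨K, fun p hp hp' => hK (mem_image_of_mem _ ⟨hp, hp'⟩)⟩
    choose K hK using h1
    obtain ⟨B, hB⟩ := (Set.finite_range K).bddAbove
    exact ⟨max B 0, le_max_right _ _, fun j k p hp hp' =>
      (hK (j, k) p hp hp').trans ((hB (mem_range_self (j, k))).trans (le_max_left _ _))⟩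
  refine ⟨K, hK0, fun j₁ k₁ t₁ ht₁ p₁ hp₁ hp₁' => ?_⟩
  by_contra hcon
  push Not at hcon
  -- the maximum
  set S : Set ℝ := ⋃ x : ι × Fin n, (b.Sf A x.1 x.2) ''
    (Icc 0 t₁ ×ˢ {p | p ∈ (F.e (b.ch x.1)).source ∧
      nsq (b.h x.1 (F.e (b.ch x.1) p)) ≤ 3 / 4}) with hS
  have hIco : ∀ t ∈ Icc 0 t₁, t ∈ Ico 0 T := fun t ht => ⟨ht.1, lt_of_le_of_lt ht.2 ht₁.2⟩
  have hScomp : IsCompact S := by
    refine isCompact_iUnion fun x => ?_
    refine (isCompact_Icc.prod (hKc x.1)).image_of_continuousOn ?_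
    exact (b.Sf_continuousOn A x.1 x.2).mono (prod_mono (fun t ht => hIco t ht) fun p hp => hp.1)
  have hmem : ∀ j k, ∀ t ∈ Icc 0 t₁, ∀ p ∈ (F.e (b.ch j)).source,
      nsq (b.h j (F.e (b.ch j) p)) ≤ 3 / 4 →
      b.Sf A j k (t, p) ∈ S := fun j k t ht p hp hp' =>
    mem_iUnion.2 ⟨(j, k), mem_image_of_mem _ ⟨ht, hp, hp'⟩⟩
  have h1mem := hmem j₁ k₁ t₁ ⟨ht₁.1, le_rfl⟩ p₁ hp₁ hp₁'
  obtain ⟨y, hyS, hymax⟩ := hScomp.exists_isGreatest ⟨_, h1mem⟩
  obtain ⟨⟨j, k⟩, ⟨t, p⟩, ⟨htI, hpV, hp34⟩, hyeq⟩ := mem_iUnion.1 hyS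
  simp only at hpV hp34 hyeq htI
  have hmax : ∀ j' k', ∀ t' ∈ Icc 0 t₁, ∀ p' ∈ (F.e (b.ch j')).source,
      nsq (b.h j' (F.e (b.ch j') p')) ≤ 3 / 4 →
      b.Sf A j' k' (t', p') ≤ b.Sf A j k (t, p) := by
    intro j' k' t' ht' p' hp' hp''
    rw [hyeq]
    exact hymax (hmem j' k' t' ht' p' hp' hp'')
  have hbig : K < b.Sf A j k (t, p) := hcon.trans_le (hmax j₁ k₁ t₁ ⟨ht₁.1, le_rfl⟩ p₁ hp₁ hp₁')
  have htT := hIco t htI
  have htpos : 0 < t := by
    rcases htI.1.eq_or_lt with h | h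
    · exfalso
      rw [← h] at hbig
      exact absurd (hK j k p hpV hp34) (not_le.2 hbig)
    · exact h
  have hSpos : 0 < b.Sf A j k (t, p) := lt_of_le_of_lt hK0 hbig
  have hEpos : 0 < Real.exp (-A * glob F.atlas F.UU (t, p) - t) := Real.exp_pos _
  have hXF : 0 < cut (nsq (b.h j (F.e (b.ch j) p))) ^ 2 * b.Fn j k (t, p) := by
    have : 0 < cut (nsq (b.h j (F.e (b.ch j) p))) ^ 2 * b.Fn j k (t, p) *
      Real.exp (-A * glob F.atlas F.UU (t, p) - t) := hSpos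
    exact (pos_iff_pos_of_mul_pos this).2 hEpos
  have hFpos : 0 < b.Fn j k (t, p) := by
    rcases (b.Fn_nonneg k htT hpV).eq_or_lt with h | h
    · rw [← h, mul_zero] at hXF
      exact absurd hXF (lt_irrefl 0)
    · exact h
  have hp34' : nsq (b.h j (F.e (b.ch j) p)) < 3 / 4 := by
    by_contra h
    rw [cut_zero (not_lt.1 h)] at hXF
    simp at hXF
  -- the cut-off is not small
  have hX : 1 / (C * (n + 1)) ≤ cut (nsq (b.h j (F.e (b.ch j) p))) := by
    have hn0 : (0 : ℝ) ≤ n := Nat.cast_nonneg n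
    have hCF : (1 : ℝ) ≤ C * (n + 1) := by nlinarith
    obtain ⟨i, hi, hlt⟩ := b.core p
    have hlt' : nsq (b.h i (F.e (b.ch i) p)) ≤ 1 / 2 := hlt.le
    have g1 := hdom j i p hpV hp34 hi hlt' t htT k
    have g2 : ∀ k', b.Fn i k' (t, p) ≤
        cut (nsq (b.h j (F.e (b.ch j) p))) ^ 2 * b.Fn j k (t, p) := by
      intro k'
      have g3 := hmax i k' t htI p hi (hlt'.trans (by norm_num))
      unfold Flow.Cov.Sf at g3
      rw [cut_one (show nsq (b.h i (F.e (b.ch i) (t, p).2)) ≤ 1 / 2 from hlt')] at g3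
      have g4 := le_of_mul_le_mul_right g3 hEpos
      simpa using g4
    have g5 : ∑ k', b.Fn i k' (t, p) ≤
        n * (cut (nsq (b.h j (F.e (b.ch j) p))) ^ 2 * b.Fn j k (t, p)) := by
      refine (Finset.sum_le_sum fun k' _ => g2 k').trans ?_
      rw [Finset.sum_const, Finset.card_univ, nsmul_eq_mul, Fintype.card_fin]
    have hX0 := cut_nonneg (nsq (b.h j (F.e (b.ch j) p)))
    have hX1 := cut_le_one (nsq (b.h j (F.e (b.ch j) p)))
    set X := cut (nsq (b.h j (F.e (b.ch j) p))) with hXdef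
    set Φ := b.Fn j k (t, p) with hΦ
    have g6 : Φ ≤ (C * n * X ^ 2) * Φ := by
      calc Φ ≤ C * ∑ k', b.Fn i k' (t, p) := g1
        _ ≤ C * (n * (X ^ 2 * Φ)) := mul_le_mul_of_nonneg_left g5 (by linarith)
        _ = _ := by ring
    have g7 : 1 ≤ C * n * X ^ 2 := by
      by_contra hlt'
      push Not at hlt'
      nlinarith
    rw [div_le_iff₀ (by linarith)]
    have g8 : X ^ 2 ≤ X := by nlinarith
    nlinarith [mul_le_mul_of_nonneg_left g8 (mul_nonneg (by linarith : (0:ℝ) ≤ C) hn0)]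
  -- the contradiction in the chart
  set z : Cn n := F.e (b.ch j) p with hz
  have hzp : (F.e (b.ch j)).symm z = p := (F.e (b.ch j)).left_inv hpV
  have hS0 := b.log_Sf A (k := k) htT (x := z) hp34'
  rw [hzp] at hS0
  refine b.crit (A := A) (ε := 1) (k := k) ⟨htpos, htT.2⟩ (z := z) hp34' one_pos
    (hA _ _ hp34' hX) ?_ ?_
  · filter_upwards [(b.isOpen_h j (3 / 4)).mem_nhds (show z ∈ {x | nsq (b.h j x) < 3 / 4} from
      hp34')] with x h1
    obtain ⟨g1, g2⟩ := b.log_Sf A (k := k) htT (x := x) h1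
    rw [← g2, ← hS0.2]
    have hx : x ∈ (F.e (b.ch j)).target := b.sub' j (by norm_num) h1
    refine Real.log_le_log g1 (hmax j k t htI _ ((F.e (b.ch j)).map_target hx) ?_)
    rw [(F.e (b.ch j)).right_inv hx]
    exact le_of_lt h1
  · filter_upwards [Ioo_mem_nhdsLT htpos] with r hr
    have hrT : r ∈ Ico 0 T := ⟨hr.1.le, hr.2.trans htT.2⟩
    obtain ⟨g1, g2⟩ := b.log_Sf A (k := k) hrT (x := z) hp34'
    rw [hzp] at g1 g2
    rw [← g2, ← hS0.2]
    exact Real.log_le_log g1 (hmax j k r ⟨hr.1.le, hr.2.le.trans htI.2⟩ _ hpV hp34)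

theorem Flow.UU_le [CompactSpace M] (F : Flow n M κ T) : ∃ C : ℝ, 0 ≤ C ∧
    ∀ c, ∀ t ∈ Ico 0 T, ∀ z ∈ (F.e c).target, F.UU c (t, z) ≤ C / (T - t) := by
  by_cases hT : 0 < T
  swap
  · exact ⟨0, le_rfl, fun c t ht => absurd (lt_of_le_of_lt ht.1 ht.2) hT⟩
  obtain ⟨C₁, hC₁, h₁⟩ := F.dphi_ge
  obtain ⟨C₂, hC₂, h₂⟩ := Bd.upper F
  have hn : (0 : ℝ) ≤ n := Nat.cast_nonneg n
  refine ⟨T * C₁ + (C₂ + n) * T ^ 2, by positivity, fun c t ht z hz => ?_⟩
  have hTt : 0 < T - t := by linarith [ht.2]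
  have e1 : F.UU c (t, z) = -t * F.dphi c (t, z) + F.phi c (t, z) + n * t := by
    simp only [Flow.UU, Flow.Gc, Flow.dphi, Flow.phi]
    ring
  have g1 := h₁ c t ht z hz
  have g2 := (h₂ c t ht z hz).1
  rw [e1, le_div_iff₀ hTt]
  have g3 : -C₁ ≤ F.dphi c (t, z) * (T - t) := by
    have h3 := mul_le_mul_of_nonneg_right g1 hTt.le
    rwa [neg_mul, div_mul_cancel₀ _ hTt.ne'] at h3
  have g4 : -t * F.dphi c (t, z) * (T - t) ≤ T * C₁ := by
    have h4 := mul_le_mul_of_nonneg_left g3 ht.1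
    nlinarith [mul_le_mul_of_nonneg_right ht.2.le hC₁]
  have g5 : (F.phi c (t, z) + n * t) * (T - t) ≤ (C₂ + n) * T ^ 2 := by
    have h5 : F.phi c (t, z) + n * t ≤ (C₂ + n) * T := by
      have h6 := mul_le_mul_of_nonneg_left ht.2.le hC₂
      have h7 := mul_le_mul_of_nonneg_left ht.2.le hn
      nlinarith
    have h8 : T - t ≤ T := by linarith [ht.1]
    calc (F.phi c (t, z) + n * t) * (T - t) ≤ ((C₂ + n) * T) * (T - t) :=
          mul_le_mul_of_nonneg_right h5 hTt.le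
      _ ≤ ((C₂ + n) * T) * T := mul_le_mul_of_nonneg_left h8 (by positivity)
      _ = (C₂ + n) * T ^ 2 := by ring
  nlinarith

theorem Flow.Cov.fields_bounded [CompactSpace M] [T2Space M] [Finite ι] (hT : 0 < T) :
    ∃ K C : ℝ, 0 ≤ K ∧ 0 ≤ C ∧ ∀ i k, ∀ t ∈ Ico 0 T, ∀ p ∈ (F.e (b.ch i)).source,
      nsq (b.h i (F.e (b.ch i) p)) ≤ 1 / 2 → b.Fn i k (t, p) ≤ K * Real.exp (C / (T - t)) := by
  obtain ⟨C, hC1, hdom⟩ := b.domination
  have hn : (0 : ℝ) ≤ n := Nat.cast_nonneg n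
  obtain ⟨A, hA0, hA⟩ := b.exists_A hT (c₁ := 1 / (C * (n + 1))) (by positivity)
  obtain ⟨K, hK0, hK⟩ := b.Sf_le hT hC1 hdom hA
  obtain ⟨B, hB0, hB⟩ := F.UU_le
  refine ⟨K, A * B + T ^ 2, hK0, by positivity, fun i k t ht p hsrc hy => ?_⟩
  have hTt : 0 < T - t := by linarith [ht.2]
  have h1 := hK i k t ht _ hsrc (hy.trans (by norm_num))
  unfold Flow.Cov.Sf at h1
  rw [glob_eq F.atlas F.UU_isFun ht hsrc, cut_one hy] at h1
  set z := F.e (b.ch i) p with hzdef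
  have hz : z ∈ (F.e (b.ch i)).target := (F.e (b.ch i)).map_source hsrc
  have h2 : Real.exp (-A * F.UU (b.ch i) (t, z) - t) * Real.exp (A * F.UU (b.ch i) (t, z) + t) =
      1 := by
    rw [← Real.exp_add]
    simp
  have h3 : b.Fn i k (t, p) ≤ K * Real.exp (A * F.UU (b.ch i) (t, z) + t) := by
    have h4 := mul_le_mul_of_nonneg_right h1 (Real.exp_pos (A * F.UU (b.ch i) (t, z) + t)).le
    have h5 : 1 ^ 2 * b.Fn i k (t, p) * Real.exp (-A * F.UU (b.ch i) (t, z) - t) *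
        Real.exp (A * F.UU (b.ch i) (t, z) + t) = b.Fn i k (t, p) := by
      rw [mul_assoc, h2]
      ring
    linarith
  refine h3.trans (mul_le_mul_of_nonneg_left (Real.exp_le_exp.2 ?_) hK0)
  have h6 := mul_le_mul_of_nonneg_left (hB (b.ch i) t ht z hz) hA0
  have h7 : t ≤ T ^ 2 / (T - t) := by
    rw [le_div_iff₀ hTt]
    nlinarith [ht.1, ht.2]
  have h8 : (A * B + T ^ 2) / (T - t) = A * (B / (T - t)) + T ^ 2 / (T - t) := by ring
  rw [h8]
  linarith

theorem Flow.lev_le_exp {n : ℕ} {M : Type} [TopologicalSpace M] [CompactSpace M] [T2Space M]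
    {κ : Type} {T : ℝ} (F : Flow n M κ T) (c : κ) {A : Set (Cn n)} (hA : IsCompact A)
    (hAt : A ⊆ (F.e c).target) :
    ∃ C : ℝ, 0 ≤ C ∧ ∀ t ∈ Ico 0 T, ∀ z ∈ A, ∀ u,
      lev (F.ψ c) u (t, z) ≤ Real.exp (C / (T - t)) * nsq u := by
  by_cases hT : 0 < T
  swap
  · exact ⟨0, le_rfl, fun t ht => absurd (lt_of_le_of_lt ht.1 ht.2) hT⟩
  obtain ⟨s, hs, ⟨b⟩⟩ := F.exists_cov
  obtain ⟨K, C₁, hK, hC₁, hF⟩ := b.fields_bounded hT
  have hn0 : (0 : ℝ) ≤ n := Nat.cast_nonneg n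
  have hnsq : ∀ u : Cn n, 0 ≤ nsq u := fun u => (sq_nonneg _).trans (norm_sq_le n u)
  obtain ⟨C, hC, h⟩ := hA.induction_on
    (p := fun S => ∃ C : ℝ, 0 ≤ C ∧ ∀ z ∈ S, z ∈ (F.e c).target → ∀ t ∈ Ico 0 T, ∀ u,
      lev (F.ψ c) u (t, z) ≤ C * Real.exp (C₁ / (T - t)) * nsq u)
    ⟨0, le_rfl, fun p hp => absurd hp (notMem_empty p)⟩
    (fun S S' hSS ⟨C, hC, h⟩ => ⟨C, hC, fun p hp => h p (hSS hp)⟩)
    (fun S S' ⟨C, hC, h⟩ ⟨C', hC', h'⟩ => ⟨max C C', le_max_of_le_left hC,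
      fun z hz hzt t ht u => by
      have h0 : 0 ≤ Real.exp (C₁ / (T - t)) := (Real.exp_pos _).le
      rcases hz with hz | hz
      · exact (h z hz hzt t ht u).trans (mul_le_mul_of_nonneg_right
          (mul_le_mul_of_nonneg_right (le_max_left _ _) h0) (hnsq u))
      · exact (h' z hz hzt t ht u).trans (mul_le_mul_of_nonneg_right
          (mul_le_mul_of_nonneg_right (le_max_right _ _) h0) (hnsq u))⟩)
    (fun z₀ hz₀ => by
      have hzt := hAt hz₀
      have hsrc := (F.e c).map_target hzt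
      obtain ⟨i, hi, hlt⟩ := b.core ((F.e c).symm z₀)
      obtain ⟨C, hC, h⟩ := b.dom_vec c hsrc hi
      have hcont : ContinuousAt (F.e c).symm z₀ := (F.e c).symm.continuousAt hzt
      have h1 : ∀ᶠ p in 𝓝 ((F.e c).symm z₀), nsq (b.h i (F.e (b.ch i) p)) < 1 / 2 := by
        have h2 : ContinuousAt (fun p => nsq (b.h i (F.e (b.ch i) p))) ((F.e c).symm z₀) :=
          ContinuousAt.comp (g := fun y => nsq (b.h i y))
            (contDiff_nsq.continuous.comp (b.h_contDiff i).continuous).continuousAt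
            ((F.e (b.ch i)).continuousAt hi)
        exact h2.eventually_lt continuousAt_const hlt
      have h3 := hcont.eventually (h.and (h1.and ((F.e (b.ch i)).open_source.mem_nhds hi)))
      refine ⟨_, mem_nhdsWithin_of_mem_nhds h3, C * (n * K), by positivity,
        fun z hz hzt t ht u => ?_⟩
      obtain ⟨g1, g2, g3⟩ := hz
      have g4 := g1 t ht u
      rw [(F.e c).right_inv hzt] at g4
      refine g4.trans ?_
      have g5 : ∑ k', b.Fn i k' (t, (F.e c).symm z) ≤ n * (K * Real.exp (C₁ / (T - t))) := by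
        refine (Finset.sum_le_sum fun k' _ => hF i k' t ht _ g3 (le_of_lt g2)).trans ?_
        rw [Finset.sum_const, Finset.card_univ, nsmul_eq_mul, Fintype.card_fin]
      calc C * nsq u * ∑ k', b.Fn i k' (t, (F.e c).symm z) ≤
          C * nsq u * (n * (K * Real.exp (C₁ / (T - t)))) :=
            mul_le_mul_of_nonneg_left g5 (mul_nonneg hC (hnsq u))
        _ = C * (n * K) * Real.exp (C₁ / (T - t)) * nsq u := by ring)
  have hlog : 0 ≤ Real.log (C + 1) := Real.log_nonneg (by linarith)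
  refine ⟨C₁ + T * Real.log (C + 1), by positivity, fun t ht z hz u => ?_⟩
  have hTt : 0 < T - t := by linarith [ht.2]
  refine (h z hz (hAt hz) t ht u).trans (mul_le_mul_of_nonneg_right ?_ (hnsq u))
  have h1 : C ≤ Real.exp (Real.log (C + 1)) := by
    rw [Real.exp_log (by linarith)]
    linarith
  have h2 : Real.log (C + 1) ≤ T * Real.log (C + 1) / (T - t) := by
    rw [le_div_iff₀ hTt]
    nlinarith [ht.1, mul_nonneg ht.1 hlog]
  calc C * Real.exp (C₁ / (T - t)) ≤ Real.exp (Real.log (C + 1)) * Real.exp (C₁ / (T - t)) :=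
        mul_le_mul_of_nonneg_right h1 (Real.exp_pos _).le
    _ = Real.exp (Real.log (C + 1) + C₁ / (T - t)) := (Real.exp_add _ _).symm
    _ ≤ Real.exp ((C₁ + T * Real.log (C + 1)) / (T - t)) := by
        refine Real.exp_le_exp.2 ?_
        have h3 : (C₁ + T * Real.log (C + 1)) / (T - t) =
            C₁ / (T - t) + T * Real.log (C + 1) / (T - t) := by ring
        rw [h3]
        linarith

end Pool.Agent.KRFF

end

section

/-!
# The lengths of the rays of a disc for a subharmonic function of bounded oscillation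

If `Δ G ≤ 4 e^(2X)` and the circle averages of `G` exceed `G 0` by at most `C`, the average length
of the rays is at most `C' √(log X)`: the Cauchy-Schwarz inequality with the weight `r log (1/r)`.
-/

open scoped ContDiff ENNReal ComplexOrder Topology
open Set MeasureTheory Filter Pool.Agent.ToricKRF Pool.Agent.ToricKRF.G Pool.Agent.KRFS

namespace Pool.Agent.KRFF

open Circ

namespace LogRay

theorem clamp_mem {a b : ℝ} (hab : a ≤ b) (r : ℝ) : max a (min r b) ∈ Icc a b :=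
  ⟨le_max_left _ _, max_le hab (min_le_right _ _)⟩

theorem clamp_eq {a b r : ℝ} (hr : r ∈ Icc a b) : max a (min r b) = r := by
  rw [min_eq_left hr.2, max_eq_right hr.1]

/-- the integrals over the rays -/
theorem ray_facts {H : ℂ → ℝ} {w : ℝ → ℝ} {a b : ℝ} (ha : 0 ≤ a) (hab : a ≤ b) (hb : b < 1 / 2)
    (hH : ContinuousOn H (Metric.ball 0 (1 / 2))) (hw : ContinuousOn w (Icc a b)) :
    (Continuous fun θ : ℝ => ∫ r in a..b, w r * H (r * ee θ)) ∧
    ∫ θ in (0 : ℝ)..2 * Real.pi, ∫ r in a..b, w r * H (r * ee θ) =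
      2 * Real.pi * ∫ r in a..b, w r * cavg H r := by
  set F : ℝ → ℝ → ℝ := fun θ r => w (max a (min r b)) * H ((max a (min r b) : ℝ) * ee θ) with hFd
  have hcl : Continuous fun q : ℝ × ℝ => max a (min q.2 b) := by fun_prop
  have hF : Continuous (Function.uncurry F) := by
    refine (hw.comp_continuous hcl fun q => clamp_mem hab _).mul
      (hH.comp_continuous ((Complex.continuous_ofReal.comp hcl).mul
        (continuous_ee.comp continuous_fst)) fun q => ?_)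
    exact mem_ball ⟨by linarith [(clamp_mem hab q.2).1], by linarith [(clamp_mem hab q.2).2]⟩ _
  have hcongr : ∀ θ : ℝ, ∫ r in a..b, w r * H (r * ee θ) = ∫ r in a..b, F θ r := by
    intro θ
    refine intervalIntegral.integral_congr fun r hr => ?_
    rw [uIcc_of_le hab] at hr
    simp only [hFd, clamp_eq hr]
  have hc : Continuous fun θ : ℝ => ∫ r in a..b, w r * H (r * ee θ) := by
    simp only [hcongr]
    exact intervalIntegral.continuous_parametric_intervalIntegral_of_continuous' hF a b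
  refine ⟨hc, ?_⟩
  simp only [hcongr]
  have hint : IntegrableOn (Function.uncurry F) (uIoc 0 (2 * Real.pi) ×ˢ uIoc a b) := by
    have h1 : IntegrableOn (Function.uncurry F) (uIcc 0 (2 * Real.pi) ×ˢ uIcc a b) :=
      hF.continuousOn.integrableOn_compact (isCompact_uIcc.prod isCompact_uIcc)
    exact h1.mono_set (prod_mono uIoc_subset_uIcc uIoc_subset_uIcc)
  rw [intervalIntegral_intervalIntegral_swap hint, ← intervalIntegral.integral_const_mul]
  refine intervalIntegral.integral_congr fun r hr => ?_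
  rw [uIcc_of_le hab] at hr
  simp only [hFd, clamp_eq hr]
  rw [intervalIntegral.integral_const_mul]
  have hpi : (2 * Real.pi) ≠ 0 := by positivity
  unfold cavg
  have e : ∀ θ : ℝ, Complex.exp (θ * Complex.I) = ee θ := fun θ => rfl
  simp only [e]
  field_simp

variable {G : ℂ → ℝ} (hG : ContDiffOn ℝ ∞ G (Metric.ball 0 (1 / 2)))
include hG

theorem smooth_lapC : ContDiffOn ℝ ∞ (lapC G) (Metric.ball 0 (1 / 2)) := by
  have h2 := smooth2 hG
  have h3 : ContDiffOn ℝ ∞ (fun z => G2 G z (ee 0) (ee 0) +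
      G2 G z (Complex.I * ee 0) (Complex.I * ee 0)) (Metric.ball 0 (1 / 2)) :=
    ((h2.clm_apply contDiffOn_const).clm_apply contDiffOn_const).add
      ((h2.clm_apply contDiffOn_const).clm_apply contDiffOn_const)
  exact h3.congr fun z hz => lapC_eq hG hz 0

theorem hasDerivAt_w {r : ℝ} (hr : r ∈ Ioo 0 (1 / 2)) :
    HasDerivAt (fun r => -Real.log r * (r * cavgD G r) + cavg G r)
      (-Real.log r * r * cavg (lapC G) r) r := by
  have hr' : r ∈ Ioo (-(1 / 2 : ℝ)) (1 / 2) := ⟨by linarith [hr.1], hr.2⟩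
  have h1 := (Real.hasDerivAt_log hr.1.ne').neg.mul (hasDerivAt_mul hG hr' hr.1.ne')
  have h2 := h1.add (hasDerivAt_cavg hG hr')
  refine h2.congr_deriv ?_
  have := hr.1.ne'
  rw [Pi.neg_apply]
  field_simp
  ring

/-- the weighted mass -/
theorem mass_le {C₀ s : ℝ} (h0 : ∀ z ∈ Metric.ball (0 : ℂ) (1 / 2), 0 ≤ lapC G z)
    (hosc : ∀ r ∈ Ico (0 : ℝ) (1 / 2), cavg G r - G 0 ≤ C₀) (hs : s ∈ Ioc (0 : ℝ) (1 / 16)) :
    ∫ r in s..1 / 16, -Real.log r * r * cavg (lapC G) r ≤ 3 * C₀ := by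
  have hI : ∀ r ∈ uIcc s (1 / 16), r ∈ Ioo (0 : ℝ) (1 / 2) := by
    intro r hr
    rw [uIcc_of_le hs.2] at hr
    exact ⟨hs.1.trans_le hr.1, by linarith [hr.2]⟩
  have hcl : ContinuousOn (cavg (lapC G)) (Ioo (-(1 / 2)) (1 / 2)) :=
    continuousOn_cavg (smooth_lapC hG)
  have hcont : ContinuousOn (fun r => -Real.log r * r * cavg (lapC G) r) (uIcc s (1 / 16)) := by
    refine ContinuousOn.mul (ContinuousOn.mul (ContinuousOn.neg ?_) continuousOn_id)
      (hcl.mono fun r hr => ⟨by linarith [(hI r hr).1], (hI r hr).2⟩)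
    exact Real.continuousOn_log.mono fun r hr => (hI r hr).1.ne'
  rw [intervalIntegral.integral_eq_sub_of_hasDerivAt
    (fun r hr => hasDerivAt_w hG (hI r hr)) hcont.intervalIntegrable]
  -- the boundary terms
  have hmono := cavgD_monotone hG h0
  set μ : ℝ := 1 / 16 * cavgD G (1 / 16) with hμ
  have hμ0 : 0 ≤ μ := mul_cavgD_nonneg hG h0 ⟨by norm_num, by norm_num⟩
  have hs0 : 0 ≤ s * cavgD G s := mul_cavgD_nonneg hG h0 ⟨hs.1.le, by linarith [hs.2]⟩
  have hls : Real.log s ≤ 0 := Real.log_nonpos hs.1.le (by linarith [hs.2])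
  have h1 : G 0 ≤ cavg G s := le_cavg hG h0 ⟨hs.1.le, by linarith [hs.2]⟩
  -- the mass at `1/16`
  have h2 : cavg G (1 / 16) - μ * Real.log (1 / 16) ≤ cavg G (1 / 4) - μ * Real.log (1 / 4) := by
    have hd : ∀ r ∈ Ioo (0 : ℝ) (1 / 2), HasDerivAt (fun r => cavg G r - μ * Real.log r)
        (cavgD G r - μ * r⁻¹) r := by
      intro r hr
      exact (hasDerivAt_cavg hG ⟨by linarith [hr.1], hr.2⟩).sub
        ((Real.hasDerivAt_log hr.1.ne').const_mul μ)
    have hmon : MonotoneOn (fun r => cavg G r - μ * Real.log r) (Icc (1 / 16) (1 / 4)) := by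
      refine monotoneOn_of_deriv_nonneg (convex_Icc _ _) ?_ ?_ ?_
      · intro r hr
        exact (hd r ⟨by linarith [hr.1], by linarith [hr.2]⟩).continuousAt.continuousWithinAt
      · intro r hr
        rw [interior_Icc] at hr
        exact (hd r ⟨by linarith [hr.1], by linarith [hr.2]⟩).differentiableAt
          |>.differentiableWithinAt
      · intro r hr
        rw [interior_Icc] at hr
        have hr0 : 0 < r := by linarith [hr.1]
        rw [(hd r ⟨hr0, by linarith [hr.2]⟩).deriv]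
        have h3 := hmono (a := 1 / 16) (b := r) ⟨by norm_num, by norm_num⟩
          ⟨hr0.le, by linarith [hr.2]⟩ hr.1.le
        have h4 : μ ≤ r * cavgD G r := h3
        have h5 : μ * r⁻¹ ≤ cavgD G r := by
          rw [← div_eq_mul_inv, div_le_iff₀ hr0, mul_comm]
          exact h4
        linarith
    exact hmon ⟨le_rfl, by norm_num⟩ ⟨by norm_num, le_rfl⟩ (by norm_num)
  have h3 : cavg G (1 / 4) - G 0 ≤ C₀ := hosc _ ⟨by norm_num, by norm_num⟩
  have h4 : cavg G (1 / 16) - G 0 ≤ C₀ := hosc _ ⟨by norm_num, by norm_num⟩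
  have h5 : G 0 ≤ cavg G (1 / 16) := le_cavg hG h0 ⟨by norm_num, by norm_num⟩
  have e1 : Real.log (1 / 16) = -(2 * Real.log 4) := by
    rw [show (1 / 16 : ℝ) = (4 ^ 2)⁻¹ by norm_num, Real.log_inv, Real.log_pow]
    push_cast
    ring
  have e2 : Real.log (1 / 4) = -Real.log 4 := by
    rw [one_div, Real.log_inv]
  rw [e1, e2] at h2
  have h6 : μ * Real.log 4 ≤ C₀ := by nlinarith
  have h7 : -Real.log (1 / 16) * (1 / 16 * cavgD G (1 / 16)) = 2 * (μ * Real.log 4) := by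
    rw [e1, hμ]
    ring
  rw [h7]
  have h8 : 0 ≤ -Real.log s * (s * cavgD G s) := mul_nonneg (by linarith) hs0
  linarith

omit hG in
/-- the integral of `1 / (r log (1/r))` -/
theorem weight_eq {s : ℝ} (hs : s ∈ Ioc (0 : ℝ) (1 / 16)) :
    ContinuousOn (fun r => (r * -Real.log r)⁻¹) (Icc s (1 / 16)) ∧
    ∫ r in s..1 / 16, (r * -Real.log r)⁻¹ ≤ Real.log (-Real.log s) := by
  have hI : ∀ r ∈ Icc s (1 / 16), 0 < r ∧ 0 < -Real.log r := by
    intro r hr
    have h1 : 0 < r := hs.1.trans_le hr.1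
    have := Real.log_neg h1 (by linarith [hr.2])
    exact ⟨h1, by linarith⟩
  have hc : ContinuousOn (fun r => (r * -Real.log r)⁻¹) (Icc s (1 / 16)) := by
    refine ContinuousOn.inv₀ (continuousOn_id.mul (ContinuousOn.neg ?_)) fun r hr => ?_
    · exact Real.continuousOn_log.mono fun r hr => (hI r hr).1.ne'
    · have := hI r hr
      exact (mul_pos this.1 this.2).ne'
  refine ⟨hc, ?_⟩
  have hd : ∀ r ∈ uIcc s (1 / 16), HasDerivAt (fun r => -Real.log (-Real.log r))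
      ((r * -Real.log r)⁻¹) r := by
    intro r hr
    rw [uIcc_of_le hs.2] at hr
    obtain ⟨h1, h2⟩ := hI r hr
    have h3 := ((Real.hasDerivAt_log h1.ne').neg.log h2.ne').neg
    refine h3.congr_deriv ?_
    have := h2.ne'
    have := h1.ne'
    rw [Pi.neg_apply]
    field_simp
  have hu : uIcc s (1 / 16) = Icc s (1 / 16) := uIcc_of_le hs.2
  rw [intervalIntegral.integral_eq_sub_of_hasDerivAt hd (by
    apply ContinuousOn.intervalIntegrable
    rw [hu]
    exact hc)]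
  have h4 : 0 ≤ Real.log (-Real.log (1 / 16)) := by
    apply Real.log_nonneg
    rw [← Real.log_inv]
    rw [Real.le_log_iff_exp_le (by norm_num)]
    have := Real.exp_one_lt_d9
    norm_num
    linarith
  linarith

/-- **The average length of the rays.** -/
theorem radial_log {C₀ X : ℝ} (h0 : ∀ z ∈ Metric.ball (0 : ℂ) (1 / 2), 0 ≤ lapC G z) (hX : 3 ≤ X)
    (hup : ∀ z ∈ Metric.ball (0 : ℂ) (1 / 2), lapC G z ≤ (2 * Real.exp X) ^ 2)
    (hosc : ∀ r ∈ Ico (0 : ℝ) (1 / 2), cavg G r - G 0 ≤ C₀) :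
    ∫ θ in (0 : ℝ)..2 * Real.pi, ∫ r in (0 : ℝ)..1 / 16,
      √(lapC G (r * Complex.exp (θ * Complex.I))) ≤
      Real.pi * (5 + 3 * C₀) * √(Real.log X) := by
  have e : ∀ θ : ℝ, Complex.exp (θ * Complex.I) = ee θ := fun θ => rfl
  simp only [e]
  have hpi := Real.pi_pos
  set s : ℝ := Real.exp (-X) with hs
  have hs0 : 0 < s := Real.exp_pos _
  have hs16 : s ≤ 1 / 16 := by
    have h1 : Real.exp (-X) ≤ Real.exp (-3) := Real.exp_le_exp.2 (by linarith)
    have h2 : (16 : ℝ) ≤ Real.exp 3 := by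
      have h3 : Real.exp 3 = Real.exp 1 ^ 3 := by
        rw [← Real.exp_nat_mul]
        norm_num
      have h4 := Real.exp_one_gt_d9
      rw [h3]
      calc (16 : ℝ) ≤ 2.7 ^ 3 := by norm_num
        _ ≤ Real.exp 1 ^ 3 := pow_le_pow_left₀ (by norm_num) (by linarith) 3
    refine h1.trans ?_
    rw [Real.exp_neg, one_div]
    exact inv_anti₀ (by norm_num) h2
  have hsI : s ∈ Ioc (0 : ℝ) (1 / 16) := ⟨hs0, hs16⟩
  have hlogs : -Real.log s = X := by rw [hs, Real.log_exp, neg_neg]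
  have hlX : 1 ≤ Real.log X := by
    rw [Real.le_log_iff_exp_le (by linarith)]
    have := Real.exp_one_lt_d9
    linarith
  set l : ℝ := √(Real.log X) with hl
  have hl1 : 1 ≤ l := by
    rw [hl, Real.one_le_sqrt]
    exact hlX
  have hl0 : 0 < l := by linarith
  have hll : l * l = Real.log X := Real.mul_self_sqrt (by linarith)
  have hlap : ContinuousOn (lapC G) (Metric.ball 0 (1 / 2)) := continuousOn_lapC hG
  have hsq : ContinuousOn (fun z => √(lapC G z)) (Metric.ball 0 (1 / 2)) :=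
    Real.continuous_sqrt.comp_continuousOn hlap
  have hmem : ∀ (r θ : ℝ), 0 ≤ r → r ≤ 1 / 16 → (r : ℂ) * ee θ ∈ Metric.ball (0 : ℂ) (1 / 2) :=
    fun r θ h1 h2 => mem_ball ⟨by linarith, by linarith⟩ θ
  -- continuity of the integrands along a ray
  have hray : ∀ (H : ℂ → ℝ), ContinuousOn H (Metric.ball 0 (1 / 2)) → ∀ (θ a b : ℝ), 0 ≤ a →
      a ≤ b → b ≤ 1 / 16 → ContinuousOn (fun r : ℝ => H (r * ee θ)) (Icc a b) := by
    intro H hH θ a b ha hab hb
    refine hH.comp (Continuous.continuousOn ?_) fun r hr => hmem r θ (ha.trans hr.1)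
      (hr.2.trans hb)
    exact Complex.continuous_ofReal.mul continuous_const
  -- for every angle
  have key : ∀ θ : ℝ, ∫ r in (0 : ℝ)..1 / 16, √(lapC G (r * ee θ)) ≤
      2 + (l / 2 * (∫ r in s..1 / 16, -Real.log r * r * lapC G (r * ee θ)) + l / 2) := by
    intro θ
    have hi : ∀ a b : ℝ, 0 ≤ a → a ≤ b → b ≤ 1 / 16 →
        IntervalIntegrable (fun r : ℝ => √(lapC G (r * ee θ))) volume a b := by
      intro a b ha hab hb
      apply ContinuousOn.intervalIntegrable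
      rw [uIcc_of_le hab]
      exact hray _ hsq θ a b ha hab hb
    rw [← intervalIntegral.integral_add_adjacent_intervals (hi 0 s le_rfl hs0.le hs16)
      (hi s (1 / 16) hs0.le hs16 le_rfl)]
    have h1 : ∫ r in (0 : ℝ)..s, √(lapC G (r * ee θ)) ≤ 2 := by
      have h2 : ∫ r in (0 : ℝ)..s, √(lapC G (r * ee θ)) ≤ ∫ r in (0 : ℝ)..s, 2 * Real.exp X := by
        refine intervalIntegral.integral_mono_on hs0.le (hi 0 s le_rfl hs0.le hs16)
          intervalIntegrable_const fun r hr => ?_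
        rw [← Real.sqrt_sq (show 0 ≤ 2 * Real.exp X by positivity)]
        exact Real.sqrt_le_sqrt (hup _ (hmem r θ hr.1 (hr.2.trans hs16)))
      rw [intervalIntegral.integral_const, sub_zero, smul_eq_mul, hs] at h2
      have h3 : Real.exp (-X) * (2 * Real.exp X) = 2 := by
        rw [Real.exp_neg]
        have := (Real.exp_pos X).ne'
        field_simp
      linarith
    have hw1 : ContinuousOn (fun r : ℝ => -Real.log r * r * lapC G (r * ee θ))
        (Icc s (1 / 16)) := by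
      refine ContinuousOn.mul (ContinuousOn.mul (ContinuousOn.neg ?_) continuousOn_id)
        (hray _ hlap θ s (1 / 16) hs0.le hs16 le_rfl)
      exact Real.continuousOn_log.mono fun r hr => (hs0.trans_le hr.1).ne'
    have hw2 := (weight_eq hsI).1
    have h4 : ∫ r in s..1 / 16, √(lapC G (r * ee θ)) ≤
        ∫ r in s..1 / 16, (l / 2 * (-Real.log r * r * lapC G (r * ee θ)) +
          1 / (2 * l) * (r * -Real.log r)⁻¹) := by
      refine intervalIntegral.integral_mono_on hs16 (hi s (1 / 16) hs0.le hs16 le_rfl) ?_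
        fun r hr => ?_
      · apply ContinuousOn.intervalIntegrable
        rw [uIcc_of_le hs16]
        exact (continuousOn_const.mul hw1).add (continuousOn_const.mul hw2)
      · have hr0 : 0 < r := hs0.trans_le hr.1
        have hlr : 0 < -Real.log r := by
          have := Real.log_neg hr0 (by linarith [hr.2])
          linarith
        set y := lapC G (r * ee θ) with hy
        have hy0 : 0 ≤ y := h0 _ (hmem r θ hr0.le hr.2)
        set w := r * -Real.log r with hw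
        have hw0 : 0 < w := mul_pos hr0 hlr
        have e1 : -Real.log r * r * y = w * y := by rw [hw]; ring
        rw [e1]
        -- `√y ≤ (l/2) w y + 1/(2 l w)`
        have h5 : √y * √y = y := Real.mul_self_sqrt hy0
        have h6 : 0 ≤ (l * w * √y - 1) ^ 2 := sq_nonneg _
        have h7 : l / 2 * (w * y) + 1 / (2 * l) * w⁻¹ - √y =
            (l * w * √y - 1) ^ 2 / (2 * l * w) := by
          have h9 : √y ^ 2 = y := by rw [sq, h5]
          field_simp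
          linear_combination (-(l ^ 2 * w ^ 2)) * h9
        have h8 : 0 ≤ (l * w * √y - 1) ^ 2 / (2 * l * w) := by positivity
        linarith
    rw [intervalIntegral.integral_add, intervalIntegral.integral_const_mul,
      intervalIntegral.integral_const_mul] at h4
    · have h5 := (weight_eq hsI).2
      rw [hlogs] at h5
      have h6 : 1 / (2 * l) * ∫ r in s..1 / 16, (r * -Real.log r)⁻¹ ≤ l / 2 := by
        have h7 : 1 / (2 * l) * ∫ r in s..1 / 16, (r * -Real.log r)⁻¹ ≤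
            1 / (2 * l) * Real.log X := mul_le_mul_of_nonneg_left h5 (by positivity)
        have h8 : 1 / (2 * l) * Real.log X = l / 2 := by
          rw [← hll]
          field_simp
        linarith
      linarith
    · apply ContinuousOn.intervalIntegrable
      rw [uIcc_of_le hs16]
      exact continuousOn_const.mul hw1
    · apply ContinuousOn.intervalIntegrable
      rw [uIcc_of_le hs16]
      exact continuousOn_const.mul hw2
  -- integrate over the angle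
  have hwc : ContinuousOn (fun r : ℝ => -Real.log r * r) (Icc s (1 / 16)) := by
    refine ContinuousOn.mul (ContinuousOn.neg ?_) continuousOn_id
    exact Real.continuousOn_log.mono fun r hr => (hs0.trans_le hr.1).ne'
  obtain ⟨k1, k2⟩ := ray_facts hs0.le hs16 (by norm_num) hlap hwc
  have k3 : Continuous fun θ : ℝ => ∫ r in (0 : ℝ)..1 / 16, √(lapC G (r * ee θ)) := by
    have := (ray_facts (w := fun _ => 1) le_rfl (show (0 : ℝ) ≤ 1 / 16 by norm_num) (by norm_num)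
      hsq continuousOn_const).1
    simpa using this
  have k4 : ∫ θ in (0 : ℝ)..2 * Real.pi, ∫ r in (0 : ℝ)..1 / 16, √(lapC G (r * ee θ)) ≤
      ∫ θ in (0 : ℝ)..2 * Real.pi,
        (2 + (l / 2 * (∫ r in s..1 / 16, -Real.log r * r * lapC G (r * ee θ)) + l / 2)) := by
    refine intervalIntegral.integral_mono_on (by positivity) (k3.intervalIntegrable _ _) ?_
      fun θ _ => key θ
    exact (continuous_const.add ((continuous_const.mul k1).add continuous_const)).intervalIntegrable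
      _ _
  have k1' : Continuous fun θ : ℝ =>
      l / 2 * ∫ r in s..1 / 16, -Real.log r * r * lapC G (r * ee θ) := continuous_const.mul k1
  have k1'' : Continuous fun θ : ℝ =>
      l / 2 * (∫ r in s..1 / 16, -Real.log r * r * lapC G (r * ee θ)) + l / 2 :=
    k1'.add continuous_const
  rw [intervalIntegral.integral_add (intervalIntegrable_const) (k1''.intervalIntegrable _ _),
    intervalIntegral.integral_add (k1'.intervalIntegrable _ _) intervalIntegrable_const,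
    intervalIntegral.integral_const_mul, k2,
    intervalIntegral.integral_const, intervalIntegral.integral_const, sub_zero, smul_eq_mul,
    smul_eq_mul] at k4
  have k5 := mass_le hG h0 hosc hsI
  have k6 : l / 2 * (2 * Real.pi * ∫ r in s..1 / 16, -Real.log r * r * cavg (lapC G) r) ≤
      l / 2 * (2 * Real.pi * (3 * C₀)) :=
    mul_le_mul_of_nonneg_left (mul_le_mul_of_nonneg_left k5 (by positivity)) (by positivity)
  have k7 : Real.pi * 4 ≤ Real.pi * 4 * l := by nlinarith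
  nlinarith

end LogRay

end Pool.Agent.KRFF

end

section

/-!
# The diameter of a Kähler-Ricci flow with semi-positive limit class

`diam (M, ω(t)) ≤ C √(1 + |log (T - t)|)`.
-/

open scoped ContDiff ENNReal ComplexOrder
open Set Filter Topology MeasureTheory Pool.Agent.ToricKRF Pool.Agent.ToricKRF.G Pool.Agent.KRFS

namespace Pool.Agent.KRFF

open Circ

variable {n : ℕ} {M : Type} [TopologicalSpace M] {κ : Type} {T : ℝ} (F : Flow n M κ T)

/-- the bound -/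
noncomputable def ff (T t : ℝ) : ℝ := √(1 + |Real.log (T - t)|)

theorem one_le_ff (T t : ℝ) : 1 ≤ ff T t := by
  rw [ff, Real.one_le_sqrt]
  linarith [abs_nonneg (Real.log (T - t))]

/-- the potentials are bounded on compact sets -/
theorem Flow.psi_bound [CompactSpace M] (hT : 0 < T) (c : κ) {A : Set (Cn n)} (hA : IsCompact A)
    (hAt : A ⊆ (F.e c).target) :
    ∃ C : ℝ, 0 ≤ C ∧ ∀ t ∈ Ico 0 T, ∀ z ∈ A, |F.ψ c (t, z)| ≤ C := by
  obtain ⟨C₁, hC₁, h₁⟩ := F.Phi_bound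
  obtain ⟨U, hU, hsub, hψ⟩ := F.krf.smooth c
  have hc0 : ContinuousOn (fun z => F.ψ c (0, z)) A :=
    hψ.continuousOn.comp (by fun_prop) fun z hz => hsub ⟨⟨le_rfl, hT⟩, hAt hz⟩
  have hcΩ : ContinuousOn (fun z => Real.log (F.Ω c z)) A :=
    ContinuousOn.log ((F.vol.smooth c).continuousOn.mono hAt)
      fun z hz => (F.vol.pos c z (hAt hz)).ne'
  obtain ⟨C₂, hC₂⟩ := hA.exists_bound_of_continuousOn hc0
  obtain ⟨C₃, hC₃⟩ := hA.exists_bound_of_continuousOn hcΩ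
  refine ⟨C₁ + |C₂| + T * |C₃|, by positivity, fun t ht z hz => ?_⟩
  have h1 := h₁ t ht ((F.e c).symm z)
  rw [F.Phi_eq ht ((F.e c).map_target (hAt hz)), (F.e c).right_inv (hAt hz)] at h1
  have h2 := (hC₂ z hz).trans (le_abs_self C₂)
  have h3 := (hC₃ z hz).trans (le_abs_self C₃)
  rw [Real.norm_eq_abs] at h2 h3
  have e : F.ψ c (t, z) = F.phi c (t, z) + F.ψ c (0, z) + t * Real.log (F.Ω c z) := by
    simp only [Flow.phi]
    ring
  rw [e]
  refine (abs_add_le _ _).trans (add_le_add ((abs_add_le _ _).trans (add_le_add h1 h2)) ?_)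
  rw [abs_mul, abs_of_nonneg ht.1]
  exact mul_le_mul ht.2.le h3 (abs_nonneg _) hT.le

/-- the growth of `log (3 + C / (T - t))` -/
theorem log_le (hT : 0 < T) {C : ℝ} (hC : 0 ≤ C) : ∃ B : ℝ, 0 ≤ B ∧ ∀ t ∈ Ico 0 T,
    √(Real.log (3 + C / (T - t))) ≤ B * ff T t := by
  refine ⟨√(1 + |Real.log (3 * T + C)|), by positivity, fun t ht => ?_⟩
  rw [ff, ← Real.sqrt_mul (by positivity)]
  apply Real.sqrt_le_sqrt
  have h0 : 0 < T - t := by linarith [ht.2]
  have h1 : 3 + C / (T - t) ≤ (3 * T + C) / (T - t) := by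
    rw [add_div]
    have : 3 ≤ 3 * T / (T - t) := by
      rw [le_div_iff₀ h0]
      nlinarith [ht.1]
    linarith
  have h2 : 0 < 3 + C / (T - t) := by positivity
  have h3 : Real.log (3 + C / (T - t)) ≤ Real.log (3 * T + C) - Real.log (T - t) := by
    rw [← Real.log_div (by positivity) h0.ne']
    exact Real.log_le_log h2 h1
  have h4 := le_abs_self (Real.log (3 * T + C))
  have h5 := neg_abs_le (Real.log (T - t))
  have h6 : 0 ≤ |Real.log (3 * T + C)| * |Real.log (T - t)| := by positivity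
  nlinarith

/-- **Two nearby points.** -/
theorem Flow.two_points_log [CompactSpace M] [T2Space M] (p : M) :
    ∃ C : ℝ, ∀ᶠ q in 𝓝 p, ∀ t ∈ Ico 0 T,
      rdist F.e F.ψ t p q ≤ ENNReal.ofReal (C * ff T t) := by
  by_cases hT : 0 < T
  swap
  · exact ⟨0, Eventually.of_forall fun q t ht => absurd (lt_of_le_of_lt ht.1 ht.2) hT⟩
  obtain ⟨c, hc⟩ := F.atlas.cover p
  set zp := F.e c p with hzp
  have hzt : zp ∈ (F.e c).target := (F.e c).map_source hc
  obtain ⟨R, hR, hRs⟩ := Metric.nhds_basis_closedBall.mem_iff.1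
    ((F.e c).open_target.mem_nhds hzt)
  obtain ⟨C₁, hC₁, h₁⟩ := F.psi_bound hT c (isCompact_closedBall zp R) hRs
  obtain ⟨C₂, hC₂, h₂⟩ := F.lev_le_exp c (isCompact_closedBall zp R) hRs
  obtain ⟨B, hB, hBt⟩ := log_le hT hC₂
  set ε := min 1 (R / 2) with hε
  have hε0 : 0 < ε := lt_min one_pos (by positivity)
  have hε1 : ε ≤ 1 := min_le_left _ _
  have hεR : ε ≤ R / 2 := min_le_right _ _
  set C' : ℝ := Real.pi * (5 + 3 * (2 * C₁)) * B with hC'
  have hC'0 : 0 ≤ C' := by positivity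
  refine ⟨4 * (C' + 1), ?_⟩
  have hcont : Tendsto (fun q => √(nsq (F.e c q - zp))) (𝓝 p) (𝓝 0) := by
    have h1 : Tendsto (F.e c) (𝓝 p) (𝓝 zp) := (F.e c).continuousAt hc
    have h2 : Tendsto (fun q => √(nsq (F.e c q - zp))) (𝓝 p) (𝓝 (√(nsq (zp - zp)))) :=
      (Real.continuous_sqrt.tendsto _).comp ((nsq_continuous.tendsto _).comp (h1.sub_const zp))
    rw [sub_self, nsq_eq_zero_iff.2 rfl, Real.sqrt_zero] at h2
    exact h2
  filter_upwards [(F.e c).open_source.mem_nhds hc,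
    hcont.eventually_lt_const (show (0 : ℝ) < ε / 16 by positivity)] with q hq hqε
  intro t ht
  have hf1 := one_le_ff T t
  obtain ⟨U, hU, hsub, hψ⟩ := F.krf.smooth c
  have hsub' : ∀ z ∈ (F.e c).target, (t, z) ∈ U := fun z hz => hsub ⟨ht, hz⟩
  set w := F.e c q - zp with hw
  by_cases hw0 : w = 0
  · have : q = p := (F.e c).injOn hq hc (sub_eq_zero.1 hw0)
    rw [this, rdist_self_of_cover F.atlas.cover]
    exact bot_le
  set N := √(nsq w) with hN
  have hN0 : 0 < N := Real.sqrt_pos.2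
    (lt_of_le_of_ne (nsq_nonneg w) fun h => hw0 (nsq_eq_zero_iff.1 h.symm))
  set v := (ε / N) • w with hv
  set δ := N / ε with hδ
  have hδ0 : 0 ≤ δ := by positivity
  have hδ1 : δ ≤ 1 / 16 := by
    rw [hδ, div_le_iff₀ hε0]
    linarith
  have hnv : nsq v = ε ^ 2 := by
    rw [hv, nsq_smul', div_pow, hN, Real.sq_sqrt (nsq_nonneg w)]
    have : nsq w ≠ 0 := fun h => hw0 (nsq_eq_zero_iff.1 h)
    field_simp
  have hnv1 : nsq v ≤ 1 := by
    rw [hnv]
    exact pow_le_one₀ hε0.le hε1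
  have hvn : ‖v‖ ≤ ε := by
    have := norm_le_sqrt_nsq v
    rwa [hnv, Real.sqrt_sq hε0.le] at this
  have hline : ∀ ζ : ℂ, ‖ζ‖ ≤ 1 / 2 → ‖lineL v ζ‖ ≤ ε := by
    intro ζ hζ
    rw [lineL_apply]
    refine (norm_add_le _ _).trans ?_
    rw [norm_smul ζ.re v, norm_smul ζ.im (J v), norm_J, Real.norm_eq_abs, Real.norm_eq_abs]
    have h1 := (Complex.abs_re_le_norm ζ).trans hζ
    have h2 := (Complex.abs_im_le_norm ζ).trans hζ
    nlinarith [norm_nonneg v, abs_nonneg ζ.re, abs_nonneg ζ.im,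
      mul_le_mul h1 hvn (norm_nonneg v) (by norm_num : (0:ℝ) ≤ 1 / 2),
      mul_le_mul h2 hvn (norm_nonneg v) (by norm_num : (0:ℝ) ≤ 1 / 2)]
  have hA : ∀ ζ : ℂ, ‖ζ‖ ≤ 1 / 2 → line zp v ζ ∈ Metric.closedBall zp R := by
    intro ζ hζ
    rw [Metric.mem_closedBall, dist_eq_norm, line_eq, add_sub_cancel_left]
    linarith [hline ζ hζ]
  have hA' : ∀ ζ : ℂ, ‖ζ‖ ≤ 1 / 2 → line (zp + δ • v) v ζ ∈ Metric.closedBall zp R := by
    intro ζ hζ
    rw [Metric.mem_closedBall, dist_eq_norm, line_eq, add_assoc, add_sub_cancel_left]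
    refine (norm_add_le _ _).trans ?_
    rw [norm_smul, Real.norm_of_nonneg hδ0]
    nlinarith [hline ζ hζ, mul_le_mul hδ1 hvn (norm_nonneg v) (by norm_num : (0:ℝ) ≤ 1 / 16)]
  have hrays : ∀ z : Cn n, (∀ ζ : ℂ, ‖ζ‖ ≤ 1 / 2 → line z v ζ ∈ Metric.closedBall zp R) →
      ∫ θ in (0 : ℝ)..2 * Real.pi, ∫ r in (0 : ℝ)..1 / 16,
        √(lapC (fun ζ => F.ψ c (t, line z v ζ)) (r * Complex.exp (θ * Complex.I))) ≤
        (C' + 1) * ff T t := by
    intro z hz
    have hz' : ∀ ζ ∈ Metric.ball (0 : ℂ) (1 / 2), (t, line z v ζ) ∈ U := fun ζ hζ =>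
      hsub' _ (hRs (hz ζ (mem_ball_zero_iff.1 hζ).le))
    have hG : ContDiffOn ℝ ∞ (fun ζ => F.ψ c (t, line z v ζ)) (Metric.ball 0 (1 / 2)) :=
      hψ.comp (contDiffOn_const.prodMk (line_contDiff z v).contDiffOn) hz'
    have hX : 3 ≤ 3 + C₂ / (T - t) := by
      have : 0 ≤ C₂ / (T - t) := div_nonneg hC₂ (by linarith [ht.2])
      linarith
    refine (LogRay.radial_log hG (X := 3 + C₂ / (T - t)) (C₀ := 2 * C₁) ?_ hX ?_ ?_).trans ?_
    · intro ζ hζ
      rw [lapC_line' hU hψ z v (hz' ζ hζ)]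
      have := F.lev_nonneg ht (hRs (hz ζ (mem_ball_zero_iff.1 hζ).le)) v
      positivity
    · intro ζ hζ
      rw [lapC_line' hU hψ z v (hz' ζ hζ)]
      have h3 := h₂ t ht _ (hz ζ (mem_ball_zero_iff.1 hζ).le) v
      have h4 : Real.exp (C₂ / (T - t)) * nsq v ≤ Real.exp (C₂ / (T - t)) * 1 :=
        mul_le_mul_of_nonneg_left hnv1 (Real.exp_pos _).le
      have h5 : (2 * Real.exp (3 + C₂ / (T - t))) ^ 2 =
          4 * (Real.exp 3 * (Real.exp 3 * Real.exp (C₂ / (T - t))) * Real.exp (C₂ / (T - t))) := by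
        rw [Real.exp_add]
        ring
      rw [h5]
      have h6 : 1 ≤ Real.exp 3 := Real.one_le_exp (by norm_num)
      have h7 : 1 ≤ Real.exp (C₂ / (T - t)) := Real.one_le_exp (div_nonneg hC₂ (by linarith [ht.2]))
      have h8 : 1 ≤ Real.exp 3 * (Real.exp 3 * Real.exp (C₂ / (T - t))) :=
        one_le_mul_of_one_le_of_one_le h6 (one_le_mul_of_one_le_of_one_le h6 h7)
      nlinarith
    · intro r hr
      have h3 : cavg (fun ζ => F.ψ c (t, line z v ζ)) r ≤ C₁ := by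
        have hmem : ∀ θ : ℝ, ‖(r : ℂ) * Complex.exp (θ * Complex.I)‖ ≤ 1 / 2 := by
          intro θ
          rw [norm_mul, Complex.norm_exp_ofReal_mul_I, mul_one, Complex.norm_real,
            Real.norm_of_nonneg hr.1]
          exact hr.2.le
        have hc : Continuous fun θ : ℝ => F.ψ c (t, line z v (r * ee θ)) :=
          (contP (fun ζ => F.ψ c (t, line z v ζ)) hG.continuousOn).comp_continuous
            (Continuous.prodMk_right r) fun θ => ⟨⟨by linarith [hr.1], hr.2⟩, mem_univ _⟩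
        have h4 : ∫ θ in (0 : ℝ)..2 * Real.pi, F.ψ c (t, line z v (r * ee θ)) ≤
            ∫ θ in (0 : ℝ)..2 * Real.pi, C₁ := by
          refine intervalIntegral.integral_mono_on (by positivity) (hc.intervalIntegrable _ _)
            intervalIntegrable_const fun θ _ => ?_
          exact (le_abs_self _).trans (h₁ t ht _ (hz _ (hmem θ)))
        rw [intervalIntegral.integral_const, sub_zero, smul_eq_mul] at h4
        have h5 := mul_le_mul_of_nonneg_left h4 (show (0 : ℝ) ≤ (2 * Real.pi)⁻¹ by positivity)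
        rw [inv_mul_cancel_left₀ (by positivity)] at h5
        exact h5
      have h4 := neg_abs_le (F.ψ c (t, line z v 0))
      have h5 := h₁ t ht _ (hz 0 (by norm_num))
      linarith
    · have h3 := hBt t ht
      have h4 : Real.pi * (5 + 3 * (2 * C₁)) * √(Real.log (3 + C₂ / (T - t))) ≤
          Real.pi * (5 + 3 * (2 * C₁)) * (B * ff T t) :=
        mul_le_mul_of_nonneg_left h3 (by positivity)
      have h5 : Real.pi * (5 + 3 * (2 * C₁)) * (B * ff T t) = C' * ff T t := by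
        rw [hC']
        ring
      linarith
  have h16 : ∀ ζ : ℂ, ‖ζ‖ ≤ 1 / 16 → ‖ζ‖ ≤ 1 / 2 := fun ζ h => h.trans (by norm_num)
  have hfin := rdist_rays hU hψ hsub' (fun z hz u => F.lev_nonneg ht hz u) hδ0 hδ1
    (fun ζ hζ => hRs (hA ζ (h16 ζ hζ))) (fun ζ hζ => hRs (hA' ζ (h16 ζ hζ)))
    (by positivity : 0 < (C' + 1) * ff T t) (hrays zp hA) (hrays (zp + δ • v) hA')
  have e1 : zp + δ • v = F.e c q := by
    rw [hv, smul_smul, hδ, div_mul_div_comm, mul_comm N ε, div_self (by positivity), one_smul, hw]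
    abel
  rw [e1, (F.e c).left_inv hq, hzp, (F.e c).left_inv hc, ← mul_assoc] at hfin
  exact hfin

/-- **The diameter, from local bounds.** -/
theorem Flow.diam_of_local_fun [CompactSpace M] [ConnectedSpace M] {f : ℝ → ℝ}
    (hf : ∀ t ∈ Ico 0 T, 0 ≤ f t)
    (h : ∀ p, ∃ C : ℝ, ∀ᶠ q in 𝓝 p, ∀ t ∈ Ico 0 T,
      rdist F.e F.ψ t p q ≤ ENNReal.ofReal (C * f t)) :
    ∃ C : ℝ, ∀ t ∈ Ico 0 T, rdiam F.e F.ψ t ≤ ENNReal.ofReal (C * f t) := by
  -- monotonicity in the constant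
  have hmono : ∀ (t : ℝ), t ∈ Ico 0 T → ∀ C : ℝ,
      ENNReal.ofReal (C * f t) ≤ ENNReal.ofReal (max C 0 * f t) := fun t ht C =>
    ENNReal.ofReal_le_ofReal (mul_le_mul_of_nonneg_right (le_max_left _ _) (hf t ht))
  have hadd : ∀ (t : ℝ), t ∈ Ico 0 T → ∀ C C' : ℝ,
      ENNReal.ofReal (max C 0 * f t) + ENNReal.ofReal (max C' 0 * f t) =
        ENNReal.ofReal ((max C 0 + max C' 0) * f t) := fun t ht C C' => by
    rw [add_mul, ENNReal.ofReal_add (mul_nonneg (le_max_right _ _) (hf t ht))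
      (mul_nonneg (le_max_right _ _) (hf t ht))]
  -- the points which can be reached from `p₀` with a bounded cost
  obtain ⟨p₀⟩ : Nonempty M := inferInstance
  set S : Set M := {p | ∃ C : ℝ, ∀ t ∈ Ico 0 T,
    rdist F.e F.ψ t p₀ p ≤ ENNReal.ofReal (C * f t)} with hS
  have hopen : IsOpen S := by
    rw [isOpen_iff_mem_nhds]
    rintro p ⟨C, hC⟩
    obtain ⟨C', hC'⟩ := h p
    filter_upwards [hC'] with q hq
    refine ⟨max C 0 + max C' 0, fun t ht => ?_⟩
    refine (rdist_triangle' p₀ p q).trans ?_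
    rw [← hadd t ht]
    exact add_le_add ((hC t ht).trans (hmono t ht C)) ((hq t ht).trans (hmono t ht C'))
  have hclosed : IsClosed S := by
    rw [← isOpen_compl_iff, isOpen_iff_mem_nhds]
    intro p hp
    obtain ⟨C', hC'⟩ := h p
    filter_upwards [hC'] with q hq
    rintro ⟨C, hC⟩
    refine hp ⟨max C 0 + max C' 0, fun t ht => ?_⟩
    refine (rdist_triangle' p₀ q p).trans ?_
    rw [← hadd t ht, rdist_comm' q p]
    exact add_le_add ((hC t ht).trans (hmono t ht C)) ((hq t ht).trans (hmono t ht C'))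
  have hne : S.Nonempty := ⟨p₀, 0, fun t _ => by
    rw [rdist_self_of_cover F.atlas.cover]
    exact bot_le⟩
  have huniv : S = univ := IsClopen.eq_univ ⟨hclosed, hopen⟩ hne
  -- finitely many neighbourhoods
  choose C hC using h
  obtain ⟨s, -, hs⟩ := isCompact_univ.elim_nhds_subcover
    (fun p => {q | ∀ t ∈ Ico 0 T, rdist F.e F.ψ t p q ≤ ENNReal.ofReal (C p * f t)})
    fun p _ => hC p
  have hreach : ∀ p : M, ∃ C : ℝ, ∀ t ∈ Ico 0 T,
      rdist F.e F.ψ t p₀ p ≤ ENNReal.ofReal (C * f t) := by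
    intro p
    have : p ∈ S := by rw [huniv]; exact mem_univ p
    exact this
  choose B hB using hreach
  set K : ℝ := ∑ p ∈ s, (max (B p) 0 + max (C p) 0) with hK
  have hK0 : 0 ≤ K := Finset.sum_nonneg fun p _ =>
    add_nonneg (le_max_right _ _) (le_max_right _ _)
  have hKq : ∀ t ∈ Ico 0 T, ∀ q : M, rdist F.e F.ψ t p₀ q ≤ ENNReal.ofReal (K * f t) := by
    intro t ht q
    obtain ⟨p, hp, hq⟩ := mem_iUnion₂.1 (hs (mem_univ q))
    refine (rdist_triangle' p₀ p q).trans ((add_le_add ((hB p t ht).trans (hmono t ht _))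
      ((hq t ht).trans (hmono t ht _))).trans ?_)
    rw [hadd t ht]
    apply ENNReal.ofReal_le_ofReal
    refine mul_le_mul_of_nonneg_right ?_ (hf t ht)
    exact Finset.single_le_sum (f := fun p => max (B p) 0 + max (C p) 0)
      (fun _ _ => add_nonneg (le_max_right _ _) (le_max_right _ _)) hp
  refine ⟨K + K, fun t ht => iSup₂_le fun p q => ?_⟩
  refine (rdist_triangle' p p₀ q).trans ?_
  rw [add_mul, ENNReal.ofReal_add (mul_nonneg hK0 (hf t ht)) (mul_nonneg hK0 (hf t ht))]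
  refine add_le_add ?_ (hKq t ht q)
  rw [rdist_comm']
  exact hKq t ht p

theorem Flow.diam_log [CompactSpace M] [T2Space M] [ConnectedSpace M] :
    ∃ C : ℝ, ∀ t ∈ Ico 0 T, rdiam F.e F.ψ t ≤ ENNReal.ofReal (C * ff T t) :=
  F.diam_of_local_fun (fun t _ => zero_le_one.trans (one_le_ff T t)) F.two_points_log

/-- **The diameter of a Kähler-Ricci flow with semi-positive limit class.** -/
theorem diam_log_of_semipositive [CompactSpace M] [T2Space M] [ConnectedSpace M]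
    {e : κ → OpenPartialHomeomorph M (Cn n)} {ψ : κ → ℝ × Cn n → ℝ} {Ω : κ → Cn n → ℝ}
    (ha : IsAtlas e) (hψ : KRFS.IsKRF e T ψ) (hΩ : IsVolume e ψ Ω)
    (hpos : ∀ c, ∀ z ∈ (e c).target, ∀ u,
      0 ≤ lev (ψ c) u (0, z) + T * levz (fun z => Real.log (Ω c z)) u z) :
    ∃ C : ℝ, ∀ t ∈ Ico 0 T, rdiam e ψ t ≤ ENNReal.ofReal (C * √(1 + |Real.log (T - t)|)) := by
  by_cases hT : 0 < T
  swap
  · exact ⟨0, fun t ht => absurd (lt_of_le_of_lt ht.1 ht.2) hT⟩
  have hs1 : ∀ c, ContDiffOn ℝ ∞ (fun z => ψ c (0, z)) (e c).target := by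
    intro c
    obtain ⟨U, hU, hsub, h⟩ := hψ.smooth c
    exact h.comp (contDiff_const.prodMk contDiff_id).contDiffOn fun z hz => hsub ⟨⟨le_rfl, hT⟩, hz⟩
  have hs2 : ∀ c, ContDiffOn ℝ ∞ (fun z => Real.log (Ω c z)) (e c).target := fun c =>
    (hΩ.smooth c).log fun z hz => (hΩ.pos c z hz).ne'
  have heq : ∀ c, ∀ z ∈ (e c).target, ∀ u,
      lev (ψ c) u (0, z) + T * levz (fun z => Real.log (Ω c z)) u z =
        levz (fun z => ψ c (0, z) + T * Real.log (Ω c z)) u z := by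
    intro c z hz u
    obtain ⟨U, hU, hsub, h⟩ := hψ.smooth c
    have h1 : ContDiffAt ℝ 2 (fun z => ψ c (0, z)) z :=
      ((hs1 c).contDiffAt ((e c).open_target.mem_nhds hz)).of_le two_le_infty
    have h2 : ContDiffAt ℝ 2 (fun z => Real.log (Ω c z)) z :=
      ((hs2 c).contDiffAt ((e c).open_target.mem_nhds hz)).of_le two_le_infty
    rw [Bd.levz_add h1 (contDiffAt_const.mul h2), Bd.levz_const_mul T h2,
      levz_slice hU h (hsub ⟨⟨le_rfl, hT⟩, hz⟩) u]
  let F : Flow n M κ T :=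
    { e := e
      ψ := ψ
      Ω := Ω
      Θ := fun c z => ψ c (0, z) + T * Real.log (Ω c z)
      atlas := ha
      krf := hψ
      vol := hΩ
      smooth := fun c => (hs1 c).add (contDiffOn_const.mul (hs2 c))
      psh := fun c z hz u => by
        rw [← heq c z hz u]
        exact hpos c z hz u
      theta := heq }
  exact F.diam_log

end Pool.Agent.KRFF

end
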